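import Mathlib

/-!
# Cantor series expansions: definitions

A basic sequence is a sequence `q_1, q_2, …` of integers `≥ 2`. It is indexed from `0` here: `q n`
stands for `q_{n+1}`, and accordingly `digit q x n` stands for the digit `E_{n+1}` of `x`.
-/

set_option autoImplicit false

namespace Pool.Agent.R334.CN

open Filter Topology

/-- `q` is a basic sequence. -/
def Basic (q : ℕ → ℕ) : Prop := ∀ n, 2 ≤ q n

/-- The product of the first `n` terms of `q`. -/
def prodTo (q : ℕ → ℕ) (n : ℕ) : ℕ := ∏ i ∈ Finset.range n, q i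

/-- The digit with index `n` (counted from `0`) of the `Q`-Cantor series expansion of `x`: the residue
modulo `q n` of the integer part of `q_0 q_1 ⋯ q_n x`. -/
noncomputable def digit (q : ℕ → ℕ) (x : ℝ) (n : ℕ) : ℤ :=
  ⌊(prodTo q (n + 1) : ℝ) * x⌋ % (q n : ℤ)

/-- The block `B` of length `k` occurs in the expansion of `x` at the position `i`. -/
def Occurs (q : ℕ → ℕ) (x : ℝ) {k : ℕ} (B : Fin k → ℕ) (i : ℕ) : Prop :=
  ∀ j : Fin k, digit q x (i + j) = B j

open Classical in
/-- `N_n(B, x)`: the number of the first `n` positions at which `B` occurs. -/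
noncomputable def count (q : ℕ → ℕ) (x : ℝ) {k : ℕ} (B : Fin k → ℕ) (n : ℕ) : ℕ :=
  ((Finset.range n).filter (fun i => Occurs q x B i)).card

/-- `Q_n^{(k)}`: the sum of `1 / (q_i q_{i+1} ⋯ q_{i+k-1})` over the first `n` positions `i`. -/
noncomputable def weight (q : ℕ → ℕ) (k n : ℕ) : ℝ :=
  ∑ i ∈ Finset.range n, (∏ j ∈ Finset.range k, (q (i + j) : ℝ))⁻¹

/-- `x` is `Q`-normal of order `k`: `N_n(B, x) / Q_n^{(k)} → 1` for every block `B` of length `k`. -/
def NormalOfOrder (q : ℕ → ℕ) (k : ℕ) (x : ℝ) : Prop :=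
  ∀ B : Fin k → ℕ, Tendsto (fun n => (count q x B n : ℝ) / weight q k n) atTop (𝓝 1)

/-- `Q` is fully divergent: `Q_n^{(k)} → ∞` for every `k ≥ 1`. -/
def FullyDivergent (q : ℕ → ℕ) : Prop := ∀ k, 1 ≤ k → Tendsto (weight q k) atTop atTop

open Classical in
/-- `x` is `Q`-distribution normal: the sequence `q_0 ⋯ q_{n-1} x mod 1`, `n ≥ 0`, is uniformly
distributed modulo `1`. -/
def DistNormal (q : ℕ → ℕ) (x : ℝ) : Prop :=
  ∀ a b : ℝ, 0 ≤ a → a < b → b ≤ 1 →
    Tendsto (fun N : ℕ => (((Finset.range N).filter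
      (fun n => Int.fract ((prodTo q n : ℝ) * x) ∈ Set.Ico a b)).card : ℝ) / N) atTop (𝓝 (b - a))

end Pool.Agent.R334.CN
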