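import Pool.Agent.R334.CNMeas

/-!
# Dimension of the set of numbers with modified random digits
-/

set_option autoImplicit false

namespace Pool.Agent.R334.CN

open MeasureTheory Filter Topology Metric
open scoped ENNReal NNReal

lemma growth {q : ℕ → ℕ} (hinf : Tendsto q atTop atTop) (hq : Basic q) {δ : ℝ} (hδ : 0 < δ) :
    ∀ᶠ n in atTop, (8 : ℝ) * 2 ^ n ≤ (prodTo q n : ℝ) ^ δ := by
  have h1 : Tendsto (fun K : ℕ => ((K : ℝ)) ^ δ) atTop atTop :=
    (tendsto_rpow_atTop hδ).comp tendsto_natCast_atTop_atTop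
  obtain ⟨K, hK⟩ := (h1.eventually_ge_atTop 4).exists
  obtain ⟨i₀, hi₀⟩ := eventually_atTop.1 (hinf.eventually_ge_atTop K)
  have h2 : ∀ d, (K : ℝ) ^ d ≤ prodTo q (i₀ + d) := by
    intro d
    induction d with
    | zero =>
      simp only [pow_zero, add_zero]
      exact_mod_cast prodTo_pos hq i₀
    | succ d ih =>
      rw [← add_assoc, prodTo_succ, pow_succ]
      push_cast
      have h3 : (K : ℝ) ≤ q (i₀ + d) := by exact_mod_cast hi₀ (i₀ + d) (by omega)
      exact mul_le_mul ih h3 (by positivity) (by positivity)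
  filter_upwards [eventually_ge_atTop (2 * i₀ + 3)] with n hn
  obtain ⟨d, rfl⟩ : ∃ d, n = i₀ + d := ⟨n - i₀, by omega⟩
  calc (8 : ℝ) * 2 ^ (i₀ + d) = 2 ^ (i₀ + 3 + d) := by ring
    _ ≤ 2 ^ (2 * d) := pow_le_pow_right₀ (by norm_num) (by omega)
    _ = 4 ^ d := by rw [pow_mul]; norm_num
    _ ≤ ((K : ℝ) ^ δ) ^ d := pow_le_pow_left₀ (by norm_num) hK d
    _ = ((K : ℝ) ^ d) ^ δ := by
      rw [← Real.rpow_natCast ((K : ℝ) ^ δ), ← Real.rpow_natCast (K : ℝ) d,
        ← Real.rpow_mul (Nat.cast_nonneg _), ← Real.rpow_mul (Nat.cast_nonneg _), mul_comm]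
    _ ≤ (prodTo q (i₀ + d) : ℝ) ^ δ := Real.rpow_le_rpow (by positivity) (h2 d) hδ.le

lemma ev_bound {q : ℕ → ℕ} (hq : Basic q) (T : ℕ → Finset ℕ) (hT : ∀ n, (T n).card ≤ 2) (n : ℕ) :
    PP q (ev (Finset.range n) (fun i => (T i : Set ℕ))) ≤ ENNReal.ofReal (2 ^ n / prodTo q n) := by
  classical
  rw [← ENNReal.ofReal_toReal (measure_ne_top (PP q) _)]
  apply ENNReal.ofReal_le_ofReal
  have h := PP_real_ev q (Finset.range n) (fun i => (T i : Set ℕ))
  rw [Measure.real] at h
  rw [h, prodTo]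
  push_cast
  rw [← Finset.card_range n, ← Finset.prod_const, Finset.card_range, ← Finset.prod_div_distrib]
  apply Finset.prod_le_prod
  · intro i _
    exact measureReal_nonneg
  · intro i _
    rw [unif_real (by have := hq i; omega)]
    apply div_le_div_of_nonneg_right _ (Nat.cast_nonneg _)
    have h2 : ((Finset.range (q i)).filter (· ∈ (T i : Set ℕ))).card ≤ 2 := by
      refine (Finset.card_le_card (t := T i) ?_).trans (hT i)
      intro x hx
      simpa using (Finset.mem_filter.1 hx).2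
    exact_mod_cast h2

section

variable {q : ℕ → ℕ} (Φ : (ℕ → ℕ) → ℕ → ℕ) (T : ℕ → ℕ → Finset ℕ) (G : Set (ℕ → ℕ))

lemma cyl_bound (hq : Basic q) (hT : ∀ n d, (T n d).card ≤ 2) (hΦ : ∀ e n, e n ∈ T n (Φ e n))
    (hG1 : ∀ e ∈ G, (∀ n, Φ e n < q n) ∧ ∃ᶠ n in atTop, Φ e n + 2 ≤ q n) (n : ℕ) (a : ℤ) :
    PP q {e | e ∈ G ∧ (int q (Φ e) n : ℤ) = a} ≤ ENNReal.ofReal (2 ^ n / prodTo q n) := by
  rcases Set.eq_empty_or_nonempty {e | e ∈ G ∧ (int q (Φ e) n : ℤ) = a} with h | ⟨f, hf, hfa⟩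
  · rw [h, measure_empty]
    exact zero_le
  · refine le_trans (measure_mono ?_) (ev_bound hq (fun i => T i (Φ f i)) (fun i => hT _ _) n)
    rintro e ⟨he, hea⟩ i hi
    have h1 : int q (Φ e) n = int q (Φ f) n := by exact_mod_cast hea.trans hfa.symm
    have h2 := int_inj (hG1 e he).1 (hG1 f hf).1 n h1 i (Finset.mem_range.1 hi)
    have h3 := hΦ e i
    rw [h2] at h3
    exact h3

lemma interval_bound (hq : Basic q) (hT : ∀ n d, (T n d).card ≤ 2) (hΦ : ∀ e n, e n ∈ T n (Φ e n))
    (hG1 : ∀ e ∈ G, (∀ n, Φ e n < q n) ∧ ∃ᶠ n in atTop, Φ e n + 2 ≤ q n) (n : ℕ) (x r : ℝ)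
    (hr : 0 ≤ r) :
    PP q {e | e ∈ G ∧ val q (Φ e) ∈ Set.Icc (x - r) (x + r)} ≤
      ENNReal.ofReal ((2 * r * prodTo q n + 2) * (2 ^ n / prodTo q n)) := by
  have hM : (0 : ℝ) < prodTo q n := by exact_mod_cast prodTo_pos hq n
  have h1 : {e | e ∈ G ∧ val q (Φ e) ∈ Set.Icc (x - r) (x + r)} ⊆
      ⋃ a ∈ Finset.Icc ⌊(prodTo q n : ℝ) * (x - r)⌋ ⌊(prodTo q n : ℝ) * (x + r)⌋,
        {e | e ∈ G ∧ (int q (Φ e) n : ℤ) = a} := by
    rintro e ⟨he, h2, h3⟩
    have h4 := floor_val hq (hG1 e he).1 (hG1 e he).2 n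
    simp only [Set.mem_iUnion]
    refine ⟨int q (Φ e) n, ?_, he, rfl⟩
    rw [← h4, Finset.mem_Icc]
    constructor
    · exact Int.floor_le_floor (mul_le_mul_of_nonneg_left h2 hM.le)
    · exact Int.floor_le_floor (mul_le_mul_of_nonneg_left h3 hM.le)
  refine (measure_mono h1).trans ((measure_biUnion_finset_le _ _).trans ?_)
  refine (Finset.sum_le_sum fun a _ => cyl_bound Φ T G hq hT hΦ hG1 n a).trans ?_
  rw [Finset.sum_const, nsmul_eq_mul, ENNReal.ofReal_mul (by positivity)]
  apply mul_le_mul_left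
  rw [Int.card_Icc]
  have h5 : (((⌊(prodTo q n : ℝ) * (x + r)⌋ + 1 - ⌊(prodTo q n : ℝ) * (x - r)⌋).toNat : ℕ) : ℝ) ≤
      2 * r * prodTo q n + 2 := by
    have h6 : ⌊(prodTo q n : ℝ) * (x - r)⌋ ≤ ⌊(prodTo q n : ℝ) * (x + r)⌋ := by
      apply Int.floor_le_floor
      apply mul_le_mul_of_nonneg_left _ hM.le
      linarith
    have h7 : (((⌊(prodTo q n : ℝ) * (x + r)⌋ + 1 - ⌊(prodTo q n : ℝ) * (x - r)⌋).toNat : ℕ) : ℤ) =
        ⌊(prodTo q n : ℝ) * (x + r)⌋ + 1 - ⌊(prodTo q n : ℝ) * (x - r)⌋ :=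
      Int.toNat_of_nonneg (by linarith)
    have h8 : (((⌊(prodTo q n : ℝ) * (x + r)⌋ + 1 - ⌊(prodTo q n : ℝ) * (x - r)⌋).toNat : ℕ) : ℝ) =
        (⌊(prodTo q n : ℝ) * (x + r)⌋ : ℝ) + 1 - (⌊(prodTo q n : ℝ) * (x - r)⌋ : ℝ) := by
      exact_mod_cast h7
    rw [h8]
    have h9 := Int.floor_le ((prodTo q n : ℝ) * (x + r))
    have h10 := Int.lt_floor_add_one ((prodTo q n : ℝ) * (x - r))
    nlinarith
  rw [← ENNReal.ofReal_natCast]
  exact ENNReal.ofReal_le_ofReal h5

lemma aemeasurable_val (hq : Basic q) (hΦm : Measurable Φ) (hG : ∀ᵐ e ∂PP q, e ∈ G)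
    (hG1 : ∀ e ∈ G, (∀ n, Φ e n < q n) ∧ ∃ᶠ n in atTop, Φ e n + 2 ≤ q n) :
    AEMeasurable (fun e => val q (Φ e)) (PP q) := by
  refine aemeasurable_of_tendsto_metrizable_ae atTop
    (f := fun N e => ∑ n ∈ Finset.range N, (Φ e n : ℝ) / prodTo q (n + 1)) (fun N => ?_) ?_
  · apply Measurable.aemeasurable
    apply Finset.measurable_sum
    intro n _
    apply Measurable.div_const
    exact (measurable_from_nat (f := fun m : ℕ => (m : ℝ))).comp ((measurable_pi_apply n).comp hΦm)
  · filter_upwards [hG] with e he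
    exact (summable_val hq (hG1 e he).1).hasSum.tendsto_sum_nat

theorem one_le_dimH (hq : Basic q) (hinf : Tendsto q atTop atTop) (hΦm : Measurable Φ)
    (hT : ∀ n d, (T n d).card ≤ 2) (hΦ : ∀ e n, e n ∈ T n (Φ e n))
    (hG : ∀ᵐ e ∂PP q, e ∈ G)
    (hG1 : ∀ e ∈ G, (∀ n, Φ e n < q n) ∧ ∃ᶠ n in atTop, Φ e n + 2 ≤ q n)
    (S : Set ℝ) (hS : ∀ e ∈ G, val q (Φ e) ∈ S) : 1 ≤ dimH S := by
  apply ENNReal.le_of_forall_nnreal_lt
  intro s hs
  rcases eq_or_ne s 0 with rfl | hs0
  · simp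
  have hs1 : (s : ℝ) < 1 := by exact_mod_cast hs
  have hs2 : (0 : ℝ) < s := by
    have := pos_iff_ne_zero.2 hs0
    exact_mod_cast this
  apply le_dimH_of_hausdorffMeasure_ne_zero
  have hφ := aemeasurable_val Φ G hq hΦm hG hG1
  set ν := (PP q).map (fun e => val q (Φ e)) with hν
  have hν1 : 1 ≤ ν S := by
    calc (1 : ℝ≥0∞) = PP q Set.univ := measure_univ.symm
      _ ≤ PP q ((fun e => val q (Φ e)) ⁻¹' S) := by
        apply measure_mono_ae
        filter_upwards [hG] with e he _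
        exact hS e he
      _ ≤ ν S := Measure.le_map_apply hφ S
  obtain ⟨n₀, hn₀⟩ := eventually_atTop.1 (growth hinf hq (δ := 1 - s) (by linarith))
  have hM : ∀ n, (0 : ℝ) < prodTo q n := fun n => by exact_mod_cast prodTo_pos hq n
  have hle : ν ≤ μH[s] := by
    apply Measure.le_hausdorffMeasure _ _ (ENNReal.ofReal (1 / (2 * prodTo q n₀)))
    · rw [ENNReal.ofReal_pos]
      have := hM n₀
      positivity
    intro U hU
    rcases Set.eq_empty_or_nonempty U with rfl | ⟨x, hx⟩
    · simp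
    have hUtop : ediam U ≠ ⊤ := ne_top_of_le_ne_top ENNReal.ofReal_ne_top hU
    set r := (ediam U).toReal with hr
    have hr0 : 0 ≤ r := ENNReal.toReal_nonneg
    have hUr : ediam U = ENNReal.ofReal r := (ENNReal.ofReal_toReal hUtop).symm
    have hsub : U ⊆ Set.Icc (x - r) (x + r) := by
      intro y hy
      have h1 : dist y x ≤ diam U := dist_le_diam_of_mem' hUtop hy hx
      rw [Real.dist_eq, abs_le] at h1
      have h2 : diam U = r := rfl
      constructor <;> linarith [h1.1, h1.2]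
    have hb : ∀ n, ν U ≤ ENNReal.ofReal ((2 * r * prodTo q n + 2) * (2 ^ n / prodTo q n)) := by
      intro n
      refine le_trans ?_ (interval_bound Φ T G hq hT hΦ hG1 n x r hr0)
      calc ν U ≤ ν (Set.Icc (x - r) (x + r)) := measure_mono hsub
        _ = PP q ((fun e => val q (Φ e)) ⁻¹' (Set.Icc (x - r) (x + r))) :=
          Measure.map_apply_of_aemeasurable hφ measurableSet_Icc
        _ ≤ _ := by
          apply measure_mono_ae
          filter_upwards [hG] with e he h1
          exact ⟨he, h1⟩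
    rcases eq_or_lt_of_le hr0 with h0 | h0
    · -- diameter zero
      have h1 : ν U ≤ 0 := by
        have h2 : Tendsto (fun n : ℕ => ENNReal.ofReal ((1 / 2 : ℝ) ^ n)) atTop (𝓝 0) := by
          have := ENNReal.tendsto_ofReal
            (tendsto_pow_atTop_nhds_zero_of_lt_one (by norm_num : (0 : ℝ) ≤ 1 / 2) (by norm_num))
          simpa using this
        refine ge_of_tendsto h2 ?_
        filter_upwards [growth hinf hq (δ := 1 / 2) (by norm_num)] with n hn
        refine (hb n).trans (ENNReal.ofReal_le_ofReal ?_)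
        rw [← h0]
        have h3 : ((8 : ℝ) * 2 ^ n) ^ 2 ≤ prodTo q n := by
          calc ((8 : ℝ) * 2 ^ n) ^ 2 ≤ ((prodTo q n : ℝ) ^ (1 / 2 : ℝ)) ^ 2 :=
                pow_le_pow_left₀ (by positivity) hn 2
            _ = prodTo q n := by
                rw [← Real.sqrt_eq_rpow, Real.sq_sqrt (hM n).le]
        rw [mul_zero, zero_mul, zero_add, ← mul_div_assoc, div_le_iff₀ (hM n)]
        calc (2 : ℝ) * 2 ^ n ≤ (1 / 2) ^ n * (8 * 2 ^ n) ^ 2 := by
              have h4 : ((1 : ℝ) / 2) ^ n * 2 ^ n = 1 := by rw [← mul_pow]; norm_num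
              calc (2 : ℝ) * 2 ^ n ≤ 64 * 2 ^ n := by
                    have : (0 : ℝ) < 2 ^ n := by positivity
                    linarith
                _ = 64 * 2 ^ n * ((1 / 2) ^ n * 2 ^ n) := by rw [h4, mul_one]
                _ = _ := by ring
          _ ≤ (1 / 2) ^ n * prodTo q n := mul_le_mul_of_nonneg_left h3 (by positivity)
      refine h1.trans zero_le
    · have hex : ∃ n, 1 ≤ (prodTo q n : ℝ) * r := by
        obtain ⟨n, hn⟩ := ((growth hinf hq (δ := 1) one_pos).and (eventually_ge_atTop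
          (⌈1 / r⌉₊))).exists
        refine ⟨n, ?_⟩
        have h1 : (1 / r : ℝ) ≤ n := (Nat.le_ceil _).trans (by exact_mod_cast hn.2)
        have h2 : (n : ℝ) ≤ 8 * 2 ^ n := by
          have : (n : ℝ) < 2 ^ n := by exact_mod_cast Nat.lt_two_pow_self
          have h3 : (0 : ℝ) < 2 ^ n := by positivity
          linarith
        have h3 := hn.1
        rw [Real.rpow_one] at h3
        have h4 : 1 / r ≤ prodTo q n := h1.trans (h2.trans h3)
        rwa [div_le_iff₀ h0] at h4
      classical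
      have hn1 := Nat.find_spec hex
      have hnmin := fun m => Nat.find_min (m := m) hex
      set n := Nat.find hex with hn
      have hrn : (prodTo q n₀ : ℝ) * r < 1 := by
        have h1 : r ≤ 1 / (2 * prodTo q n₀) := by
          rw [hr]
          exact ENNReal.toReal_le_of_le_ofReal (by have := hM n₀; positivity) hU
        have h2 := hM n₀
        rw [le_div_iff₀ (by positivity)] at h1
        linarith
      have hmono : ∀ a b : ℕ, a ≤ b → (prodTo q a : ℝ) ≤ prodTo q b := by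
        intro a b hab
        have : prodTo q a ≤ prodTo q b := by
          apply Finset.prod_le_prod_of_subset_of_one_le' (Finset.range_subset_range.2 hab)
          intro i _ _
          have := hq i
          omega
        exact_mod_cast this
      have hnn₀ : n₀ < n := by
        by_contra h
        push Not at h
        have h1 := mul_le_mul_of_nonneg_right (hmono n n₀ h) h0.le
        linarith
      obtain ⟨m, hm⟩ : ∃ m, n = m + 1 := ⟨n - 1, by omega⟩
      have hm1 : (prodTo q m : ℝ) * r < 1 := by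
        have := hnmin m (by omega)
        push Not at this
        exact this
      refine (hb n).trans ?_
      rw [hUr, ENNReal.ofReal_rpow_of_pos h0]
      apply ENNReal.ofReal_le_ofReal
      have hg := hn₀ m (by omega)
      have hMn := hM n
      calc (2 * r * prodTo q n + 2) * (2 ^ n / prodTo q n)
          ≤ (2 * r * prodTo q n + 2 * (prodTo q n * r)) * (2 ^ n / prodTo q n) := by
            apply mul_le_mul_of_nonneg_right _ (by positivity)
            linarith
        _ = 8 * 2 ^ m * r := by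
            rw [hm, pow_succ]
            rw [hm] at hMn
            field_simp
            ring
        _ ≤ (prodTo q m : ℝ) ^ (1 - (s : ℝ)) * r := mul_le_mul_of_nonneg_right hg h0.le
        _ ≤ (1 / r) ^ (1 - (s : ℝ)) * r := by
            apply mul_le_mul_of_nonneg_right _ h0.le
            apply Real.rpow_le_rpow (hM m).le _ (by linarith)
            rw [le_div_iff₀ h0]
            exact hm1.le
        _ = r ^ (s : ℝ) := by
            rw [one_div, Real.inv_rpow h0.le, ← Real.rpow_neg h0.le]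
            nth_rewrite 2 [← Real.rpow_one r]
            rw [← Real.rpow_add h0]
            congr 1
            ring
  intro h
  have h1 := hle S
  rw [h] at h1
  have h2 : (1 : ℝ≥0∞) ≤ 0 := hν1.trans h1
  simp at h2

end

end Pool.Agent.R334.CN
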