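import Mathlib

/-!
# A strong law for the number of occurring events

If the events `A i`, `A j` are (negatively) uncorrelated for `j ≥ i + k` and the expected number of
occurring events is infinite then almost surely the number of occurring events among the first `n` is
asymptotic to its expectation.
-/

set_option autoImplicit false

namespace Pool.Agent.R334.CN

open MeasureTheory Filter Topology

variable {Ω : Type*} [MeasurableSpace Ω]

/-- The number of the `i < n` such that `A i` occurs. -/
noncomputable def cnt (A : ℕ → Set Ω) (n : ℕ) (ω : Ω) : ℝ :=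
  ∑ i ∈ Finset.range n, (A i).indicator (fun _ => (1 : ℝ)) ω

/-- The expected number of the `i < n` such that `A i` occurs. -/
noncomputable def mean (P : Measure Ω) (A : ℕ → Set Ω) (n : ℕ) : ℝ :=
  ∑ i ∈ Finset.range n, P.real (A i)

lemma cnt_mono (A : ℕ → Set Ω) (ω : Ω) {m n : ℕ} (h : m ≤ n) : cnt A m ω ≤ cnt A n ω := by
  unfold cnt
  apply Finset.sum_le_sum_of_subset_of_nonneg
  · exact Finset.range_subset_range.2 h
  · intro i _ _
    exact Set.indicator_nonneg (fun _ _ => zero_le_one) _

lemma cnt_nonneg (A : ℕ → Set Ω) (ω : Ω) (n : ℕ) : 0 ≤ cnt A n ω :=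
  Finset.sum_nonneg fun i _ => Set.indicator_nonneg (fun _ _ => zero_le_one) _

lemma mean_mono (P : Measure Ω) (A : ℕ → Set Ω) {m n : ℕ} (h : m ≤ n) : mean P A m ≤ mean P A n := by
  unfold mean
  apply Finset.sum_le_sum_of_subset_of_nonneg
  · exact Finset.range_subset_range.2 h
  · intro i _ _
    exact measureReal_nonneg

lemma integral_pair (P : Measure Ω) [IsProbabilityMeasure P] {A B : Set Ω} (hA : MeasurableSet A)
    (hB : MeasurableSet B) :
    ∫ ω, (A.indicator (fun _ => (1 : ℝ)) ω - P.real A) * (B.indicator (fun _ => (1 : ℝ)) ω - P.real B)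
      ∂P = P.real (A ∩ B) - P.real A * P.real B := by
  have hIA : Integrable (fun ω => A.indicator (fun _ => (1 : ℝ)) ω) P :=
    (integrable_const (1 : ℝ)).indicator hA
  have hIB : Integrable (fun ω => B.indicator (fun _ => (1 : ℝ)) ω) P :=
    (integrable_const (1 : ℝ)).indicator hB
  have hIAB : Integrable (fun ω => (A ∩ B).indicator (fun _ => (1 : ℝ)) ω) P :=
    (integrable_const (1 : ℝ)).indicator (hA.inter hB)
  have h1 : ∀ ω, (A.indicator (fun _ => (1 : ℝ)) ω - P.real A) *
      (B.indicator (fun _ => (1 : ℝ)) ω - P.real B) =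
      (A ∩ B).indicator (fun _ => (1 : ℝ)) ω - P.real B * A.indicator (fun _ => (1 : ℝ)) ω
        - P.real A * B.indicator (fun _ => (1 : ℝ)) ω + P.real A * P.real B := by
    intro ω
    by_cases ha : ω ∈ A <;> by_cases hb : ω ∈ B <;> simp [ha, hb] <;> ring
  simp_rw [h1]
  rw [integral_add, integral_sub, integral_sub, integral_const_mul, integral_const_mul,
    integral_indicator_const _ hA, integral_indicator_const _ hB,
    integral_indicator_const _ (hA.inter hB), integral_const]
  · simp
    ring
  · exact hIAB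
  · exact hIA.const_mul _
  · exact hIAB.sub (hIA.const_mul _)
  · exact hIB.const_mul _
  · exact (hIAB.sub (hIA.const_mul _)).sub (hIB.const_mul _)
  · exact integrable_const _

lemma second_moment (P : Measure Ω) [IsProbabilityMeasure P] (A : ℕ → Set Ω)
    (hA : ∀ i, MeasurableSet (A i)) (k : ℕ)
    (hind : ∀ i j, i + k ≤ j → P.real (A i ∩ A j) ≤ P.real (A i) * P.real (A j)) (n : ℕ) :
    ∫ ω, (cnt A n ω - mean P A n) ^ 2 ∂P ≤ 2 * k * mean P A n := by
  have h1 : ∀ ω, (cnt A n ω - mean P A n) ^ 2 = ∑ i ∈ Finset.range n, ∑ j ∈ Finset.range n,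
      ((A i).indicator (fun _ => (1 : ℝ)) ω - P.real (A i)) *
      ((A j).indicator (fun _ => (1 : ℝ)) ω - P.real (A j)) := by
    intro ω
    rw [sq, cnt, mean, ← Finset.sum_sub_distrib, Finset.sum_mul_sum]
  have hint : ∀ i j, Integrable (fun ω => ((A i).indicator (fun _ => (1 : ℝ)) ω - P.real (A i)) *
      ((A j).indicator (fun _ => (1 : ℝ)) ω - P.real (A j))) P := by
    intro i j
    have hI : ∀ i, Integrable (fun ω => ((A i).indicator (fun _ => (1 : ℝ)) ω - P.real (A i))) P :=
      fun i => ((integrable_const (1 : ℝ)).indicator (hA i)).sub (integrable_const _)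
    refine (hI j).bdd_mul (c := 1) (hI i).aestronglyMeasurable ?_
    filter_upwards with ω
    have h0 : 0 ≤ P.real (A i) := measureReal_nonneg
    have h2 : P.real (A i) ≤ 1 := measureReal_le_one
    by_cases ha : ω ∈ A i
    · simp only [ha, Set.indicator_of_mem, Real.norm_eq_abs, abs_le]
      constructor <;> linarith
    · simp only [ha, not_false_eq_true, Set.indicator_of_notMem, Real.norm_eq_abs, abs_le]
      constructor <;> linarith
  simp_rw [h1]
  rw [integral_finsetSum _ (fun i _ => integrable_finsetSum _ fun j _ => hint i j)]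
  simp_rw [fun i => integral_finsetSum (Finset.range n) (fun j _ => hint i j)]
  simp_rw [integral_pair P (hA _) (hA _)]
  rw [mean, Finset.mul_sum]
  apply Finset.sum_le_sum
  intro i _
  have h2 : ∀ j ∈ Finset.range n, P.real (A i ∩ A j) - P.real (A i) * P.real (A j) ≤
      if j ∈ Finset.Ico (i + 1 - k) (i + k) then P.real (A i) else 0 := by
    intro j _
    split_ifs with hj
    · have h3 : P.real (A i ∩ A j) ≤ P.real (A i) := measureReal_mono Set.inter_subset_left
      have h4 : 0 ≤ P.real (A i) * P.real (A j) := mul_nonneg measureReal_nonneg measureReal_nonneg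
      linarith
    · rw [Finset.mem_Ico] at hj
      rcases Nat.lt_or_ge j (i + k) with h | h
      · have h5 : j + k ≤ i := by omega
        have := hind j i h5
        rw [Set.inter_comm, mul_comm]
        linarith
      · have := hind i j h
        linarith
  refine (Finset.sum_le_sum h2).trans ?_
  rw [← Finset.sum_filter, Finset.sum_const, nsmul_eq_mul]
  apply mul_le_mul_of_nonneg_right _ measureReal_nonneg
  have h3 : (Finset.filter (fun j => j ∈ Finset.Ico (i + 1 - k) (i + k)) (Finset.range n)).card ≤ 2 * k := by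
    refine (Finset.card_le_card (t := Finset.Ico (i + 1 - k) (i + k)) ?_).trans ?_
    · intro j hj
      exact (Finset.mem_filter.1 hj).2
    · rw [Nat.card_Ico]
      omega
  exact_mod_cast h3

theorem strong_law (P : Measure Ω) [IsProbabilityMeasure P] (A : ℕ → Set Ω)
    (hA : ∀ i, MeasurableSet (A i)) (k : ℕ)
    (hind : ∀ i j, i + k ≤ j → P.real (A i ∩ A j) ≤ P.real (A i) * P.real (A j))
    (hdiv : Tendsto (mean P A) atTop atTop) :
    ∀ᵐ ω ∂P, Tendsto (fun n => cnt A n ω / mean P A n) atTop (𝓝 1) := by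
  classical
  have hex : ∀ r : ℕ, ∃ n, (r : ℝ) ^ 2 ≤ mean P A n := fun r => (hdiv.eventually_ge_atTop _).exists
  set N : ℕ → ℕ := fun r => Nat.find (hex r) with hN
  have hN1 : ∀ r : ℕ, (r : ℝ) ^ 2 ≤ mean P A (N r) := fun r => Nat.find_spec (hex r)
  have hNmin : ∀ r n : ℕ, (r : ℝ) ^ 2 ≤ mean P A n → N r ≤ n := fun r n h => Nat.find_min' (hex r) h
  have hstep : ∀ n, mean P A (n + 1) ≤ mean P A n + 1 := by
    intro n
    rw [mean, Finset.sum_range_succ, ← mean]
    have : P.real (A n) ≤ 1 := measureReal_le_one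
    linarith
  have hN2 : ∀ r, 1 ≤ r → mean P A (N r) ≤ (r : ℝ) ^ 2 + 1 := by
    intro r hr
    have h0 : N r ≠ 0 := by
      intro h
      have h1 := hN1 r
      rw [h] at h1
      simp only [mean, Finset.range_zero, Finset.sum_empty] at h1
      have : (1 : ℝ) ≤ r := by exact_mod_cast hr
      nlinarith
    obtain ⟨m, hm⟩ := Nat.exists_eq_succ_of_ne_zero h0
    have h1 : ¬ (r : ℝ) ^ 2 ≤ mean P A m := by
      intro h
      have := hNmin r m h
      omega
    rw [hm]
    have := hstep m
    push Not at h1
    simp only [Nat.succ_eq_add_one]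
    linarith
  -- almost sure convergence along `N`
  set g : ℕ → Ω → ℝ := fun r ω => (cnt A (N (r + 1)) ω / mean P A (N (r + 1)) - 1) ^ 2 with hg
  have hcm : ∀ n, Measurable (cnt A n) := by
    intro n
    unfold cnt
    exact Finset.measurable_sum _ fun i _ => measurable_const.indicator (hA i)
  have hgm : ∀ r, Measurable (g r) := fun r => (((hcm _).div_const _).sub_const _).pow_const _
  have hpos : ∀ r, 0 < mean P A (N (r + 1)) := by
    intro r
    refine lt_of_lt_of_le ?_ (hN1 (r + 1))
    positivity
  have hgI : ∀ r, ∫⁻ ω, ENNReal.ofReal (g r ω) ∂P ≤ ENNReal.ofReal (2 * k * (1 / ((r : ℝ) + 1) ^ 2)) := by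
    intro r
    have hgint : Integrable (g r) P := by
      refine Integrable.of_bound (C := (N (r + 1) / mean P A (N (r + 1)) + 1) ^ 2)
        (hgm r).aestronglyMeasurable ?_
      filter_upwards with ω
      rw [Real.norm_eq_abs, abs_of_nonneg (sq_nonneg _)]
      simp only [hg]
      rw [sq_le_sq, abs_le]
      have h0 : 0 ≤ cnt A (N (r + 1)) ω / mean P A (N (r + 1)) :=
        div_nonneg (cnt_nonneg _ _ _) (hpos r).le
      have h1 : cnt A (N (r + 1)) ω ≤ N (r + 1) := by
        unfold cnt
        calc ∑ i ∈ Finset.range (N (r + 1)), (A i).indicator (fun _ => (1 : ℝ)) ω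
            ≤ ∑ i ∈ Finset.range (N (r + 1)), (1 : ℝ) := by
              apply Finset.sum_le_sum
              intro i _
              exact Set.indicator_le_self' (fun _ _ => zero_le_one) _
          _ = N (r + 1) := by simp
      have h2 : cnt A (N (r + 1)) ω / mean P A (N (r + 1)) ≤ N (r + 1) / mean P A (N (r + 1)) :=
        div_le_div_of_nonneg_right h1 (hpos r).le
      have h3 : 0 ≤ (N (r + 1) : ℝ) / mean P A (N (r + 1)) + 1 := by
        have : 0 ≤ (N (r + 1) : ℝ) / mean P A (N (r + 1)) := div_nonneg (Nat.cast_nonneg _) (hpos r).le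
        linarith
      rw [abs_of_nonneg h3]
      constructor <;> linarith
    rw [← ofReal_integral_eq_lintegral_ofReal hgint (Eventually.of_forall fun ω => sq_nonneg _)]
    apply ENNReal.ofReal_le_ofReal
    have h1 : ∀ ω, g r ω = (mean P A (N (r + 1)) ^ 2)⁻¹ *
        (cnt A (N (r + 1)) ω - mean P A (N (r + 1))) ^ 2 := by
      intro ω
      have h5 := (hpos r).ne'
      simp only [hg]
      field_simp
    simp_rw [h1]
    rw [integral_const_mul]
    have h2 := second_moment P A hA k hind (N (r + 1))
    calc (mean P A (N (r + 1)) ^ 2)⁻¹ * ∫ ω, (cnt A (N (r + 1)) ω - mean P A (N (r + 1))) ^ 2 ∂P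
        ≤ (mean P A (N (r + 1)) ^ 2)⁻¹ * (2 * k * mean P A (N (r + 1))) :=
          mul_le_mul_of_nonneg_left h2 (by positivity)
      _ = 2 * k * (1 / mean P A (N (r + 1))) := by
          have := (hpos r).ne'
          field_simp
      _ ≤ 2 * k * (1 / ((r : ℝ) + 1) ^ 2) := by
          have h3 := hN1 (r + 1)
          push_cast at h3
          apply mul_le_mul_of_nonneg_left _ (by positivity)
          exact one_div_le_one_div_of_le (by positivity) h3
  have hsum : ∫⁻ ω, ∑' r, ENNReal.ofReal (g r ω) ∂P ≠ ⊤ := by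
    rw [lintegral_tsum (fun r => (hgm r).ennreal_ofReal.aemeasurable)]
    refine ne_top_of_le_ne_top ?_ (ENNReal.tsum_le_tsum hgI)
    have hs : Summable (fun r : ℕ => 2 * (k : ℝ) * (1 / ((r : ℝ) + 1) ^ 2)) := by
      apply Summable.mul_left
      have := (summable_nat_add_iff 1).2 (Real.summable_one_div_nat_pow.2 (by norm_num : 1 < 2))
      simpa using this
    rw [← ENNReal.ofReal_tsum_of_nonneg (fun r => by positivity) hs]
    exact ENNReal.ofReal_ne_top
  have hae := ae_lt_top' (AEMeasurable.ennreal_tsum fun r => (hgm r).ennreal_ofReal.aemeasurable) hsum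
  filter_upwards [hae] with ω hω
  have hg0 : Tendsto (fun r => g r ω) atTop (𝓝 0) := by
    have h1 := ENNReal.tendsto_atTop_zero_of_tsum_ne_top hω.ne
    have h2 := (ENNReal.tendsto_toReal ENNReal.zero_ne_top).comp h1
    refine h2.congr fun r => ?_
    simp only [Function.comp_apply]
    exact ENNReal.toReal_ofReal (sq_nonneg _)
  have hc1 : Tendsto (fun r => cnt A (N (r + 1)) ω / mean P A (N (r + 1))) atTop (𝓝 1) := by
    have h1 : Tendsto (fun r => Real.sqrt (g r ω)) atTop (𝓝 0) := by
      have := (Real.continuous_sqrt.tendsto 0).comp hg0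
      simpa [Function.comp_def] using this
    have h2 : Tendsto (fun r => |cnt A (N (r + 1)) ω / mean P A (N (r + 1)) - 1|) atTop (𝓝 0) := by
      refine h1.congr fun r => ?_
      simp only [hg]
      exact Real.sqrt_sq_eq_abs _
    have h3 := (tendsto_zero_iff_abs_tendsto_zero _).2 h2
    have h4 := h3.add_const 1
    simpa using h4
  have hc : Tendsto (fun r => cnt A (N r) ω / mean P A (N r)) atTop (𝓝 1) :=
    (tendsto_add_atTop_iff_nat 1).1 hc1
  -- interpolation
  set R : ℕ → ℕ := fun n => ⌊Real.sqrt (mean P A n)⌋₊ with hR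
  have hRinf : Tendsto R atTop atTop := by
    apply tendsto_nat_floor_atTop.comp
    exact Real.tendsto_sqrt_atTop.comp hdiv
  have hmean0 : ∀ n, 0 ≤ mean P A n := fun n => Finset.sum_nonneg fun i _ => measureReal_nonneg
  have hR1 : ∀ n, (R n : ℝ) ^ 2 ≤ mean P A n := by
    intro n
    have h1 : (R n : ℝ) ≤ Real.sqrt (mean P A n) := Nat.floor_le (Real.sqrt_nonneg _)
    calc (R n : ℝ) ^ 2 ≤ Real.sqrt (mean P A n) ^ 2 := by gcongr
      _ = mean P A n := Real.sq_sqrt (hmean0 n)
  have hR2 : ∀ n, mean P A n < ((R n : ℝ) + 1) ^ 2 := by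
    intro n
    have h1 : Real.sqrt (mean P A n) < (R n : ℝ) + 1 := Nat.lt_floor_add_one _
    calc mean P A n = Real.sqrt (mean P A n) ^ 2 := (Real.sq_sqrt (hmean0 n)).symm
      _ < ((R n : ℝ) + 1) ^ 2 := by
        apply pow_lt_pow_left₀ h1 (Real.sqrt_nonneg _) (by norm_num)
  have hlow : ∀ n, cnt A (N (R n)) ω ≤ cnt A n ω := fun n => cnt_mono A ω (hNmin _ _ (hR1 n))
  have hup : ∀ n, cnt A n ω ≤ cnt A (N (R n + 1)) ω := by
    intro n
    apply cnt_mono
    by_contra h
    push Not at h
    have h1 := mean_mono P A h.le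
    have h2 := hN1 (R n + 1)
    push_cast at h2
    linarith [hR2 n]
  have hfr : ∀ c : ℝ, Tendsto (fun r : ℕ => (c : ℝ) / ((r : ℝ))) atTop (𝓝 0) := fun c =>
    tendsto_const_div_atTop_nhds_zero_nat c
  -- lower comparison
  have hL : Tendsto (fun r : ℕ => cnt A (N r) ω / ((r : ℝ) + 1) ^ 2) atTop (𝓝 1) := by
    have h1 : Tendsto (fun r : ℕ => mean P A (N r) / ((r : ℝ) + 1) ^ 2) atTop (𝓝 1) := by
      have ha : Tendsto (fun r : ℕ => (r : ℝ) ^ 2 / ((r : ℝ) + 1) ^ 2) atTop (𝓝 1) := by
        have := (tendsto_natCast_div_add_atTop (1 : ℝ)).pow 2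
        simpa [div_pow] using this
      have hb : Tendsto (fun r : ℕ => ((r : ℝ) ^ 2 + 1) / ((r : ℝ) + 1) ^ 2) atTop (𝓝 1) := by
        have h2 : Tendsto (fun r : ℕ => 1 / ((r : ℝ) + 1) ^ 2) atTop (𝓝 0) := by
          have := (tendsto_one_div_add_atTop_nhds_zero_nat (𝕜 := ℝ)).pow 2
          simpa [div_pow] using this
        have := ha.add h2
        simpa [add_div] using this
      refine tendsto_of_tendsto_of_tendsto_of_le_of_le' ha hb ?_ ?_
      · exact Eventually.of_forall fun r => div_le_div_of_nonneg_right (hN1 r) (by positivity)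
      · filter_upwards [eventually_ge_atTop 1] with r hr
        exact div_le_div_of_nonneg_right (hN2 r hr) (by positivity)
    have h2 := hc.mul h1
    rw [one_mul] at h2
    refine h2.congr' ?_
    filter_upwards [eventually_ge_atTop 1] with r hr
    have h3 : 0 < mean P A (N r) := by
      refine lt_of_lt_of_le ?_ (hN1 r)
      have : (1 : ℝ) ≤ r := by exact_mod_cast hr
      positivity
    field_simp
  have hU : Tendsto (fun r : ℕ => cnt A (N (r + 1)) ω / (r : ℝ) ^ 2) atTop (𝓝 1) := by
    have h1 : Tendsto (fun r : ℕ => mean P A (N (r + 1)) / (r : ℝ) ^ 2) atTop (𝓝 1) := by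
      have ha : Tendsto (fun r : ℕ => ((r : ℝ) + 1) ^ 2 / (r : ℝ) ^ 2) atTop (𝓝 1) := by
        have h2 : Tendsto (fun r : ℕ => (1 + 1 / (r : ℝ)) ^ 2) atTop (𝓝 1) := by
          have := ((hfr 1).const_add 1).pow 2
          simpa using this
        refine h2.congr' ?_
        filter_upwards [eventually_ge_atTop 1] with r hr
        have : (0 : ℝ) < r := by exact_mod_cast hr
        field_simp
      have hb : Tendsto (fun r : ℕ => (((r : ℝ) + 1) ^ 2 + 1) / (r : ℝ) ^ 2) atTop (𝓝 1) := by
        have h2 : Tendsto (fun r : ℕ => 1 / (r : ℝ) ^ 2) atTop (𝓝 0) := by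
          have := (hfr 1).pow 2
          simpa [div_pow] using this
        have := ha.add h2
        simpa [add_div] using this
      refine tendsto_of_tendsto_of_tendsto_of_le_of_le' ha hb ?_ ?_
      · refine Eventually.of_forall fun r => div_le_div_of_nonneg_right ?_ (by positivity)
        have := hN1 (r + 1)
        push_cast at this
        exact this
      · refine Eventually.of_forall fun r => div_le_div_of_nonneg_right ?_ (by positivity)
        have := hN2 (r + 1) (by omega)
        push_cast at this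
        exact this
    have h2 := hc1.mul h1
    rw [one_mul] at h2
    refine h2.congr' ?_
    filter_upwards [eventually_ge_atTop 1] with r hr
    have h3 : 0 < mean P A (N (r + 1)) := hpos r
    have h4 : (0 : ℝ) < r := by exact_mod_cast hr
    field_simp
  refine tendsto_of_tendsto_of_tendsto_of_le_of_le' (hL.comp hRinf) (hU.comp hRinf) ?_ ?_
  · filter_upwards [hdiv.eventually_gt_atTop 0] with n hn
    simp only [Function.comp_apply]
    exact div_le_div₀ (cnt_nonneg _ _ _) (hlow n) hn (hR2 n).le
  · filter_upwards [hdiv.eventually_gt_atTop 0, hRinf.eventually_ge_atTop 1] with n hn hr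
    simp only [Function.comp_apply]
    have h4 : (0 : ℝ) < R n := by exact_mod_cast hr
    exact div_le_div₀ (cnt_nonneg _ _ _) (hup n) (by positivity) (hR1 n)

end Pool.Agent.R334.CN
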