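import Pool.Agent.R334.CNDim

/-!
# Moving the large digits
-/

set_option autoImplicit false

namespace Pool.Agent.R334.CN

open MeasureTheory Filter Topology

lemma num_congr {e f : ℕ → ℕ} {k : ℕ} {B : Fin k → ℕ} {i₀ : ℕ}
    (h : ∀ i, i₀ ≤ i → (occ f B i ↔ occ e B i)) {w : ℕ → ℝ} (hw : Tendsto w atTop atTop) {l : ℝ}
    (he : Tendsto (fun n => num e B n / w n) atTop (𝓝 l)) :
    Tendsto (fun n => num f B n / w n) atTop (𝓝 l) := by
  classical
  refine tendsto_ratio (i₀ := i₀) (fun i hi => ?_) hw he
  simp only [h i hi]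

/-- The set of sequences of digits which are normal of all orders. -/
def Good (q : ℕ → ℕ) : Set (ℕ → ℕ) := {e | (∀ n, e n < q n) ∧
  ∀ k, 1 ≤ k → ∀ B : Fin k → ℕ, Tendsto (fun n => num e B n / weight q k n) atTop (𝓝 1)}

lemma ae_good {q : ℕ → ℕ} (hq : Basic q) (hinf : Tendsto q atTop atTop) (hdiv : FullyDivergent q) :
    ∀ᵐ e ∂PP q, e ∈ Good q := by
  have h1 : ∀ᵐ e ∂PP q, ∀ k, 1 ≤ k → ∀ B : Fin k → ℕ,
      Tendsto (fun n => num e B n / weight q k n) atTop (𝓝 1) := by
    rw [ae_all_iff]
    intro k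
    by_cases hk : 1 ≤ k
    · have h2 : ∀ᵐ e ∂PP q, ∀ B : Fin k → ℕ,
          Tendsto (fun n => num e B n / weight q k n) atTop (𝓝 1) := by
        rw [ae_all_iff]
        exact fun B => ae_normal hq hinf (hdiv k hk) B
      filter_upwards [h2] with e he _
      exact he
    · filter_upwards with e h
      exact absurd h hk
  filter_upwards [ae_lt hq, h1] with e h2 h3
  exact ⟨h2, h3⟩

/-- The digit `d` is moved out of the upper quarter. -/
def mv (q d : ℕ) : ℕ := if 3 * q ≤ 4 * d then d - (q / 4 + 1) else d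

lemma mv_mem {q d : ℕ} (hq : 2 ≤ q) : d ∈ ({mv q d, mv q d + (q / 4 + 1)} : Finset ℕ) := by
  rw [Finset.mem_insert, Finset.mem_singleton]
  unfold mv
  split_ifs with h
  · right
    omega
  · left
    rfl

lemma mv_lt {q d : ℕ} (hd : d < q) : 4 * mv q d < 3 * q := by
  unfold mv
  split_ifs with h
  · omega
  · omega

lemma mv_iff {q d b : ℕ} (hb : 2 * b + 4 ≤ q) : mv q d = b ↔ d = b := by
  unfold mv
  split_ifs with h
  · omega
  · exact Iff.rfl

theorem dim_A {q : ℕ → ℕ} (hq : Basic q) (hinf : Tendsto q atTop atTop) (hdiv : FullyDivergent q) :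
    dimH {x : ℝ | (∀ k, 1 ≤ k → NormalOfOrder q k x) ∧ ¬ DistNormal q x} = 1 := by
  classical
  apply le_antisymm
  · exact (dimH_mono (Set.subset_univ _)).trans Real.dimH_univ.le
  have hq8 : ∀ᶠ n in atTop, 8 ≤ q n := hinf.eventually_ge_atTop 8
  have hG1 : ∀ e ∈ Good q, (∀ n, mv (q n) (e n) < q n) ∧
      ∃ᶠ n in atTop, mv (q n) (e n) + 2 ≤ q n := by
    intro e he
    refine ⟨fun n => ?_, Eventually.frequently ?_⟩
    · have := mv_lt (he.1 n)
      omega
    · filter_upwards [hq8] with n hn
      have := mv_lt (he.1 n)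
      omega
  refine one_le_dimH (fun e n => mv (q n) (e n)) (fun n d => {d, d + (q n / 4 + 1)}) (Good q) hq hinf
    ?_ ?_ ?_ (ae_good hq hinf hdiv) hG1 _ ?_
  · exact measurable_pi_lambda _ fun n => (measurable_from_nat (f := mv (q n))).comp
      (measurable_pi_apply n)
  · exact fun n d => Finset.card_le_two
  · exact fun e n => mv_mem (hq n)
  · intro e he
    obtain ⟨h1, h2⟩ := hG1 e he
    refine ⟨fun k hk B => ?_, fun hD => ?_⟩
    · simp_rw [count_eq hq h1 h2 B]
      obtain ⟨i₀, hi₀⟩ := eventually_atTop.1 (hinf.eventually_ge_atTop (2 * (∑ j, B j) + 4))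
      refine num_congr (i₀ := i₀) (fun i hi => ?_) (hdiv k hk) (he.2 k hk B)
      refine forall_congr' fun j => ?_
      apply mv_iff
      have h3 : B j ≤ ∑ j, B j := Finset.single_le_sum (f := B) (fun _ _ => Nat.zero_le _)
        (Finset.mem_univ j)
      have h4 := hi₀ (i + j) (by omega)
      omega
    · obtain ⟨i₁, hi₁⟩ := eventually_atTop.1 hq8
      have h3 := hD (7 / 8) 1 (by norm_num) (by norm_num) le_rfl
      have h4 : ∀ n, i₁ ≤ n → tail q (fun n => mv (q n) (e n)) n < 7 / 8 := by
        intro n hn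
        rw [tail_rec hq h1]
        have h5 : (8 : ℝ) ≤ q n := by exact_mod_cast hi₁ n hn
        have h6 : 4 * (mv (q n) (e n) : ℝ) + 1 ≤ 3 * q n := by
          have := mv_lt (he.1 n)
          exact_mod_cast this
        have h7 := tail_lt_one hq h1 h2 (n + 1)
        rw [div_lt_iff₀ (by linarith)]
        linarith
      have h5 : Tendsto (fun N : ℕ => (((Finset.range N).filter
          (fun n => Int.fract ((prodTo q n : ℝ) * val q (fun n => mv (q n) (e n))) ∈
            Set.Ico (7 / 8 : ℝ) 1)).card : ℝ) / N) atTop (𝓝 0) := by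
        refine squeeze_zero' (g := fun N : ℕ => (i₁ : ℝ) / N)
          (Eventually.of_forall fun N => by positivity) (Eventually.of_forall fun N => ?_)
          (tendsto_const_div_atTop_nhds_zero_nat _)
        apply div_le_div_of_nonneg_right _ (Nat.cast_nonneg _)
        have h6 : ((Finset.range N).filter
          (fun n => Int.fract ((prodTo q n : ℝ) * val q (fun n => mv (q n) (e n))) ∈
            Set.Ico (7 / 8 : ℝ) 1)).card ≤ i₁ := by
          rw [← Finset.card_range i₁]
          apply Finset.card_le_card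
          intro n hn
          rw [Finset.mem_filter, fract_val hq h1 h2] at hn
          rw [Finset.mem_range]
          by_contra h7
          push Not at h7
          have := h4 n h7
          have h8 := hn.2.1
          linarith
        exact_mod_cast h6
      have h6 := tendsto_nhds_unique h3 h5
      norm_num at h6

end Pool.Agent.R334.CN
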