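import Pool.Agent.R334.CNMapA

/-!
# Changing the short runs of small digits
-/

set_option autoImplicit false

namespace Pool.Agent.R334.CN

open MeasureTheory Filter Topology
open scoped ENNReal

/-- The position `n` belongs to `ℓ` consecutive positions with small digits. -/
def Long (q : ℕ → ℕ) (l : ℕ) (e : ℕ → ℕ) (n : ℕ) : Prop :=
  ∃ a ∈ Finset.Icc (n + 1 - l) n, ∀ t ∈ Finset.Ico a (a + l), e t < Nat.sqrt (q t)

open Classical in
/-- Zeros in short runs of small digits are replaced by ones. -/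
noncomputable def sh (q : ℕ → ℕ) (l : ℕ) (e : ℕ → ℕ) (n : ℕ) : ℕ :=
  if e n = 0 ∧ ¬ Long q l e n then 1 else e n

lemma measurable_sh (q : ℕ → ℕ) (l : ℕ) : Measurable (sh q l) := by
  classical
  refine measurable_pi_lambda _ fun n => ?_
  unfold sh
  refine Measurable.ite ?_ measurable_const (measurable_pi_apply n)
  have h1 : MeasurableSet {e : ℕ → ℕ | Long q l e n} := by
    have h2 : {e : ℕ → ℕ | Long q l e n} = ⋃ a ∈ Finset.Icc (n + 1 - l) n,
        ev (Finset.Ico a (a + l)) (fun t => {x | x < Nat.sqrt (q t)}) := by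
      ext e
      simp [Long, ev]
    rw [h2]
    exact Finset.measurableSet_biUnion _ fun a _ => measurableSet_ev _ _
  have h3 : MeasurableSet {e : ℕ → ℕ | e n = 0} := by
    have h4 : MeasurableSet ((fun e : ℕ → ℕ => e n) ⁻¹' {0}) :=
      measurable_pi_apply n MeasurableSet.of_discrete
    exact h4
  exact h3.inter h1.compl

lemma sh_mem (q : ℕ → ℕ) (l : ℕ) (e : ℕ → ℕ) (n : ℕ) : e n ∈ ({sh q l e n, 0} : Finset ℕ) := by
  rw [Finset.mem_insert, Finset.mem_singleton]
  unfold sh
  split_ifs with h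
  · exact Or.inr h.1
  · exact Or.inl rfl

lemma sh_eq_of_long {q : ℕ → ℕ} {l : ℕ} {e : ℕ → ℕ} {n : ℕ} (h : Long q l e n) :
    sh q l e n = e n := by
  unfold sh
  rw [if_neg]
  exact fun h2 => h2.2 h

lemma long_of_small {q : ℕ → ℕ} {l k : ℕ} (hl : 1 ≤ l) (hk : l ≤ k) {e : ℕ → ℕ} {i : ℕ}
    (h : ∀ j : Fin k, e (i + j) < Nat.sqrt (q (i + j))) (j : Fin k) : Long q l e (i + j) := by
  refine ⟨min (i + j) (i + k - l), ?_, ?_⟩
  · rw [Finset.mem_Icc]
    have := j.2
    omega
  · intro t ht
    rw [Finset.mem_Ico] at ht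
    have h1 := h ⟨t - i, by omega⟩
    have h2 : i + (t - i) = t := by omega
    simp only [h2] at h1
    exact h1

lemma occ_sh {q : ℕ → ℕ} {l k : ℕ} (hl : 1 ≤ l) (hk : l ≤ k) (e : ℕ → ℕ) (B : Fin k → ℕ) (i : ℕ)
    (hB : ∀ j : Fin k, B j < Nat.sqrt (q (i + j))) : occ (sh q l e) B i ↔ occ e B i := by
  constructor
  · intro h
    have h1 : ∀ j : Fin k, e (i + j) < Nat.sqrt (q (i + j)) := by
      intro j
      have h2 := h j
      have h3 := sh_mem q l e (i + j)
      rw [Finset.mem_insert, Finset.mem_singleton] at h3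
      rcases h3 with h3 | h3
      · rw [h3, h2]
        exact hB j
      · rw [h3]
        exact lt_of_le_of_lt (Nat.zero_le _) (hB j)
    intro j
    rw [← h j]
    exact (sh_eq_of_long (long_of_small hl hk h1 j)).symm
  · intro h
    have h1 : ∀ j : Fin k, e (i + j) < Nat.sqrt (q (i + j)) := fun j => by
      rw [h j]
      exact hB j
    intro j
    rw [sh_eq_of_long (long_of_small hl hk h1 j), h j]

/-- The event that the block `0 ⋯ 0` of length `j` occurs at `i` next to a small digit. -/
def wv (q : ℕ → ℕ) (j i : ℕ) : Set (ℕ → ℕ) :=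
  (bev (fun _ : Fin j => 0) i ∩ ev {i + j} (fun s => {x | x < Nat.sqrt (q s)})) ∪
    (if 1 ≤ i then bev (fun _ : Fin j => 0) i ∩ ev {i - 1} (fun s => {x | x < Nat.sqrt (q s)}) else ∅)

lemma occ_sh_zero {q : ℕ → ℕ} {l j : ℕ} (hj : 1 ≤ j) (hl : j < l) (e : ℕ → ℕ) (i : ℕ)
    (h : occ (sh q l e) (fun _ : Fin j => 0) i) : e ∈ wv q j i := by
  have h0 : ∀ t : Fin j, e (i + t) = 0 ∧ Long q l e (i + t) := by
    intro t
    have h1 := h t
    unfold sh at h1
    split_ifs at h1 with h2
    refine ⟨h1, ?_⟩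
    by_contra h3
    exact h2 ⟨h1, h3⟩
  obtain ⟨a, ha, hs⟩ := (h0 ⟨0, by omega⟩).2
  simp only [add_zero, Finset.mem_Icc] at ha
  have hocc : e ∈ bev (fun _ : Fin j => 0) i := fun t => (h0 t).1
  rcases eq_or_lt_of_le ha.2 with h4 | h4
  · left
    refine ⟨hocc, ?_⟩
    intro s hs'
    rw [Finset.mem_singleton] at hs'
    subst hs'
    apply hs
    rw [Finset.mem_Ico]
    omega
  · right
    rw [if_pos (by omega)]
    refine ⟨hocc, ?_⟩
    intro s hs'
    rw [Finset.mem_singleton] at hs'
    subst hs'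
    apply hs
    rw [Finset.mem_Ico]
    omega

lemma real_small {q : ℕ → ℕ} (hq : Basic q) (s : ℕ) :
    (PP q).real (ev {s} (fun s => {x | x < Nat.sqrt (q s)})) ≤ (Nat.sqrt (q s) : ℝ) / q s := by
  classical
  rw [PP_real_ev, Finset.prod_singleton, unif_real (by have := hq s; omega)]
  apply div_le_div_of_nonneg_right _ (Nat.cast_nonneg _)
  have h : ((Finset.range (q s)).filter (· ∈ {x | x < Nat.sqrt (q s)})).card ≤ Nat.sqrt (q s) := by
    calc ((Finset.range (q s)).filter (· ∈ {x | x < Nat.sqrt (q s)})).card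
        ≤ (Finset.range (Nat.sqrt (q s))).card := by
          apply Finset.card_le_card
          intro x hx
          rw [Finset.mem_filter] at hx
          exact Finset.mem_range.2 hx.2
      _ = Nat.sqrt (q s) := Finset.card_range _
  exact_mod_cast h

/-- The bound for the conditional probability of a small neighbour. -/
noncomputable def dl (q : ℕ → ℕ) (j i : ℕ) : ℝ :=
  (Nat.sqrt (q (i + j)) : ℝ) / q (i + j) + (Nat.sqrt (q (i - 1)) : ℝ) / q (i - 1)

lemma real_wv {q : ℕ → ℕ} (hq : Basic q) (j i : ℕ) :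
    (PP q).real (wv q j i) ≤ (∏ t ∈ Finset.range j, (q (i + t) : ℝ))⁻¹ * dl q j i := by
  have hb : (PP q).real (bev (fun _ : Fin j => 0) i) = (∏ t ∈ Finset.range j, (q (i + t) : ℝ))⁻¹ :=
    real_bev hq _ i fun t => by have := hq (i + t); omega
  have h0 : (0 : ℝ) ≤ (∏ t ∈ Finset.range j, (q (i + t) : ℝ))⁻¹ := by positivity
  unfold wv dl
  refine (measureReal_union_le _ _).trans ?_
  rw [mul_add]
  apply add_le_add
  · rw [bev_eq, PP_real_inter, ← bev_eq, hb]
    · exact mul_le_mul_of_nonneg_left (real_small hq _) h0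
    · rw [Finset.disjoint_singleton_right, Finset.mem_Ico]
      omega
  · split_ifs with hi
    · rw [bev_eq, PP_real_inter, ← bev_eq, hb]
      · exact mul_le_mul_of_nonneg_left (real_small hq _) h0
      · rw [Finset.disjoint_singleton_right, Finset.mem_Ico]
        omega
    · simp only [measureReal_empty]
      positivity

lemma tendsto_sqrt_div : Tendsto (fun n : ℕ => (Nat.sqrt n : ℝ) / n) atTop (𝓝 0) := by
  have h1 : Tendsto (fun n : ℕ => 1 / Real.sqrt n) atTop (𝓝 0) := by
    have := (Real.tendsto_sqrt_atTop.comp tendsto_natCast_atTop_atTop).const_div_atTop (1 : ℝ)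
    exact this
  refine squeeze_zero' (Eventually.of_forall fun n => by positivity) ?_ h1
  filter_upwards [eventually_ge_atTop 1] with n hn
  have h2 : (0 : ℝ) < n := by exact_mod_cast hn
  have h3 : (Nat.sqrt n : ℝ) ≤ Real.sqrt n := Real.nat_sqrt_le_real_sqrt
  have h4 : 0 < Real.sqrt n := Real.sqrt_pos.2 h2
  rw [div_le_div_iff₀ h2 h4]
  calc (Nat.sqrt n : ℝ) * Real.sqrt n ≤ Real.sqrt n * Real.sqrt n :=
        mul_le_mul_of_nonneg_right h3 h4.le
    _ = 1 * n := by rw [Real.mul_self_sqrt h2.le, one_mul]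

lemma tendsto_dl {q : ℕ → ℕ} (hinf : Tendsto q atTop atTop) (j : ℕ) :
    Tendsto (dl q j) atTop (𝓝 0) := by
  have h1 : Tendsto (fun i => q (i + j)) atTop atTop := hinf.comp (tendsto_add_atTop_nat j)
  have h2 : Tendsto (fun i => q (i - 1)) atTop atTop := hinf.comp (tendsto_sub_atTop_nat 1)
  have h3 := (tendsto_sqrt_div.comp h1).add (tendsto_sqrt_div.comp h2)
  rw [add_zero] at h3
  exact h3

lemma measurableSet_wv (q : ℕ → ℕ) (j i : ℕ) : MeasurableSet (wv q j i) := by
  unfold wv
  have hb : MeasurableSet (bev (fun _ : Fin j => 0) i) := by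
    rw [bev_eq]
    exact measurableSet_ev _ _
  apply MeasurableSet.union
  · exact hb.inter (measurableSet_ev _ _)
  · split_ifs
    · exact hb.inter (measurableSet_ev _ _)
    · exact MeasurableSet.empty

lemma ae_rare {q : ℕ → ℕ} (hq : Basic q) (hinf : Tendsto q atTop atTop) (j : ℕ)
    (hdiv : Tendsto (weight q j) atTop atTop) :
    ∀ᵐ e ∂PP q, liminf (fun n => ENNReal.ofReal (cnt (wv q j) n e / weight q j n)) atTop = 0 := by
  have hcm : ∀ n, Measurable (cnt (wv q j) n) := by
    intro n
    unfold cnt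
    exact Finset.measurable_sum _ fun i _ => measurable_const.indicator (measurableSet_wv q j i)
  have hm : ∀ n, Measurable (fun e => ENNReal.ofReal (cnt (wv q j) n e / weight q j n)) :=
    fun n => ((hcm n).div_const _).ennreal_ofReal
  have hw0 : ∀ n, 0 ≤ weight q j n := fun n => Finset.sum_nonneg fun i _ => by positivity
  have hint : ∀ n, ∫⁻ e, ENNReal.ofReal (cnt (wv q j) n e / weight q j n) ∂PP q =
      ENNReal.ofReal (mean (PP q) (wv q j) n / weight q j n) := by
    intro n
    have hI : ∀ i, Integrable (fun e => (wv q j i).indicator (fun _ => (1 : ℝ)) e) (PP q) :=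
      fun i => (integrable_const (1 : ℝ)).indicator (measurableSet_wv q j i)
    have hI2 : Integrable (cnt (wv q j) n) (PP q) := integrable_finsetSum _ fun i _ => hI i
    rw [← ofReal_integral_eq_lintegral_ofReal (hI2.div_const _)
      (Eventually.of_forall fun e => div_nonneg (cnt_nonneg _ _ _) (hw0 n))]
    congr 1
    rw [integral_div]
    congr 1
    unfold cnt mean
    rw [integral_finsetSum _ fun i _ => hI i]
    refine Finset.sum_congr rfl fun i _ => ?_
    rw [integral_indicator_const _ (measurableSet_wv q j i)]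
    simp
  have hlim : Tendsto (fun n => ENNReal.ofReal (mean (PP q) (wv q j) n / weight q j n)) atTop (𝓝 0) := by
    have h1 : (fun i => (∏ t ∈ Finset.range j, (q (i + t) : ℝ))⁻¹ * dl q j i) =o[atTop]
        (fun i => (∏ t ∈ Finset.range j, (q (i + t) : ℝ))⁻¹) := by
      have h2 : dl q j =o[atTop] (fun _ => (1 : ℝ)) :=
        (Asymptotics.isLittleO_one_iff ℝ).2 (tendsto_dl hinf j)
      have h3 := (Asymptotics.isBigO_refl (fun i => (∏ t ∈ Finset.range j, (q (i + t) : ℝ))⁻¹)
        atTop).mul_isLittleO h2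
      simpa using h3
    have h4 := h1.sum_range (fun i => by positivity) hdiv
    have h5 : Tendsto (fun n => (∑ i ∈ Finset.range n,
        (∏ t ∈ Finset.range j, (q (i + t) : ℝ))⁻¹ * dl q j i) / weight q j n) atTop (𝓝 0) :=
      h4.tendsto_div_nhds_zero
    have h6 : Tendsto (fun n => mean (PP q) (wv q j) n / weight q j n) atTop (𝓝 0) := by
      refine squeeze_zero (fun n => div_nonneg (Finset.sum_nonneg fun i _ => measureReal_nonneg)
        (hw0 n)) (fun n => ?_) h5
      apply div_le_div_of_nonneg_right _ (hw0 n)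
      exact Finset.sum_le_sum fun i _ => real_wv hq j i
    have := ENNReal.tendsto_ofReal h6
    simpa using this
  have hF := lintegral_liminf_le hm (μ := PP q) (u := atTop)
  simp_rw [hint] at hF
  rw [hlim.liminf_eq] at hF
  have h0 : ∫⁻ e, liminf (fun n => ENNReal.ofReal (cnt (wv q j) n e / weight q j n)) atTop ∂PP q = 0 :=
    le_antisymm hF zero_le
  rw [lintegral_eq_zero_iff (Measurable.liminf hm)] at h0
  filter_upwards [h0] with e he
  exact he

theorem dim_B {q : ℕ → ℕ} (hq : Basic q) (hinf : Tendsto q atTop atTop) (hdiv : FullyDivergent q)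
    {l : ℕ} (hl : 1 ≤ l) :
    dimH {x : ℝ | (∀ k, l ≤ k → NormalOfOrder q k x) ∧
      ∀ j, 1 ≤ j → j < l → ¬ NormalOfOrder q j x} = 1 := by
  classical
  apply le_antisymm
  · exact (dimH_mono (Set.subset_univ _)).trans Real.dimH_univ.le
  set G : Set (ℕ → ℕ) := {e | e ∈ Good q ∧ ∀ j, 1 ≤ j →
    liminf (fun n => ENNReal.ofReal (cnt (wv q j) n e / weight q j n)) atTop = 0} with hGdef
  have hG : ∀ᵐ e ∂PP q, e ∈ G := by
    have h1 : ∀ᵐ e ∂PP q, ∀ j, 1 ≤ j →
        liminf (fun n => ENNReal.ofReal (cnt (wv q j) n e / weight q j n)) atTop = 0 := by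
      rw [ae_all_iff]
      intro j
      by_cases hj : 1 ≤ j
      · filter_upwards [ae_rare hq hinf j (hdiv j hj)] with e he _
        exact he
      · filter_upwards with e h
        exact absurd h hj
    filter_upwards [ae_good hq hinf hdiv, h1] with e h2 h3
    exact ⟨h2, h3⟩
  have hG1 : ∀ e ∈ G, (∀ n, sh q l e n < q n) ∧ ∃ᶠ n in atTop, sh q l e n + 2 ≤ q n := by
    intro e he
    refine ⟨fun n => ?_, ?_⟩
    · unfold sh
      split_ifs
      · have := hq n
        omega
      · exact he.1.1 n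
    · have h1 : ∃ᶠ n in atTop, e n = 0 := by
        intro h
        have h2 := he.1.2 1 le_rfl (fun _ => 0)
        obtain ⟨i₀, hi₀⟩ := eventually_atTop.1 h
        have h3 : Tendsto (fun n => num e (fun _ : Fin 1 => 0) n / weight q 1 n) atTop (𝓝 0) := by
          refine tendsto_ratio (g := fun _ => 0) (i₀ := i₀) (fun i hi => ?_) (hdiv 1 le_rfl) (by simp)
          rw [if_neg]
          intro h4
          exact hi₀ i hi (h4 0)
        have := tendsto_nhds_unique h2 h3
        norm_num at this
      refine (h1.and_eventually (hinf.eventually_ge_atTop 3)).mono ?_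
      rintro n ⟨h2, h3⟩
      unfold sh
      split_ifs
      · omega
      · omega
  refine one_le_dimH (sh q l) (fun n d => {d, 0}) G hq hinf (measurable_sh q l)
    (fun n d => Finset.card_le_two) (fun e n => sh_mem q l e n) hG hG1 _ ?_
  intro e he
  obtain ⟨h1, h2⟩ := hG1 e he
  refine ⟨fun k hk B => ?_, fun j hj hjl hN => ?_⟩
  · simp_rw [count_eq hq h1 h2 B]
    have hs0 : Tendsto Nat.sqrt atTop atTop := by
      rw [tendsto_atTop]
      intro b
      filter_upwards [eventually_ge_atTop (b * b)] with n hn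
      exact Nat.le_sqrt.2 hn
    have hs : Tendsto (fun n => Nat.sqrt (q n)) atTop atTop := hs0.comp hinf
    obtain ⟨i₀, hi₀⟩ := eventually_atTop.1 (hs.eventually_gt_atTop (∑ j, B j))
    refine num_congr (i₀ := i₀) (fun i hi => ?_) (hdiv k (hl.trans hk)) (he.1.2 k (hl.trans hk) B)
    apply occ_sh hl hk
    intro j
    exact lt_of_le_of_lt (Finset.single_le_sum (f := B) (fun _ _ => Nat.zero_le _)
      (Finset.mem_univ j)) (hi₀ (i + j) (by omega))
  · have h3 := hN (fun _ => 0)
    simp_rw [count_eq hq h1 h2] at h3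
    have h4 : Tendsto (fun n => ENNReal.ofReal (num (sh q l e) (fun _ : Fin j => 0) n / weight q j n))
        atTop (𝓝 1) := by
      have := ENNReal.tendsto_ofReal h3
      simpa using this
    have h5 : liminf (fun n => ENNReal.ofReal (num (sh q l e) (fun _ : Fin j => 0) n / weight q j n))
        atTop ≤ liminf (fun n => ENNReal.ofReal (cnt (wv q j) n e / weight q j n)) atTop := by
      refine liminf_le_liminf (Eventually.of_forall fun n => ?_)
      apply ENNReal.ofReal_le_ofReal
      apply div_le_div_of_nonneg_right _ (Finset.sum_nonneg fun i _ => by positivity)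
      unfold num cnt
      apply Finset.sum_le_sum
      intro i _
      split_ifs with h6
      · rw [Set.indicator_of_mem (occ_sh_zero hj hjl e i h6)]
      · exact Set.indicator_nonneg (fun _ _ => zero_le_one) _
    rw [h4.liminf_eq, he.2 j hj] at h5
    simp at h5

end Pool.Agent.R334.CN
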