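import Pool.Agent.R334.CNDefs

/-!
# The real number with prescribed digits
-/

set_option autoImplicit false

namespace Pool.Agent.R334.CN

open Filter Topology

/-- The real number with the digits `e n`. -/
noncomputable def val (q e : ℕ → ℕ) : ℝ := ∑' n, (e n : ℝ) / prodTo q (n + 1)

lemma prodTo_succ (q : ℕ → ℕ) (n : ℕ) : prodTo q (n + 1) = prodTo q n * q n := by
  rw [prodTo, Finset.prod_range_succ, ← prodTo]

lemma prodTo_succ' (q : ℕ → ℕ) (n : ℕ) : prodTo q (n + 1) = q 0 * prodTo (fun m => q (m + 1)) n := by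
  rw [prodTo, Finset.prod_range_succ', mul_comm, ← prodTo]

lemma prodTo_pos {q : ℕ → ℕ} (hq : Basic q) (n : ℕ) : 0 < prodTo q n :=
  Finset.prod_pos fun i _ => by have := hq i; omega

lemma partial_le {q e : ℕ → ℕ} (hq : Basic q) (he : ∀ n, e n < q n) (N : ℕ) :
    ∑ m ∈ Finset.range N, (e m : ℝ) / prodTo q (m + 1) ≤ 1 - 1 / prodTo q N := by
  induction N with
  | zero => simp [prodTo]
  | succ N ih =>
    rw [Finset.sum_range_succ, prodTo_succ]
    have h1 : (0 : ℝ) < prodTo q N := by exact_mod_cast prodTo_pos hq N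
    have h2 : (0 : ℝ) < q N := by have := hq N; positivity
    have h3 : (e N : ℝ) + 1 ≤ q N := by exact_mod_cast he N
    have h4 : (e N : ℝ) / ((prodTo q N * q N : ℕ) : ℝ) ≤ 1 / prodTo q N - 1 / ((prodTo q N * q N : ℕ) : ℝ) := by
      push_cast
      rw [div_sub_div _ _ h1.ne' (by positivity), div_le_div_iff₀ (by positivity) (by positivity)]
      have : (0 : ℝ) < prodTo q N * (prodTo q N * q N) := by positivity
      nlinarith [mul_le_mul_of_nonneg_left h3 (mul_pos (mul_pos h1 h1) (mul_pos h1 h2)).le]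
    linarith

lemma summable_val {q e : ℕ → ℕ} (hq : Basic q) (he : ∀ n, e n < q n) :
    Summable (fun n => (e n : ℝ) / prodTo q (n + 1)) := by
  refine summable_of_sum_range_le (c := 1) (fun n => by positivity) fun N => ?_
  refine (partial_le hq he N).trans ?_
  have : (0 : ℝ) ≤ 1 / prodTo q N := by positivity
  linarith

lemma val_nonneg (q e : ℕ → ℕ) : 0 ≤ val q e := tsum_nonneg fun n => by positivity

lemma val_le_one {q e : ℕ → ℕ} (hq : Basic q) (he : ∀ n, e n < q n) : val q e ≤ 1 := by
  refine Real.tsum_le_of_sum_range_le (fun n => by positivity) fun N => ?_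
  refine (partial_le hq he N).trans ?_
  have : (0 : ℝ) ≤ 1 / prodTo q N := by positivity
  linarith

lemma val_rec {q e : ℕ → ℕ} (hq : Basic q) (he : ∀ n, e n < q n) :
    val q e = (e 0 + val (fun m => q (m + 1)) (fun m => e (m + 1))) / q 0 := by
  rw [val, (summable_val hq he).tsum_eq_zero_add, val, add_div, ← tsum_div_const]
  congr 1
  · simp [prodTo]
  · congr 1
    ext n
    rw [prodTo_succ' q (n + 1)]
    push_cast
    rw [div_div, mul_comm]

/-- The tail of the expansion. -/
noncomputable def tail (q e : ℕ → ℕ) (n : ℕ) : ℝ := val (fun m => q (n + m)) (fun m => e (n + m))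

lemma tail_rec {q e : ℕ → ℕ} (hq : Basic q) (he : ∀ n, e n < q n) (n : ℕ) :
    tail q e n = (e n + tail q e (n + 1)) / q n := by
  rw [tail, val_rec (fun m => hq (n + m)) (fun m => he (n + m)), tail]
  simp only [add_zero]
  have h : ∀ f : ℕ → ℕ, (fun m => f (n + (m + 1))) = fun m => f (n + 1 + m) := by
    intro f
    ext m
    congr 1
    ring
  rw [h q, h e]

lemma tail_nonneg (q e : ℕ → ℕ) (n : ℕ) : 0 ≤ tail q e n := val_nonneg _ _

lemma tail_le_one {q e : ℕ → ℕ} (hq : Basic q) (he : ∀ n, e n < q n) (n : ℕ) : tail q e n ≤ 1 :=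
  val_le_one (fun m => hq (n + m)) (fun m => he (n + m))

lemma tail_lt_one {q e : ℕ → ℕ} (hq : Basic q) (he : ∀ n, e n < q n)
    (hf : ∃ᶠ n in atTop, e n + 2 ≤ q n) (n : ℕ) : tail q e n < 1 := by
  obtain ⟨N, hN, hN2⟩ := (frequently_atTop.1 hf) n
  have key : ∀ d, tail q e (N - d) < 1 := by
    intro d
    induction d with
    | zero =>
      rw [Nat.sub_zero, tail_rec hq he, div_lt_one (by have := hq N; positivity)]
      have h1 := tail_le_one hq he (N + 1)
      have h2 : (e N : ℝ) + 2 ≤ q N := by exact_mod_cast hN2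
      linarith
    | succ d ih =>
      rcases Nat.lt_or_ge d N with h | h
      · have h3 : N - d = N - (d + 1) + 1 := by omega
        rw [h3] at ih
        rw [tail_rec hq he, div_lt_one (by have := hq (N - (d + 1)); positivity)]
        have h2 : (e (N - (d + 1)) : ℝ) + 1 ≤ q (N - (d + 1)) := by exact_mod_cast he _
        linarith
      · have h3 : N - (d + 1) = N - d := by omega
        rw [h3]
        exact ih
  have := key (N - n)
  rwa [Nat.sub_sub_self hN] at this

/-- The integer with the first `n` digits. -/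
def int (q e : ℕ → ℕ) : ℕ → ℕ
  | 0 => 0
  | n + 1 => int q e n * q n + e n

lemma prodTo_mul_val {q e : ℕ → ℕ} (hq : Basic q) (he : ∀ n, e n < q n) (n : ℕ) :
    (prodTo q n : ℝ) * val q e = int q e n + tail q e n := by
  induction n with
  | zero => simp [prodTo, int, tail]
  | succ n ih =>
    rw [prodTo_succ, int]
    push_cast
    have h2 : (0 : ℝ) < q n := by have := hq n; positivity
    have h3 := tail_rec hq he n
    rw [h3] at ih
    calc (prodTo q n : ℝ) * q n * val q e = q n * ((prodTo q n : ℝ) * val q e) := by ring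
      _ = _ := by
        rw [ih]
        field_simp
        ring

lemma floor_val {q e : ℕ → ℕ} (hq : Basic q) (he : ∀ n, e n < q n)
    (hf : ∃ᶠ n in atTop, e n + 2 ≤ q n) (n : ℕ) : ⌊(prodTo q n : ℝ) * val q e⌋ = int q e n := by
  rw [prodTo_mul_val hq he, Int.floor_eq_iff]
  have h1 := tail_nonneg q e n
  have h2 := tail_lt_one hq he hf n
  push_cast
  constructor <;> linarith

lemma fract_val {q e : ℕ → ℕ} (hq : Basic q) (he : ∀ n, e n < q n)
    (hf : ∃ᶠ n in atTop, e n + 2 ≤ q n) (n : ℕ) :
    Int.fract ((prodTo q n : ℝ) * val q e) = tail q e n := by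
  rw [Int.fract, floor_val hq he hf, prodTo_mul_val hq he]
  push_cast
  ring

lemma digit_val {q e : ℕ → ℕ} (hq : Basic q) (he : ∀ n, e n < q n)
    (hf : ∃ᶠ n in atTop, e n + 2 ≤ q n) (n : ℕ) : digit q (val q e) n = e n := by
  rw [digit, floor_val hq he hf, int]
  push_cast
  rw [add_comm, Int.add_mul_emod_self_right]
  exact Int.emod_eq_of_lt (by positivity) (by exact_mod_cast he n)

lemma int_inj {q e f : ℕ → ℕ} (he : ∀ n, e n < q n) (hf : ∀ n, f n < q n) (n : ℕ)
    (h : int q e n = int q f n) : ∀ i < n, e i = f i := by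
  induction n with
  | zero => intro i hi; omega
  | succ n ih =>
    rw [int, int] at h
    have h1 : e n = f n := by
      have h2 := congrArg (· % q n) h
      simp only [Nat.mul_add_mod_self_right, Nat.mod_eq_of_lt (he n), Nat.mod_eq_of_lt (hf n)] at h2
      exact h2
    have h3 : int q e n = int q f n := by
      rw [h1] at h
      have h4 := Nat.add_right_cancel h
      have h5 : 0 < q n := by have := he n; omega
      exact Nat.eq_of_mul_eq_mul_right h5 h4
    intro i hi
    rcases Nat.lt_succ_iff_lt_or_eq.1 hi with h4 | h4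
    · exact ih h3 i h4
    · rw [h4]; exact h1

end Pool.Agent.R334.CN
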