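import Pool.Agent.R334.CNLaw
import Pool.Agent.R334.CNVal

/-!
# Random digits
-/

set_option autoImplicit false

namespace Pool.Agent.R334.CN

open MeasureTheory Filter Topology
open scoped ENNReal

/-- The uniform distribution on `{0, …, m - 1}` (for `m ≥ 1`). -/
noncomputable def unif (m : ℕ) : Measure ℕ :=
  (((m ⊔ 1 : ℕ) : ℝ≥0∞)⁻¹) • ∑ b ∈ Finset.range (m ⊔ 1), Measure.dirac b

lemma unif_apply (m : ℕ) (t : Set ℕ) [DecidablePred (· ∈ t)] :
    unif m t = (((m ⊔ 1 : ℕ) : ℝ≥0∞)⁻¹) * (((Finset.range (m ⊔ 1)).filter (· ∈ t)).card : ℝ≥0∞) := by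
  rw [unif, Measure.smul_apply, Measure.finsetSum_apply, smul_eq_mul]
  congr 1
  simp_rw [Measure.dirac_apply' _ (MeasurableSet.of_discrete (s := t)), Set.indicator_apply,
    Pi.one_apply]
  rw [Finset.sum_boole]

instance (m : ℕ) : IsProbabilityMeasure (unif m) := ⟨by
  classical
  rw [unif_apply]
  simp only [Set.mem_univ, Finset.filter_true, Finset.card_range]
  apply ENNReal.inv_mul_cancel
  · have : 1 ≤ m ⊔ 1 := le_sup_right
    exact_mod_cast (by omega : (m ⊔ 1) ≠ 0)
  · exact ENNReal.natCast_ne_top _⟩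

lemma unif_real {m : ℕ} (hm : 1 ≤ m) (t : Set ℕ) [DecidablePred (· ∈ t)] :
    (unif m).real t = (((Finset.range m).filter (· ∈ t)).card : ℝ) / m := by
  rw [Measure.real, unif_apply, sup_eq_left.2 hm, ENNReal.toReal_mul, ENNReal.toReal_inv]
  simp only [ENNReal.toReal_natCast]
  rw [div_eq_inv_mul]

/-- The distribution of a sequence of independent uniformly distributed digits. -/
noncomputable def PP (q : ℕ → ℕ) : Measure (ℕ → ℕ) := Measure.infinitePi (fun n => unif (q n))

instance (q : ℕ → ℕ) : IsProbabilityMeasure (PP q) := by unfold PP; infer_instance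

/-- The event that `e i ∈ t i` for all `i ∈ s`. -/
def ev (s : Finset ℕ) (t : ℕ → Set ℕ) : Set (ℕ → ℕ) := {e | ∀ i ∈ s, e i ∈ t i}

lemma ev_eq (s : Finset ℕ) (t : ℕ → Set ℕ) : ev s t = Set.pi (s : Set ℕ) t := by
  ext e
  simp [ev, Set.mem_pi]

lemma measurableSet_ev (s : Finset ℕ) (t : ℕ → Set ℕ) : MeasurableSet (ev s t) := by
  rw [ev_eq]
  exact MeasurableSet.pi s.countable_toSet fun i _ => MeasurableSet.of_discrete

lemma PP_ev (q : ℕ → ℕ) (s : Finset ℕ) (t : ℕ → Set ℕ) :
    PP q (ev s t) = ∏ i ∈ s, unif (q i) (t i) := by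
  rw [ev_eq, PP, Measure.infinitePi_pi]
  exact fun i _ => MeasurableSet.of_discrete

lemma PP_real_ev (q : ℕ → ℕ) (s : Finset ℕ) (t : ℕ → Set ℕ) :
    (PP q).real (ev s t) = ∏ i ∈ s, (unif (q i)).real (t i) := by
  rw [Measure.real, PP_ev, ENNReal.toReal_prod]
  rfl

lemma PP_real_inter (q : ℕ → ℕ) (s s' : Finset ℕ) (t t' : ℕ → Set ℕ) (h : Disjoint s s') :
    (PP q).real (ev s t ∩ ev s' t') = (PP q).real (ev s t) * (PP q).real (ev s' t') := by
  classical
  have h1 : ev s t ∩ ev s' t' = ev (s ∪ s') (fun i => if i ∈ s then t i else t' i) := by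
    ext e
    simp only [ev, Set.mem_inter_iff, Set.mem_setOf_eq, Finset.mem_union]
    constructor
    · rintro ⟨h1, h2⟩ i (hi | hi)
      · simp [hi, h1 i hi]
      · have : i ∉ s := fun hs => Finset.disjoint_left.1 h hs hi
        simp [this, h2 i hi]
    · intro h1
      constructor
      · intro i hi
        have := h1 i (Or.inl hi)
        simpa [hi] using this
      · intro i hi
        have h2 := h1 i (Or.inr hi)
        have : i ∉ s := fun hs => Finset.disjoint_left.1 h hs hi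
        simpa [this] using h2
  rw [h1, PP_real_ev, PP_real_ev, PP_real_ev, Finset.prod_union h]
  congr 1
  · exact Finset.prod_congr rfl fun i hi => by simp [hi]
  · refine Finset.prod_congr rfl fun i hi => ?_
    have : i ∉ s := fun hs => Finset.disjoint_left.1 h hs hi
    simp [this]

lemma ae_lt {q : ℕ → ℕ} (hq : Basic q) : ∀ᵐ e ∂PP q, ∀ n, e n < q n := by
  classical
  rw [ae_all_iff]
  intro n
  have h1 : PP q (ev {n} (fun _ => {b | q n ≤ b})) = 0 := by
    rw [PP_ev, Finset.prod_singleton, unif_apply]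
    have h2 : (Finset.range (q n ⊔ 1)).filter (· ∈ {b | q n ≤ b}) = ∅ := by
      apply Finset.filter_false_of_mem
      intro b hb
      have := hq n
      rw [Finset.mem_range, sup_eq_left.2 (by omega)] at hb
      simp only [Set.mem_setOf_eq]
      omega
    rw [h2]
    simp
  rw [ae_iff]
  convert h1 using 2
  ext e
  simp [ev]

/-- The block `B` occurs in the sequence `e` of digits at the position `i`. -/
def occ (e : ℕ → ℕ) {k : ℕ} (B : Fin k → ℕ) (i : ℕ) : Prop := ∀ j : Fin k, e (i + j) = B j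

open Classical in
/-- The number of the positions `i < n` at which `B` occurs in `e`. -/
noncomputable def num (e : ℕ → ℕ) {k : ℕ} (B : Fin k → ℕ) (n : ℕ) : ℝ :=
  ∑ i ∈ Finset.range n, if occ e B i then (1 : ℝ) else 0

lemma count_eq {q e : ℕ → ℕ} (hq : Basic q) (he : ∀ n, e n < q n)
    (hf : ∃ᶠ n in atTop, e n + 2 ≤ q n) {k : ℕ} (B : Fin k → ℕ) (n : ℕ) :
    (count q (val q e) B n : ℝ) = num e B n := by
  classical
  rw [count, num, Finset.sum_boole]
  congr 2
  ext i
  rw [Finset.mem_filter, Finset.mem_filter]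
  simp only [Occurs, occ, digit_val hq he hf]
  norm_cast

/-- The event that `B` occurs at the position `i`. -/
def bev {k : ℕ} (B : Fin k → ℕ) (i : ℕ) : Set (ℕ → ℕ) := {e | occ e B i}

lemma bev_eq {k : ℕ} (B : Fin k → ℕ) (i : ℕ) :
    bev B i = ev (Finset.Ico i (i + k)) (fun s => {x | ∀ j : Fin k, i + j = s → x = B j}) := by
  ext e
  simp only [bev, occ, ev, Set.mem_setOf_eq, Finset.mem_Ico]
  constructor
  · rintro h s ⟨h1, h2⟩ j rfl
    exact h j
  · intro h j
    exact h (i + j) ⟨by omega, by omega⟩ j rfl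

lemma cnt_bev (e : ℕ → ℕ) {k : ℕ} (B : Fin k → ℕ) (n : ℕ) : cnt (bev B) n e = num e B n := by
  classical
  rw [cnt, num]
  refine Finset.sum_congr rfl fun i _ => ?_
  rw [Set.indicator_apply]
  rfl

lemma real_bev {q : ℕ → ℕ} (hq : Basic q) {k : ℕ} (B : Fin k → ℕ) (i : ℕ)
    (hB : ∀ j : Fin k, B j < q (i + j)) :
    (PP q).real (bev B i) = (∏ j ∈ Finset.range k, (q (i + j) : ℝ))⁻¹ := by
  classical
  rw [bev_eq, PP_real_ev, Finset.prod_Ico_eq_prod_range, Nat.add_sub_cancel_left,
    ← Finset.prod_inv_distrib]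
  refine Finset.prod_congr rfl fun j hj => ?_
  rw [Finset.mem_range] at hj
  rw [unif_real (by have := hq (i + j); omega)]
  have h1 : (Finset.range (q (i + j))).filter
      (· ∈ {x | ∀ j' : Fin k, i + j' = i + j → x = B j'}) = {B ⟨j, hj⟩} := by
    ext x
    simp only [Set.mem_setOf_eq, Finset.mem_filter, Finset.mem_range, Finset.mem_singleton]
    constructor
    · rintro ⟨_, h2⟩
      exact h2 ⟨j, hj⟩ rfl
    · rintro rfl
      refine ⟨hB ⟨j, hj⟩, ?_⟩
      rintro ⟨j', hj'⟩ h3
      have : j' = j := by simpa using h3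
      subst this
      rfl
  rw [h1]
  simp

lemma exists_const {f g : ℕ → ℝ} {i₀ : ℕ} (h : ∀ i, i₀ ≤ i → f i = g i) :
    ∃ c, ∀ n, i₀ ≤ n → ∑ i ∈ Finset.range n, f i = ∑ i ∈ Finset.range n, g i + c := by
  refine ⟨∑ i ∈ Finset.range i₀, (f i - g i), fun n hn => ?_⟩
  have h1 : ∑ i ∈ Finset.range n, (f i - g i) = ∑ i ∈ Finset.range i₀, (f i - g i) := by
    symm
    apply Finset.sum_subset (Finset.range_subset_range.2 hn)
    intro i _ h2
    rw [Finset.mem_range, not_lt] at h2
    rw [h i h2, sub_self]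
  rw [← h1, Finset.sum_sub_distrib]
  ring

lemma tendsto_ratio {f g w : ℕ → ℝ} {i₀ : ℕ} (h : ∀ i, i₀ ≤ i → f i = g i)
    (hw : Tendsto w atTop atTop) {l : ℝ}
    (hg : Tendsto (fun n => (∑ i ∈ Finset.range n, g i) / w n) atTop (𝓝 l)) :
    Tendsto (fun n => (∑ i ∈ Finset.range n, f i) / w n) atTop (𝓝 l) := by
  obtain ⟨c, hc⟩ := exists_const h
  have h1 : Tendsto (fun n => c / w n) atTop (𝓝 0) := hw.const_div_atTop c
  have h2 := hg.add h1
  rw [add_zero] at h2
  refine h2.congr' ?_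
  filter_upwards [eventually_ge_atTop i₀] with n hn
  rw [hc n hn, add_div]

theorem ae_normal {q : ℕ → ℕ} (hq : Basic q) (hinf : Tendsto q atTop atTop) {k : ℕ}
    (hdiv : Tendsto (weight q k) atTop atTop) (B : Fin k → ℕ) :
    ∀ᵐ e ∂PP q, Tendsto (fun n => num e B n / weight q k n) atTop (𝓝 1) := by
  classical
  have hbig : ∃ i₀, ∀ i, i₀ ≤ i → ∀ j : Fin k, B j < q (i + j) := by
    obtain ⟨i₀, h⟩ := eventually_atTop.1 (hinf.eventually_gt_atTop (∑ j, B j))
    refine ⟨i₀, fun i hi j => ?_⟩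
    exact lt_of_le_of_lt (Finset.single_le_sum (f := B) (fun _ _ => Nat.zero_le _)
      (Finset.mem_univ j)) (h (i + j) (by omega))
  obtain ⟨i₀, hi₀⟩ := hbig
  have hm1 : Tendsto (fun n => mean (PP q) (bev B) n / weight q k n) atTop (𝓝 1) := by
    refine tendsto_ratio (g := fun i => (∏ j ∈ Finset.range k, (q (i + j) : ℝ))⁻¹)
      (fun i hi => real_bev hq B i (hi₀ i hi)) hdiv ?_
    refine tendsto_const_nhds.congr' ?_
    filter_upwards [hdiv.eventually_gt_atTop 0] with n hn
    exact (div_self hn.ne').symm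
  have hmean : Tendsto (mean (PP q) (bev B)) atTop atTop := by
    have h1 := hm1.pos_mul_atTop one_pos hdiv
    refine h1.congr' ?_
    filter_upwards [hdiv.eventually_gt_atTop 0] with n hn
    field_simp
  have hmeas : ∀ i, MeasurableSet (bev B i) := fun i => by
    rw [bev_eq]
    exact measurableSet_ev _ _
  have hlaw := strong_law (PP q) (bev B) hmeas k (fun i j hij => by
    rw [bev_eq B i, bev_eq B j, PP_real_inter]
    rw [Finset.disjoint_left]
    intro s hs hs'
    rw [Finset.mem_Ico] at hs hs'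
    omega) hmean
  filter_upwards [hlaw] with e he
  have h2 := he.mul hm1
  rw [one_mul] at h2
  refine h2.congr' ?_
  filter_upwards [hmean.eventually_gt_atTop 0] with n hn
  rw [cnt_bev]
  field_simp

end Pool.Agent.R334.CN
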