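import Pool.Agent.R334.EMDefs

namespace Pool.Agent.R334.EM

open Polynomial Filter Topology

variable {F : Type} [Field F]

/-- minus the order -/
noncomputable def dg (x : Kinf F) : ℤ := -x.order

theorem dg_mul {x y : Kinf F} (hx : x ≠ 0) (hy : y ≠ 0) : dg (x * y) = dg x + dg y := by
  unfold dg
  rw [HahnSeries.order_mul hx hy]; ring

theorem dg_one : dg (1 : Kinf F) = 0 := by
  unfold dg; simp

theorem dg_pow {x : Kinf F} (hx : x ≠ 0) (n : ℕ) : dg (x ^ n) = n * dg x := by
  induction n with
  | zero => simp [dg_one]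
  | succ n ih =>
    rw [pow_succ, dg_mul (pow_ne_zero n hx) hx, ih]; push_cast; ring

theorem dg_inv {x : Kinf F} (hx : x ≠ 0) : dg x⁻¹ = -dg x := by
  have h := dg_mul hx (inv_ne_zero hx)
  rw [mul_inv_cancel₀ hx, dg_one] at h
  linarith

theorem dg_neg (x : Kinf F) : dg (-x) = dg x := by
  unfold dg; rw [HahnSeries.order_neg]

/-- degree at most d, or zero -/
def DLE (x : Kinf F) (d : ℤ) : Prop := x = 0 ∨ dg x ≤ d

theorem DLE.mono {x : Kinf F} {d e : ℤ} (h : DLE x d) (hde : d ≤ e) : DLE x e := by
  rcases h with h | h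
  · exact Or.inl h
  · exact Or.inr (h.trans hde)

theorem DLE.add {x y : Kinf F} {d : ℤ} (hx : DLE x d) (hy : DLE y d) : DLE (x + y) d := by
  by_cases h0 : x + y = 0
  · exact Or.inl h0
  by_cases hx0 : x = 0
  · rw [hx0, zero_add]; exact hy
  by_cases hy0 : y = 0
  · rw [hy0, add_zero]; exact hx
  have hx' : dg x ≤ d := hx.resolve_left hx0
  have hy' : dg y ≤ d := hy.resolve_left hy0
  right
  have := HahnSeries.min_order_le_order_add h0
  unfold dg at *
  rcases min_le_iff.mp this with h | h <;> linarith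

theorem DLE.neg {x : Kinf F} {d : ℤ} (hx : DLE x d) : DLE (-x) d := by
  rcases hx with h | h
  · left; rw [h, neg_zero]
  · right; rw [dg_neg]; exact h

theorem DLE.sub {x y : Kinf F} {d : ℤ} (hx : DLE x d) (hy : DLE y d) : DLE (x - y) d := by
  rw [sub_eq_add_neg]; exact hx.add hy.neg

theorem DLE.mul {x y : Kinf F} {d e : ℤ} (hx : DLE x d) (hy : DLE y e) : DLE (x * y) (d + e) := by
  rcases hx with h | h
  · left; rw [h, zero_mul]
  rcases hy with h' | h'
  · left; rw [h', mul_zero]
  by_cases hx0 : x = 0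
  · left; rw [hx0, zero_mul]
  by_cases hy0 : y = 0
  · left; rw [hy0, mul_zero]
  right; rw [dg_mul hx0 hy0]; linarith

theorem DLE.dg_le {x : Kinf F} {d : ℤ} (hx : DLE x d) (h0 : x ≠ 0) : dg x ≤ d := hx.resolve_left h0

theorem DLE.self (x : Kinf F) : DLE x (dg x) := Or.inr le_rfl

theorem tt_pow (n : ℕ) : tt F ^ n = HahnSeries.single (-(n : ℤ)) (1 : F) := by
  unfold tt
  rw [HahnSeries.single_pow]; simp

theorem emb_monomial (n : ℕ) (a : F) :
    emb F (monomial n a) = HahnSeries.single (-(n : ℤ)) a := by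
  unfold emb
  rw [aeval_monomial, tt_pow, HahnSeries.algebraMap_apply',
    show (algebraMap F (PowerSeries F)) a = PowerSeries.C a from rfl,
    HahnSeries.ofPowerSeries_C, HahnSeries.C_mul_eq_smul]
  ext i
  simp [HahnSeries.coeff_single]

theorem coeff_emb (A : F[X]) (i : ℤ) :
    (emb F A).coeff i = if i ≤ 0 then A.coeff (-i).toNat else 0 := by
  induction A using Polynomial.induction_on' with
  | add p q hp hq =>
    rw [map_add, HahnSeries.coeff_add, hp, hq, coeff_add]
    split_ifs <;> simp
  | monomial n a =>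
    rw [emb_monomial, HahnSeries.coeff_single, coeff_monomial]
    by_cases hi : i ≤ 0
    · rw [if_pos hi]
      by_cases h : i = -(n : ℤ)
      · rw [if_pos h, if_pos]; omega
      · rw [if_neg h, if_neg]; omega
    · rw [if_neg hi, if_neg]; omega

theorem emb_injective : Function.Injective (emb F) := by
  intro A B h
  ext n
  have := congrArg (fun z : Kinf F => z.coeff (-(n : ℤ))) h
  simp only [coeff_emb] at this
  simpa using this

theorem emb_eq_zero {A : F[X]} : emb F A = 0 ↔ A = 0 := by
  constructor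
  · intro h; apply emb_injective; rw [h, map_zero]
  · intro h; rw [h, map_zero]

theorem dg_emb {A : F[X]} (hA : A ≠ 0) : dg (emb F A) = A.natDegree := by
  have hne : emb F A ≠ 0 := fun h => hA (emb_eq_zero.mp h)
  unfold dg
  apply le_antisymm
  · -- order ≥ -natDegree
    have h1 : (emb F A).coeff (emb F A).order ≠ 0 := by
      exact HahnSeries.coeff_order_eq_zero.not.mpr hne
    rw [coeff_emb] at h1
    split_ifs at h1 with h2
    · have := le_natDegree_of_ne_zero h1
      omega
    · exact absurd rfl h1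
  · have h1 : (emb F A).coeff (-(A.natDegree : ℤ)) ≠ 0 := by
      rw [coeff_emb, if_pos (by omega)]
      simpa using hA
    have := HahnSeries.order_le_of_coeff_ne_zero h1
    omega

theorem DLE_emb (A : F[X]) : DLE (emb F A) A.natDegree := by
  by_cases hA : A = 0
  · left; rw [hA, map_zero]
  · right; rw [dg_emb hA]

theorem dg_le_of_coeff {x : Kinf F} {d : ℤ} (h : ∀ i : ℤ, i < -d → x.coeff i = 0) : DLE x d := by
  by_cases hx : x = 0
  · exact Or.inl hx
  right
  by_contra hc
  push Not at hc
  unfold dg at hc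
  have h1 : x.coeff x.order ≠ 0 := HahnSeries.coeff_order_eq_zero.not.mpr hx
  exact h1 (h _ (by omega))

theorem coeff_polyPart (x : Kinf F) (n : ℕ) : (polyPart x).coeff n = x.coeff (-(n : ℤ)) := by
  unfold polyPart
  rw [finsetSum_coeff]
  simp only [coeff_monomial]
  rw [Finset.sum_ite_eq']
  split_ifs with h
  · rfl
  · symm
    apply HahnSeries.coeff_eq_zero_of_lt_order
    simp at h
    omega

theorem sub_polyPart (x : Kinf F) : DLE (x - emb F (polyPart x)) (-1) := by
  apply dg_le_of_coeff
  intro i hi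
  rw [HahnSeries.coeff_sub, coeff_emb, if_pos (by omega), coeff_polyPart]
  have : -(((-i).toNat : ℕ) : ℤ) = i := by omega
  rw [this, sub_self]

end Pool.Agent.R334.EM
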