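import Pool.Agent.R334.EM1

namespace Pool.Agent.R334.EM

open Polynomial Filter Topology

variable {F : Type} [Field F]

/-- irrationality -/
def Irr (x : Kinf F) : Prop := ∀ a b : F[X], b ≠ 0 → emb F b * x ≠ emb F a

theorem Irr.sub_ne {x : Kinf F} (h : Irr x) (a : F[X]) : x - emb F a ≠ 0 := by
  intro h0
  apply h a 1 one_ne_zero
  rw [map_one, one_mul]
  exact sub_eq_zero.mp h0

theorem Irr.inv_sub {x : Kinf F} (h : Irr x) (A : F[X]) : Irr (x - emb F A)⁻¹ := by
  intro a b hb h0
  have hne := h.sub_ne A
  have ha : a ≠ 0 := by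
    intro ha
    rw [ha, map_zero] at h0
    rcases mul_eq_zero.mp h0 with h1 | h1
    · exact hb (emb_eq_zero.mp h1)
    · exact hne (inv_eq_zero.mp h1)
  apply h (b + a * A) a ha
  rw [map_add, map_mul]
  have : emb F b = emb F a * (x - emb F A) := by
    rw [← h0]
    field_simp
  rw [this]; ring

theorem irr_cquot {x : Kinf F} (h : Irr x) (n : ℕ) : Irr (cquot x n) := by
  induction n with
  | zero => exact h
  | succ n ih => exact ih.inv_sub _

/-- the complete quotients of index at least one have positive degree -/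
theorem one_le_dg_cquot {x : Kinf F} (h : Irr x) (n : ℕ) : 1 ≤ dg (cquot x (n + 1)) := by
  have h1 := (irr_cquot h n).sub_ne (polyPart (cquot x n))
  have h2 := (sub_polyPart (cquot x n)).dg_le h1
  have h3 : cquot x (n + 1) = (cquot x n - emb F (polyPart (cquot x n)))⁻¹ := rfl
  rw [h3, dg_inv h1]; linarith

theorem dg_eq_of_DLE_sub {x y : Kinf F} {d : ℤ} (hx : x ≠ 0) (h : DLE (x - y) d)
    (hd : d < dg x) : y ≠ 0 ∧ dg y = dg x := by
  have hy : y ≠ 0 := by
    intro hy
    rw [hy, sub_zero] at h
    have := h.dg_le hx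
    linarith
  refine ⟨hy, ?_⟩
  apply le_antisymm
  · have : DLE (x - (x - y)) (dg x) := (DLE.self x).sub (h.mono hd.le)
    rw [sub_sub_cancel] at this
    exact this.dg_le hy
  · by_contra hc
    push Not at hc
    have h2 : DLE ((x - y) + y) (max d (dg y)) :=
      (h.mono (le_max_left _ _)).add ((DLE.self y).mono (le_max_right _ _))
    rw [sub_add_cancel] at h2
    have := h2.dg_le hx
    rcases le_max_iff.mp this with h3 | h3 <;> linarith

theorem dg_cquot {x : Kinf F} (h : Irr x) (n : ℕ) :
    dg (cquot x (n + 1)) = (pquot x (n + 1)).natDegree := by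
  have hne : cquot x (n + 1) ≠ 0 := by
    intro h0
    have := (irr_cquot h (n + 1)).sub_ne 0
    rw [h0] at this; simp at this
  have h1 := dg_eq_of_DLE_sub hne (sub_polyPart (cquot x (n + 1)))
    (by have := one_le_dg_cquot h n; linarith)
  rw [← h1.2, dg_emb]
  · rfl
  · intro h0; rw [h0, map_zero] at h1; exact h1.1 rfl

theorem one_le_natDegree {x : Kinf F} (h : Irr x) (n : ℕ) :
    1 ≤ (pquot x (n + 1)).natDegree := by
  have h1 := one_le_dg_cquot h n
  rw [dg_cquot h n] at h1
  exact_mod_cast h1

/-- numerators of the convergents, shifted by one -/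
noncomputable def pp (A : ℕ → F[X]) : ℕ → F[X]
  | 0 => 1
  | 1 => A 0
  | n + 2 => A (n + 1) * pp A (n + 1) + pp A n

/-- denominators of the convergents, shifted by one -/
noncomputable def qq (A : ℕ → F[X]) : ℕ → F[X]
  | 0 => 0
  | 1 => 1
  | n + 2 => A (n + 1) * qq A (n + 1) + qq A n

/-- the value of `q y - p` -/
noncomputable def rv (A : ℕ → F[X]) (y : Kinf F) (n : ℕ) : Kinf F :=
  emb F (qq A n) * y - emb F (pp A n)

theorem rv_zero (A : ℕ → F[X]) (y : Kinf F) : rv A y 0 = -1 := by
  simp [rv, qq, pp]

theorem rv_one (A : ℕ → F[X]) (y : Kinf F) : rv A y 1 = y - emb F (A 0) := by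
  simp [rv, qq, pp]

theorem rv_succ (A : ℕ → F[X]) (y : Kinf F) (n : ℕ) :
    rv A y (n + 2) = emb F (A (n + 1)) * rv A y (n + 1) + rv A y n := by
  simp only [rv, qq, pp, map_add, map_mul]; ring

theorem rv_cquot {x : Kinf F} (h : Irr x) (n : ℕ) :
    rv (pquot x) x n = -(rv (pquot x) x (n + 1) * cquot x (n + 1)) := by
  induction n with
  | zero =>
    rw [rv_zero, zero_add, rv_one]
    have h1 := h.sub_ne (pquot x 0)
    have h3 : cquot x 1 = (x - emb F (pquot x 0))⁻¹ := rfl
    rw [h3, mul_inv_cancel₀ h1]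
  | succ n ih =>
    rw [rv_succ, ih]
    have h1 := (irr_cquot h (n + 1)).sub_ne (pquot x (n + 1))
    have h3 : cquot x (n + 2) = (cquot x (n + 1) - emb F (pquot x (n + 1)))⁻¹ := rfl
    rw [h3]
    field_simp
    ring

/-- position of the n-th convergent: the sum of the degrees of the first n quotients of positive
index -/
noncomputable def pos (x : Kinf F) (n : ℕ) : ℕ :=
  ∑ i ∈ Finset.range n, (pquot x (i + 1)).natDegree

theorem rv_ne_zero {x : Kinf F} (h : Irr x) (n : ℕ) : rv (pquot x) x n ≠ 0 := by
  induction n with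
  | zero => rw [rv_zero]; exact neg_ne_zero.mpr one_ne_zero
  | succ n ih =>
    intro h0
    rw [rv_cquot h n, h0] at ih
    simp at ih

theorem dg_rv {x : Kinf F} (h : Irr x) (n : ℕ) : dg (rv (pquot x) x n) = -(pos x n : ℤ) := by
  induction n with
  | zero => rw [rv_zero, dg_neg, dg_one]; simp [pos]
  | succ n ih =>
    have h1 := rv_ne_zero h (n + 1)
    have h2 : cquot x (n + 1) ≠ 0 := by
      intro h0
      have := (irr_cquot h (n + 1)).sub_ne 0
      rw [h0] at this; simp at this
    have h3 : dg (rv (pquot x) x n) = dg (rv (pquot x) x (n + 1)) + dg (cquot x (n + 1)) := by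
      conv_lhs => rw [rv_cquot h n, dg_neg, dg_mul h1 h2]
    rw [ih, dg_cquot h n] at h3
    unfold pos at *
    rw [Finset.sum_range_succ]
    push_cast at *
    linarith

/-- upper bound for the conjugate -/
theorem DLE_rv {x y : Kinf F} (h : Irr x) {m : ℤ} (hm : 0 ≤ m) (hy : DLE (y - x) m) (n : ℕ) :
    DLE (rv (pquot x) y (n + 1)) (pos x n + m) := by
  induction n using Nat.strong_induction_on with
  | _ n ih =>
    match n with
    | 0 =>
      rw [zero_add, rv_one]
      have h1 : y - emb F (pquot x 0) = (y - x) + (x - emb F (polyPart x)) := by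
        unfold pquot cquot; ring
      rw [h1]
      have : pos x 0 = 0 := by simp [pos]
      rw [this]
      simp only [Nat.cast_zero, zero_add]
      exact hy.add ((sub_polyPart x).mono (by linarith))
    | 1 =>
      rw [show (1 + 1) = 0 + 2 from rfl, rv_succ]
      have h0 := ih 0 (by omega)
      have h1 : DLE (emb F (pquot x (0 + 1)) * rv (pquot x) y (0 + 1))
          (((pquot x (0 + 1)).natDegree : ℤ) + (pos x 0 + m)) := (DLE_emb _).mul h0
      have h2 : (((pquot x (0 + 1)).natDegree : ℤ) + (pos x 0 + m)) = pos x 1 + m := by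
        simp [pos]
      rw [h2] at h1
      refine h1.add ?_
      rw [rv_zero]
      right
      rw [dg_neg, dg_one]; positivity
    | n + 2 =>
      rw [show (n + 2 + 1) = (n + 1) + 2 from rfl, rv_succ]
      have h0 := ih (n + 1) (by omega)
      have h00 := ih n (by omega)
      have h1 : DLE (emb F (pquot x (n + 1 + 1)) * rv (pquot x) y (n + 1 + 1))
          (((pquot x (n + 1 + 1)).natDegree : ℤ) + (pos x (n + 1) + m)) := (DLE_emb _).mul h0
      have h2 : (((pquot x (n + 1 + 1)).natDegree : ℤ) + (pos x (n + 1) + m)) =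
          pos x (n + 2) + m := by
        simp only [pos]
        rw [Finset.sum_range_succ _ (n + 1)]
        push_cast; ring
      rw [h2] at h1
      refine h1.add (h00.mono ?_)
      have : pos x n ≤ pos x (n + 2) := by
        unfold pos
        exact Finset.sum_le_sum_of_subset (Finset.range_mono (by omega))
      have : (pos x n : ℤ) ≤ pos x (n + 2) := by exact_mod_cast this
      linarith

end Pool.Agent.R334.EM
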