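import Pool.Agent.R334.EM2

namespace Pool.Agent.R334.EM

open Polynomial Filter Topology

/-- coefficients of the power series solution -/
noncomputable def cc : ℕ → ZMod 2
  | n => (if n = 0 then 1 else 0) + (if 2 ≤ n then (if _h : 0 < n then cc (n - 2) else 0) else 0) +
      (if h : 3 ≤ n then
        ∑ p ∈ (Finset.HasAntidiagonal.antidiagonal (n - 3)).attach, cc p.1.1 * cc p.1.2 else 0)
termination_by n => n
decreasing_by
  · omega
  · have := Finset.HasAntidiagonal.mem_antidiagonal.mp p.2; omega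
  · have := Finset.HasAntidiagonal.mem_antidiagonal.mp p.2; omega

theorem cc_eq (n : ℕ) : cc n = (if n = 0 then 1 else 0) + (if 2 ≤ n then cc (n - 2) else 0) +
      (if 3 ≤ n then ∑ p ∈ Finset.HasAntidiagonal.antidiagonal (n - 3), cc p.1 * cc p.2 else 0) := by
  rw [cc]
  congr 1
  · congr 1
    split_ifs with h1 h2
    · rfl
    · omega
    · rfl
  · split_ifs with h
    · exact Finset.sum_attach (Finset.HasAntidiagonal.antidiagonal (n - 3)) (fun p => cc p.1 * cc p.2)
    · rfl

/-- the power series solution -/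
noncomputable def eta : PowerSeries (ZMod 2) := PowerSeries.mk cc

theorem eta_eq : eta = 1 + PowerSeries.X ^ 2 * eta + PowerSeries.X ^ 3 * eta ^ 2 := by
  ext n
  rw [map_add, map_add, PowerSeries.coeff_X_pow_mul', PowerSeries.coeff_X_pow_mul',
    PowerSeries.coeff_one, sq eta, PowerSeries.coeff_mul]
  simp only [eta, PowerSeries.coeff_mk]
  exact cc_eq n

/-- the root -/
noncomputable def theta : Kinf (ZMod 2) :=
  HahnSeries.ofPowerSeries ℤ (ZMod 2) (PowerSeries.X * eta)

theorem two_eq_zero : (2 : Kinf (ZMod 2)) = 0 := by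
  have h : (2 : ZMod 2) = 0 := rfl
  have := congrArg (algebraMap (ZMod 2) (Kinf (ZMod 2))) h
  rw [map_zero, map_ofNat] at this
  exact this

theorem two_eq_zero_poly : (2 : (ZMod 2)[X]) = 0 := by
  have h : (2 : ZMod 2) = 0 := rfl
  have := congrArg (algebraMap (ZMod 2) ((ZMod 2)[X])) h
  rw [map_zero, map_ofNat] at this
  exact this

theorem tt_mul_X : tt (ZMod 2) * HahnSeries.ofPowerSeries ℤ (ZMod 2) PowerSeries.X = 1 := by
  rw [HahnSeries.ofPowerSeries_X, tt, HahnSeries.single_mul_single]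
  simp

theorem theta_eq : theta ^ 2 = (1 + tt (ZMod 2) ^ 2) * theta + tt (ZMod 2) := by
  have h := congrArg (HahnSeries.ofPowerSeries ℤ (ZMod 2)) eta_eq
  rw [map_add, map_add, map_mul, map_mul, map_pow, map_pow, map_pow, map_one] at h
  unfold theta
  rw [map_mul]
  set x := HahnSeries.ofPowerSeries ℤ (ZMod 2) PowerSeries.X
  set e := HahnSeries.ofPowerSeries ℤ (ZMod 2) eta
  have hx : tt (ZMod 2) * x = 1 := tt_mul_X
  set t := tt (ZMod 2)
  have h2 := two_eq_zero
  have h3 : t * e = t + x * e + x ^ 2 * e ^ 2 := by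
    calc t * e = t * (1 + x ^ 2 * e + x ^ 3 * e ^ 2) := by rw [← h]
    _ = t + (t * x) * x * e + (t * x) * x ^ 2 * e ^ 2 := by ring
    _ = t + x * e + x ^ 2 * e ^ 2 := by rw [hx]; ring
  have h4 : t ^ 2 * (x * e) = t * e := by
    calc t ^ 2 * (x * e) = (t * x) * (t * e) := by ring
    _ = t * e := by rw [hx, one_mul]
  calc (x * e) ^ 2 = t * e - t - x * e := by rw [h3]; ring
  _ = (1 + t ^ 2) * (x * e) + t := by
    rw [add_mul, h4]
    linear_combination (-(x * e) - t) * h2

theorem dg_tt : dg (tt (ZMod 2)) = 1 := by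
  unfold dg tt
  rw [HahnSeries.order_single one_ne_zero]; norm_num

theorem tt_ne : tt (ZMod 2) ≠ 0 := by
  unfold tt
  exact HahnSeries.single_ne_zero one_ne_zero

theorem emb_X : emb (ZMod 2) X = tt (ZMod 2) := by
  unfold emb; simp

theorem theta_ne : theta ≠ 0 := by
  intro h
  have := theta_eq
  rw [h] at this
  apply tt_ne
  linear_combination -this

theorem DLE_theta : DLE theta (-1) := by
  apply dg_le_of_coeff
  intro i hi
  have hi' : i < 1 := by linarith
  unfold theta
  rw [show (HahnSeries.ofPowerSeries ℤ (ZMod 2)) (PowerSeries.X * eta) =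
    ((PowerSeries.X * eta : PowerSeries (ZMod 2)) : LaurentSeries (ZMod 2)) from rfl]
  rw [PowerSeries.coeff_coe]
  split_ifs with h
  · rfl
  · have : i.natAbs = 0 := by omega
    rw [this]
    simp

theorem ff_poly_ne : (1 + X ^ 2 : (ZMod 2)[X]) ≠ 0 := by
  intro h
  have := congrArg (fun p => Polynomial.coeff p 0) h
  simp [coeff_one, coeff_X_pow] at this

theorem natDegree_ff : (1 + X ^ 2 : (ZMod 2)[X]).natDegree = 2 := by
  compute_degree!

theorem emb_ff : emb (ZMod 2) (1 + X ^ 2) = 1 + tt (ZMod 2) ^ 2 := by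
  rw [map_add, map_one, map_pow, emb_X]

theorem dg_ff : dg (1 + tt (ZMod 2) ^ 2) = 2 := by
  rw [← emb_ff, dg_emb ff_poly_ne, natDegree_ff]; rfl

/-- the conjugate root -/
noncomputable def theta' : Kinf (ZMod 2) := (1 + tt (ZMod 2) ^ 2) + theta

theorem theta_add : theta + theta' = 1 + tt (ZMod 2) ^ 2 := by
  unfold theta'; linear_combination theta * two_eq_zero

theorem theta_mul : theta * theta' = tt (ZMod 2) := by
  unfold theta'
  have := theta_eq
  linear_combination this + ((1 + tt (ZMod 2) ^ 2) * theta) * two_eq_zero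

theorem theta'_eq : theta' ^ 2 = (1 + tt (ZMod 2) ^ 2) * theta' + tt (ZMod 2) := by
  unfold theta'
  have := theta_eq
  linear_combination this + ((1 + tt (ZMod 2) ^ 2) * theta) * two_eq_zero

theorem dg_theta' : theta' ≠ 0 ∧ dg theta' = 2 := by
  have h := DLE_theta
  have h1 : DLE ((1 + tt (ZMod 2) ^ 2) - theta') (-1) := by
    have : (1 + tt (ZMod 2) ^ 2) - theta' = - theta := by unfold theta'; ring
    rw [this]; exact h.neg
  have hne : (1 + tt (ZMod 2) ^ 2) ≠ 0 := by
    rw [← emb_ff]; exact fun h => ff_poly_ne (emb_eq_zero.mp h)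
  have := dg_eq_of_DLE_sub hne h1 (by rw [dg_ff]; norm_num)
  rw [dg_ff] at this
  exact this

theorem dg_theta : dg theta = -1 := by
  have h := dg_mul theta_ne dg_theta'.1
  rw [theta_mul, dg_tt, dg_theta'.2] at h
  linarith

theorem irr_theta : Irr theta := by
  intro a b hb h
  -- reduce to coprime
  obtain ⟨d, a', b', hd, hcop, ha', hb'⟩ : ∃ d a' b' : (ZMod 2)[X], d ≠ 0 ∧ IsCoprime a' b' ∧
      a = d * a' ∧ b = d * b' := by
    obtain ⟨a', ha'⟩ := EuclideanDomain.gcd_dvd_left a b
    obtain ⟨b', hb'⟩ := EuclideanDomain.gcd_dvd_right a b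
    have hg0 : EuclideanDomain.gcd a b ≠ 0 := by
      intro h0
      rw [EuclideanDomain.gcd_eq_zero_iff] at h0
      exact hb h0.2
    refine ⟨EuclideanDomain.gcd a b, a', b', hg0, ?_, ha', hb'⟩
    refine ⟨EuclideanDomain.gcdA a b, EuclideanDomain.gcdB a b, ?_⟩
    apply mul_left_cancel₀ hg0
    have h1 := EuclideanDomain.gcd_eq_gcd_ab a b
    calc EuclideanDomain.gcd a b * (EuclideanDomain.gcdA a b * a' + EuclideanDomain.gcdB a b * b')
        = (EuclideanDomain.gcd a b * a') * EuclideanDomain.gcdA a b +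
          (EuclideanDomain.gcd a b * b') * EuclideanDomain.gcdB a b := by ring
      _ = a * EuclideanDomain.gcdA a b + b * EuclideanDomain.gcdB a b := by
          rw [← ha', ← hb']
      _ = EuclideanDomain.gcd a b * 1 := by rw [mul_one]; exact h1.symm
  have hed : emb (ZMod 2) d ≠ 0 := fun h => hd (emb_eq_zero.mp h)
  have h1 : emb (ZMod 2) b' * theta = emb (ZMod 2) a' := by
    apply mul_left_cancel₀ hed
    rw [← mul_assoc, ← map_mul, ← map_mul, ← ha', ← hb']; exact h
  have h2 : a' ^ 2 = b' * (a' * (1 + X ^ 2) + b' * X) := by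
    apply emb_injective
    rw [map_pow, ← h1, mul_pow, theta_eq, map_mul, map_add, map_mul, map_mul, emb_ff, emb_X, ← h1]
    ring
  have h3 : b' ∣ a' ^ 2 := ⟨_, h2⟩
  have h4 : IsUnit b' := by
    have : IsCoprime (a' ^ 2) b' := hcop.pow_left
    exact this.isUnit_of_dvd' h3 dvd_rfl
  have hb'0 : b' ≠ 0 := h4.ne_zero
  have ha'0 : a' ≠ 0 := by
    intro h0
    rw [h0, map_zero] at h1
    rcases mul_eq_zero.mp h1 with h5 | h5
    · exact hb'0 (emb_eq_zero.mp h5)
    · exact theta_ne h5
  have h5 := congrArg dg h1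
  rw [dg_mul (fun h => hb'0 (emb_eq_zero.mp h)) theta_ne, dg_emb hb'0, dg_emb ha'0, dg_theta,
    natDegree_eq_zero_of_isUnit h4] at h5
  have h6 : (0 : ℤ) ≤ (a'.natDegree : ℤ) := Int.natCast_nonneg _
  rw [← h5] at h6
  norm_num at h6

end Pool.Agent.R334.EM
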