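import Pool.Agent.R334.EM3

namespace Pool.Agent.R334.EM

open Polynomial Filter Topology

/-- the element `c + d y` -/
noncomputable def lin (c d : (ZMod 2)[X]) (y : Kinf (ZMod 2)) : Kinf (ZMod 2) :=
  emb (ZMod 2) c + emb (ZMod 2) d * y

/-- root of the quadratic equation -/
def IsRt (y : Kinf (ZMod 2)) : Prop := y ^ 2 = (1 + tt (ZMod 2) ^ 2) * y + tt (ZMod 2)

theorem lin_mul {y : Kinf (ZMod 2)} (hy : IsRt y) (c d c' d' : (ZMod 2)[X]) :
    lin c d y * lin c' d' y =
      lin (c * c' + d * d' * X) (c * d' + c' * d + d * d' * (1 + X ^ 2)) y := by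
  unfold lin
  simp only [map_add, map_mul, emb_X, map_one, map_pow]
  have h : y ^ 2 = (1 + tt (ZMod 2) ^ 2) * y + tt (ZMod 2) := hy
  linear_combination (emb (ZMod 2) d * emb (ZMod 2) d') * h

theorem lin_pow (c d : (ZMod 2)[X]) (n : ℕ) :
    ∃ c' d' : (ZMod 2)[X], ∀ y, IsRt y → lin c d y ^ n = lin c' d' y := by
  induction n with
  | zero => exact ⟨1, 0, fun y _ => by simp [lin]⟩
  | succ n ih =>
    obtain ⟨c', d', h⟩ := ih
    refine ⟨c' * c + d' * d * X, c' * d + c * d' + d' * d * (1 + X ^ 2), fun y hy => ?_⟩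
    rw [pow_succ, h y hy, lin_mul hy]

theorem lin_theta' (c d : (ZMod 2)[X]) : lin c d theta' = lin (c + d * (1 + X ^ 2)) d theta := by
  unfold lin theta'
  simp only [map_add, map_mul, emb_X, map_one, map_pow]
  ring

theorem lin_theta (c d : (ZMod 2)[X]) : lin c d theta = lin (c + d * (1 + X ^ 2)) d theta' := by
  unfold lin theta'
  simp only [map_add, map_mul, emb_X, map_one, map_pow]
  linear_combination (-(emb (ZMod 2) d * (1 + tt (ZMod 2) ^ 2))) * two_eq_zero

theorem lin_zero {c d : (ZMod 2)[X]} (h : lin c d theta = 0) : c = 0 ∧ d = 0 := by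
  unfold lin at h
  have hd : d = 0 := by
    by_contra hd
    apply irr_theta (-c) d hd
    rw [map_neg]; linear_combination h
  refine ⟨?_, hd⟩
  rw [hd, map_zero, zero_mul, add_zero] at h
  exact emb_eq_zero.mp h

theorem lin_zero' {c d : (ZMod 2)[X]} (h : lin c d theta' = 0) : c = 0 ∧ d = 0 := by
  rw [lin_theta'] at h
  have := lin_zero h
  refine ⟨?_, this.2⟩
  have h1 := this.1
  rw [this.2, zero_mul, add_zero] at h1
  exact h1

theorem isRt_theta : IsRt theta := theta_eq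
theorem isRt_theta' : IsRt theta' := theta'_eq

theorem lin_norm (c d : (ZMod 2)[X]) :
    lin c d theta' * lin c d theta =
      emb (ZMod 2) (c ^ 2 + c * d * (1 + X ^ 2) + d ^ 2 * X) := by
  unfold lin
  simp only [map_add, map_mul, emb_X, map_one, map_pow]
  have h1 := theta_add
  have h2 := theta_mul
  linear_combination (emb (ZMod 2) c * emb (ZMod 2) d) * h1 + (emb (ZMod 2) d) ^ 2 * h2

instance : CharP (Kinf (ZMod 2)) 2 :=
  charP_of_injective_algebraMap (algebraMap (ZMod 2) (Kinf (ZMod 2))).injective 2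

/-- the pair of values of an element of the order of conductor `t ^ k` -/
def InLam (k : ℕ) (x₁ x₂ : Kinf (ZMod 2)) : Prop :=
  ∃ c d : (ZMod 2)[X], x₁ = lin c (X ^ k * d) theta' ∧ x₂ = lin c (X ^ k * d) theta

theorem a_mul : (1 + tt (ZMod 2) * theta') * (1 + tt (ZMod 2) * theta) = 1 + tt (ZMod 2) := by
  have h1 := theta_add
  have h2 := theta_mul
  linear_combination (tt (ZMod 2)) * h1 + (tt (ZMod 2)) ^ 2 * h2 + (tt (ZMod 2)) ^ 3 * two_eq_zero

theorem dg_a1 : (1 + tt (ZMod 2) * theta') ≠ 0 ∧ dg (1 + tt (ZMod 2) * theta') = 3 := by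
  have hne : tt (ZMod 2) * theta' ≠ 0 := mul_ne_zero tt_ne dg_theta'.1
  have hdg : dg (tt (ZMod 2) * theta') = 3 := by
    rw [dg_mul tt_ne dg_theta'.1, dg_tt, dg_theta'.2]; norm_num
  have h : DLE (tt (ZMod 2) * theta' - (1 + tt (ZMod 2) * theta')) 0 := by
    have : tt (ZMod 2) * theta' - (1 + tt (ZMod 2) * theta') = -1 := by ring
    rw [this]; right; rw [dg_neg, dg_one]
  have := dg_eq_of_DLE_sub hne h (by rw [hdg]; norm_num)
  rw [hdg] at this
  exact this

theorem one_add_tt_ne : (1 + tt (ZMod 2)) ≠ 0 ∧ dg (1 + tt (ZMod 2)) = 1 := by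
  have h : DLE (tt (ZMod 2) - (1 + tt (ZMod 2))) 0 := by
    have : tt (ZMod 2) - (1 + tt (ZMod 2)) = -1 := by ring
    rw [this]; right; rw [dg_neg, dg_one]
  have := dg_eq_of_DLE_sub tt_ne h (by rw [dg_tt]; norm_num)
  rw [dg_tt] at this
  exact this

theorem dg_a2 : (1 + tt (ZMod 2) * theta) ≠ 0 ∧ dg (1 + tt (ZMod 2) * theta) = -2 := by
  have hne : (1 + tt (ZMod 2) * theta) ≠ 0 := by
    intro h
    have := a_mul
    rw [h, mul_zero] at this
    exact one_add_tt_ne.1 this.symm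
  refine ⟨hne, ?_⟩
  have := congrArg dg a_mul
  rw [dg_mul dg_a1.1 hne, dg_a1.2, one_add_tt_ne.2] at this
  linarith

/-- The key estimate. -/
theorem key (l k : ℕ) (hk1 : 2 ^ l ≤ k) {x₁ x₂ : Kinf (ZMod 2)} (hk2 : k ≤ 2 * 2 ^ l)
    (h : InLam k x₁ x₂) (hne : x₂ ≠ 0) (X₁ X₂ : ℤ) (h1 : DLE x₁ X₁) (h2 : DLE x₂ X₂)
    (h3 : 2 * (2 : ℤ) ^ l ≤ X₁ - X₂) (h4 : X₁ - X₂ ≤ 3 * (2 : ℤ) ^ l) : (k : ℤ) ≤ X₁ + X₂ := by
  obtain ⟨c, d, hx1, hx2⟩ := h
  set R : ℕ := 2 ^ l with hR
  obtain ⟨κ, hκ⟩ : ∃ κ, k = R + κ := ⟨k - R, by omega⟩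
  have hκR : κ ≤ R := by omega
  have hRz : (2 : ℤ) ^ l = (R : ℤ) := by rw [hR]; push_cast; rfl
  rw [hRz] at h3 h4
  set t := tt (ZMod 2) with ht
  obtain ⟨r, s, hrs⟩ := lin_pow 0 1 R
  have hθ : theta ^ R = lin r s theta := by
    rw [← hrs theta isRt_theta]; simp [lin]
  have hθ' : theta' ^ R = lin r s theta' := by
    rw [← hrs theta' isRt_theta']; simp [lin]
  -- sum of conjugates
  have hsum : x₁ + x₂ = t ^ k * emb (ZMod 2) (d * (1 + X ^ 2)) := by
    rw [hx1, hx2]; unfold lin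
    simp only [map_add, map_mul, emb_X, map_one, map_pow]
    have := theta_add
    linear_combination (t ^ k * emb (ZMod 2) d) * this + emb (ZMod 2) c * two_eq_zero
  set g := emb (ZMod 2) (d * (1 + X ^ 2)) with hg
  have htk : t ^ k = t ^ R * t ^ κ := by rw [hκ, pow_add]
  have hA2 : (1 + t * theta) ^ R = 1 + t ^ R * theta ^ R := by
    rw [hR, add_pow_char_pow, one_pow, mul_pow]
  have hA1 : (1 + t * theta') ^ R = 1 + t ^ R * theta' ^ R := by
    rw [hR, add_pow_char_pow, one_pow, mul_pow]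
  set v₁ := theta ^ R * x₁ + t ^ κ * g with hv1
  set v₂ := theta' ^ R * x₂ + t ^ κ * g with hv2
  have e1 : t ^ R * v₁ = (1 + t * theta) ^ R * x₁ + x₂ := by
    rw [hA2, hv1]
    linear_combination -hsum - g * htk
  have e2 : t ^ R * v₂ = (1 + t * theta') ^ R * x₂ + x₁ := by
    rw [hA1, hv2]
    linear_combination -hsum - g * htk
  -- as elements of the order
  set C' := (r + s * (1 + X ^ 2)) * c + s * (X ^ k * d) * X with hC'
  set D' := (r + s * (1 + X ^ 2)) * (X ^ k * d) + c * s + s * (X ^ k * d) * (1 + X ^ 2) with hD'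
  have m1 : theta ^ R * x₁ = lin C' D' theta' := by
    rw [hθ, lin_theta, hx1, lin_mul isRt_theta']
  have m2 : theta' ^ R * x₂ = lin C' D' theta := by
    rw [hθ', lin_theta', hx2, lin_mul isRt_theta]
  set C'' := C' + X ^ κ * (d * (1 + X ^ 2)) with hC''
  have n1 : v₁ = lin C'' D' theta' := by
    rw [hv1, m1, hC'']; unfold lin
    simp only [map_add, map_mul, emb_X, map_one, map_pow, hg]
    ring
  have n2 : v₂ = lin C'' D' theta := by
    rw [hv2, m2, hC'']; unfold lin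
    simp only [map_add, map_mul, emb_X, map_one, map_pow, hg]
    ring
  set V := C'' ^ 2 + C'' * D' * (1 + X ^ 2) + D' ^ 2 * X with hV
  have hprod : v₁ * v₂ = emb (ZMod 2) V := by rw [n1, n2, lin_norm]
  -- divisibility
  have hdiv0 : C' ^ 2 + C' * D' * (1 + X ^ 2) + D' ^ 2 * X =
      X ^ R * (c ^ 2 + c * (X ^ k * d) * (1 + X ^ 2) + (X ^ k * d) ^ 2 * X) := by
    apply emb_injective
    rw [← lin_norm, ← m1, ← m2, map_mul, ← lin_norm, map_pow, emb_X, ← hx1, ← hx2]
    have := theta_mul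
    calc theta ^ R * x₁ * (theta' ^ R * x₂) = (theta * theta') ^ R * (x₁ * x₂) := by
          rw [mul_pow]; ring
      _ = t ^ R * (x₁ * x₂) := by rw [this]
  have hdvd : (X : (ZMod 2)[X]) ^ κ ∣ V := by
    have hV' : V = (C' ^ 2 + C' * D' * (1 + X ^ 2) + D' ^ 2 * X) +
        X ^ κ * (d * (1 + X ^ 2) * (2 * C' + X ^ κ * (d * (1 + X ^ 2)) + D' * (1 + X ^ 2))) := by
      rw [hV, hC'']; ring
    rw [hV', hdiv0]
    apply dvd_add
    · exact Dvd.dvd.mul_right (pow_dvd_pow X hκR) _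
    · exact Dvd.intro _ rfl
  have htR : t ^ R ≠ 0 := pow_ne_zero _ tt_ne
  have hVne : V ≠ 0 := by
    intro h0
    have hboth : v₁ = 0 ∧ v₂ = 0 := by
      rw [h0, map_zero] at hprod
      rcases mul_eq_zero.mp hprod with hz | hz
      · rw [n1] at hz
        have := lin_zero' hz
        rw [n1, n2, this.1, this.2]
        simp [lin]
      · rw [n2] at hz
        have := lin_zero hz
        rw [n1, n2, this.1, this.2]
        simp [lin]
    rw [hboth.1, mul_zero] at e1
    rw [hboth.2, mul_zero] at e2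
    have e3 : (1 + t * theta') ^ R * (1 + t * theta) ^ R = 1 + t ^ R := by
      rw [← mul_pow, a_mul, hR, add_pow_char_pow, one_pow]
    have e4 : t ^ R * x₂ = 0 := by
      linear_combination (-(1 + t * theta) ^ R) * e2 + e1 - x₂ * e3
    exact hne ((mul_eq_zero.mp e4).resolve_left htR)
  have hdeg : (κ : ℤ) ≤ dg v₁ + dg v₂ := by
    have hv1ne : v₁ ≠ 0 := by
      intro hz; rw [hz, zero_mul] at hprod; exact hVne (emb_eq_zero.mp hprod.symm)
    have hv2ne : v₂ ≠ 0 := by
      intro hz; rw [hz, mul_zero] at hprod; exact hVne (emb_eq_zero.mp hprod.symm)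
    rw [← dg_mul hv1ne hv2ne, hprod, dg_emb hVne]
    have := natDegree_le_of_dvd hdvd hVne
    rw [natDegree_X_pow] at this
    exact_mod_cast this
  have hd1 : dg v₁ ≤ X₁ - 3 * R := by
    have hv1ne : v₁ ≠ 0 := by
      intro hz; rw [hz, zero_mul] at hprod; exact hVne (emb_eq_zero.mp hprod.symm)
    have hb : DLE ((1 + t * theta) ^ R * x₁ + x₂) (X₁ - 2 * R) := by
      apply DLE.add
      · have : DLE ((1 + t * theta) ^ R) (-2 * R) := by
          right; rw [dg_pow dg_a2.1, dg_a2.2]; linarith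
        exact (this.mul h1).mono (by linarith)
      · exact h2.mono (by linarith)
    rw [← e1] at hb
    have := hb.dg_le (mul_ne_zero htR hv1ne)
    rw [dg_mul htR hv1ne, dg_pow tt_ne, dg_tt] at this
    linarith
  have hd2 : dg v₂ ≤ X₂ + 2 * R := by
    have hv2ne : v₂ ≠ 0 := by
      intro hz; rw [hz, mul_zero] at hprod; exact hVne (emb_eq_zero.mp hprod.symm)
    have hb : DLE ((1 + t * theta') ^ R * x₂ + x₁) (X₂ + 3 * R) := by
      apply DLE.add
      · have : DLE ((1 + t * theta') ^ R) (3 * R) := by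
          right; rw [dg_pow dg_a1.1, dg_a1.2]; linarith
        exact (this.mul h2).mono (by linarith)
      · exact h1.mono (by linarith)
    rw [← e2] at hb
    have := hb.dg_le (mul_ne_zero htR hv2ne)
    rw [dg_mul htR hv2ne, dg_pow tt_ne, dg_tt] at this
    linarith
  rw [hκ]
  push_cast
  linarith

end Pool.Agent.R334.EM
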