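import Pool.Agent.R334.EM4

namespace Pool.Agent.R334.EM

open Polynomial Filter Topology

theorem InLam.mul {k : ℕ} {x₁ x₂ y₁ y₂ : Kinf (ZMod 2)} (hx : InLam k x₁ x₂)
    (hy : InLam k y₁ y₂) : InLam k (x₁ * y₁) (x₂ * y₂) := by
  obtain ⟨c, d, h1, h2⟩ := hx
  obtain ⟨c', d', h3, h4⟩ := hy
  refine ⟨c * c' + (X ^ k * d) * (X ^ k * d') * X,
    c * d' + c' * d + X ^ k * (d * d') * (1 + X ^ 2), ?_, ?_⟩
  · rw [h1, h3, lin_mul isRt_theta']
    congr 1; ring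
  · rw [h2, h4, lin_mul isRt_theta]
    congr 1; ring

theorem InLam.swap {k : ℕ} {x₁ x₂ : Kinf (ZMod 2)} (hx : InLam k x₁ x₂) : InLam k x₂ x₁ := by
  obtain ⟨c, d, h1, h2⟩ := hx
  refine ⟨c + X ^ k * d * (1 + X ^ 2), d, ?_, ?_⟩
  · rw [h2, lin_theta]
  · rw [h1, lin_theta']

theorem InLam.one (k : ℕ) : InLam k 1 1 := ⟨1, 0, by simp [lin], by simp [lin]⟩

theorem InLam.pow {k : ℕ} {x₁ x₂ : Kinf (ZMod 2)} (hx : InLam k x₁ x₂) (n : ℕ) :
    InLam k (x₁ ^ n) (x₂ ^ n) := by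
  induction n with
  | zero => simpa using InLam.one k
  | succ n ih => rw [pow_succ, pow_succ]; exact ih.mul hx

/-- the unit, at a root y -/
noncomputable def eps (y : Kinf (ZMod 2)) : Kinf (ZMod 2) :=
  lin (1 + X + X ^ 2) (X ^ 2 + X ^ 3) y

theorem eps_mul : eps theta' * eps theta = 1 := by
  unfold eps
  rw [lin_norm]
  have h : ((1 + X + X ^ 2) ^ 2 + (1 + X + X ^ 2) * (X ^ 2 + X ^ 3) * (1 + X ^ 2) +
      (X ^ 2 + X ^ 3) ^ 2 * X : (ZMod 2)[X]) = 1 := by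
    linear_combination (X + 2 * X ^ 2 + 2 * X ^ 3 + 2 * X ^ 4 + 2 * X ^ 5 + 2 * X ^ 6 + X ^ 7) *
      two_eq_zero_poly
  rw [h, map_one]

theorem eps_ne : eps theta' ≠ 0 ∧ eps theta ≠ 0 := by
  constructor
  · intro h; have := eps_mul; rw [h, zero_mul] at this; exact zero_ne_one this
  · intro h; have := eps_mul; rw [h, mul_zero] at this; exact zero_ne_one this

theorem dg_eps' : dg (eps theta') = 5 := by
  have h23 : (X ^ 2 + X ^ 3 : (ZMod 2)[X]).natDegree = 3 := by compute_degree!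
  have h23' : (X ^ 2 + X ^ 3 : (ZMod 2)[X]) ≠ 0 := by
    intro h; rw [h] at h23; simp at h23
  have h2 : (1 + X + X ^ 2 : (ZMod 2)[X]).natDegree = 2 := by compute_degree!
  have hne : emb (ZMod 2) (X ^ 2 + X ^ 3) * theta' ≠ 0 :=
    mul_ne_zero (fun h => h23' (emb_eq_zero.mp h)) dg_theta'.1
  have hdg : dg (emb (ZMod 2) (X ^ 2 + X ^ 3) * theta') = 5 := by
    rw [dg_mul (fun h => h23' (emb_eq_zero.mp h)) dg_theta'.1, dg_emb h23', h23, dg_theta'.2]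
    norm_num
  have h : DLE (emb (ZMod 2) (X ^ 2 + X ^ 3) * theta' - eps theta') 2 := by
    have : emb (ZMod 2) (X ^ 2 + X ^ 3) * theta' - eps theta' =
        -(emb (ZMod 2) (1 + X + X ^ 2)) := by unfold eps lin; ring
    rw [this]
    apply DLE.neg
    have := DLE_emb (1 + X + X ^ 2 : (ZMod 2)[X])
    rw [h2] at this
    exact_mod_cast this
  have := dg_eq_of_DLE_sub hne h (by rw [hdg]; norm_num)
  rw [hdg] at this
  exact this.2

theorem dg_eps : dg (eps theta) = -5 := by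
  have := congrArg dg eps_mul
  rw [dg_mul eps_ne.1 eps_ne.2, dg_one, dg_eps'] at this
  linarith

theorem eps_pow_mem (l k : ℕ) (hk : k ≤ 2 * 2 ^ l) :
    InLam k (eps theta' ^ (2 ^ l)) (eps theta ^ (2 ^ l)) := by
  obtain ⟨r, s, hrs⟩ := lin_pow 1 (1 + X) (2 ^ l)
  have key : ∀ y, IsRt y → eps y ^ (2 ^ l) =
      lin (1 + X ^ (2 ^ l) + X ^ (2 * 2 ^ l) * r) (X ^ k * (X ^ (2 * 2 ^ l - k) * s)) y := by
    intro y hy
    have h1 : eps y = 1 + (tt (ZMod 2) + tt (ZMod 2) ^ 2 * lin 1 (1 + X) y) := by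
      unfold eps lin
      simp only [map_add, emb_X, map_one, map_pow]
      ring
    rw [h1, add_pow_char_pow, add_pow_char_pow, one_pow, mul_pow, hrs y hy]
    have h2 : X ^ k * (X ^ (2 * 2 ^ l - k) * s) = X ^ (2 * 2 ^ l) * s := by
      rw [← mul_assoc, ← pow_add]
      congr 2; omega
    rw [h2]
    unfold lin
    simp only [map_add, map_mul, emb_X, map_one, map_pow]
    rw [← pow_mul]
    ring
  exact ⟨_, _, key _ isRt_theta', key _ isRt_theta⟩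

/-- `t ^ k * theta` -/
noncomputable def Phi (k : ℕ) : Kinf (ZMod 2) := tt (ZMod 2) ^ k * theta

theorem irr_Phi (k : ℕ) : Irr (Phi k) := by
  intro a b hb h
  apply irr_theta a (b * X ^ k) (mul_ne_zero hb (pow_ne_zero _ X_ne_zero))
  rw [map_mul, map_pow, emb_X, ← h]
  unfold Phi; ring

theorem inLam_rv (k n : ℕ) (A : ℕ → (ZMod 2)[X]) :
    InLam k (rv A (tt (ZMod 2) ^ k * theta') n) (rv A (Phi k) n) := by
  refine ⟨-pp A n, qq A n, ?_, ?_⟩
  · unfold rv lin; rw [map_neg, map_mul, map_pow, emb_X]; ring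
  · unfold rv lin Phi; rw [map_neg, map_mul, map_pow, emb_X]; ring

theorem DLE_diff (k : ℕ) : DLE (tt (ZMod 2) ^ k * theta' - Phi k) (k + 2) := by
  have h : tt (ZMod 2) ^ k * theta' - Phi k = tt (ZMod 2) ^ k * (1 + tt (ZMod 2) ^ 2) := by
    unfold Phi theta'; ring
  rw [h]
  have hne : (1 + tt (ZMod 2) ^ 2) ≠ 0 := by
    rw [← emb_ff]; exact fun h => ff_poly_ne (emb_eq_zero.mp h)
  right
  rw [dg_mul (pow_ne_zero _ tt_ne) hne, dg_pow tt_ne, dg_tt, dg_ff]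
  linarith

/-- No long quotient covers a good position. -/
theorem good_pos (l k : ℕ) (hk1 : 2 ^ l ≤ k) (hk2 : k ≤ 2 * 2 ^ l) (m n : ℕ) (X₁ : ℤ)
    (h3 : 2 * (2 : ℤ) ^ l ≤ 2 * X₁ - k + 1) (h4 : 2 * X₁ - k + 1 ≤ 3 * (2 : ℤ) ^ l)
    (h5 : (pos (Phi k) n : ℤ) + k + 2 - 5 * 2 ^ l * m ≤ X₁)
    (h6 : -(pos (Phi k) (n + 1) : ℤ) + 5 * 2 ^ l * m ≤ k - 1 - X₁) : False := by
  have hirr := irr_Phi k
  have hlam := inLam_rv k (n + 1) (pquot (Phi k))
  have hunit := ((eps_pow_mem l k hk2).swap).pow m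
  have hx := hlam.mul hunit
  set A := pquot (Phi k) with hA
  have hx2ne : rv A (Phi k) (n + 1) * (eps theta' ^ 2 ^ l) ^ m ≠ 0 :=
    mul_ne_zero (rv_ne_zero hirr _) (pow_ne_zero _ (pow_ne_zero _ eps_ne.1))
  have hb1 : DLE (rv A (tt (ZMod 2) ^ k * theta') (n + 1) * (eps theta ^ 2 ^ l) ^ m) X₁ := by
    have e1 := DLE_rv (x := Phi k) (y := tt (ZMod 2) ^ k * theta') hirr (m := k + 2)
      (by positivity) (DLE_diff k) n
    have e2 : DLE ((eps theta ^ 2 ^ l) ^ m) (-(5 * 2 ^ l * m)) := by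
      right
      rw [dg_pow (pow_ne_zero _ eps_ne.2), dg_pow eps_ne.2, dg_eps]
      push_cast; linarith
    exact (e1.mul e2).mono (by linarith)
  have hb2 : DLE (rv A (Phi k) (n + 1) * (eps theta' ^ 2 ^ l) ^ m) (k - 1 - X₁) := by
    right
    rw [dg_mul (rv_ne_zero hirr _) (pow_ne_zero _ (pow_ne_zero _ eps_ne.1)), dg_rv hirr,
      dg_pow (pow_ne_zero _ eps_ne.1), dg_pow eps_ne.1, dg_eps']
    push_cast
    linarith
  have := key l k hk1 hk2 hx hx2ne X₁ (k - 1 - X₁) hb1 hb2 (by linarith) (by linarith)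
  linarith

end Pool.Agent.R334.EM
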