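import Pool.Agent.R334.EM5

namespace Pool.Agent.R334.EM

open Polynomial Filter Topology Finset

open Classical in
theorem count_le (a : ℕ → ℕ) (good : ℕ → Prop)
    (hg : ∀ J, good J → ∀ n, ¬ ((∑ i ∈ range n, a i) ≤ J ∧ J + 3 ≤ ∑ i ∈ range (n + 1), a i))
    (N : ℕ) : Nat.count good (∑ i ∈ range N, a i) ≤ ∑ i ∈ range N, min (a i) 2 := by
  induction N with
  | zero => simp
  | succ N ih =>
    rw [sum_range_succ, Nat.count_add, sum_range_succ]
    apply Nat.add_le_add ih
    set P := ∑ i ∈ range N, a i with hP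
    apply le_min
    · exact Nat.count_le _
    · rcases Nat.lt_or_ge (a N) 2 with h | h
      · exact (Nat.count_le _).trans h.le
      · obtain ⟨b, hb⟩ : ∃ b, a N = b + 2 := ⟨a N - 2, by omega⟩
        rw [hb, Nat.count_add]
        have h0 : Nat.count (fun k => good (P + k)) b = 0 := by
          rw [Nat.count_eq_card_filter_range, card_eq_zero, filter_eq_empty_iff]
          intro j hj hgj
          rw [mem_range] at hj
          apply hg _ hgj N
          rw [sum_range_succ, ← hP]
          constructor <;> omega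
        rw [h0, zero_add]
        exact Nat.count_le _

open Classical in
theorem le_count (good : ℕ → Prop) (L c₀ h : ℕ) (hh : h ≤ L)
    (hg : ∀ M i, i < h → good (L * M + c₀ + i)) (M : ℕ) :
    M * h ≤ Nat.count good (L * M + c₀) := by
  induction M with
  | zero => simp
  | succ M ih =>
    have e : L * (M + 1) + c₀ = (L * M + c₀) + L := by ring
    rw [e, Nat.count_add, add_mul, one_mul]
    apply Nat.add_le_add ih
    have h1 : Nat.count (fun k => good (L * M + c₀ + k)) h = h := by
      rw [Nat.count_iff_forall]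
      intro i hi
      exact hg M i hi
    calc h = Nat.count (fun k => good (L * M + c₀ + k)) h := h1.symm
      _ ≤ _ := Nat.count_monotone _ hh

open Classical in
theorem density (a : ℕ → ℕ) (R c₀ h : ℕ) (hR : 0 < R) (h2 : R ≤ 2 * h) (hh : h ≤ 5 * R)
    (hg : ∀ M i, i < h → ∀ n, ¬ ((∑ i ∈ range n, a i) ≤ 5 * R * M + c₀ + i ∧
      5 * R * M + c₀ + i + 3 ≤ ∑ i ∈ range (n + 1), a i)) (N : ℕ) :
    ∑ i ∈ range N, a i ≤ 10 * ∑ i ∈ range N, min (a i) 2 + (c₀ + 5 * R) := by
  set good : ℕ → Prop := fun J => ∃ M i, i < h ∧ J = 5 * R * M + c₀ + i with hgood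
  have h1 := count_le a good (by
    rintro J ⟨M, i, hi, rfl⟩ n
    exact hg M i hi n) N
  set x := ∑ i ∈ range N, a i with hx
  rcases Nat.lt_or_ge x c₀ with hlt | hge
  · omega
  set M := (x - c₀) / (5 * R) with hM
  have h3 := le_count good (5 * R) c₀ h hh (fun M i hi => ⟨M, i, hi, rfl⟩) M
  have h4 : 5 * R * M ≤ x - c₀ := Nat.mul_div_le _ _
  have h5 : x - c₀ < 5 * R * (M + 1) := by
    rw [hM]
    exact Nat.lt_mul_div_succ _ (by omega)
  have h6 : Nat.count good (5 * R * M + c₀) ≤ Nat.count good x :=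
    Nat.count_monotone _ (by omega)
  have h7 : M * h ≤ ∑ i ∈ range N, min (a i) 2 := h3.trans (h6.trans h1)
  have h8 : 5 * R * M ≤ 10 * (M * h) := by nlinarith
  have h9 : 5 * R * (M + 1) = 5 * R * M + 5 * R := by ring
  omega

/-- sums over the periodic range -/
theorem sum_period (D : ℕ → ℕ) (l N₀ : ℕ) (hp : ∀ i, N₀ ≤ i → D (i + l) = D i) (r : ℕ) :
    ∑ i ∈ range (N₀ + r * l), D i = ∑ i ∈ range N₀, D i + r * ∑ i ∈ range l, D (N₀ + i) := by
  induction r with
  | zero => simp
  | succ r ih =>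
    have e : N₀ + (r + 1) * l = (N₀ + r * l) + l := by ring
    rw [e, sum_range_add, ih, add_mul, one_mul, ← add_assoc]
    congr 1
    apply sum_congr rfl
    intro i _
    -- D (N₀ + r*l + i) = D (N₀ + i)
    clear ih e
    induction r with
    | zero => simp
    | succ r ih2 =>
      have : N₀ + (r + 1) * l + i = (N₀ + r * l + i) + l := by ring
      rw [this, hp _ (by omega), ih2]

theorem period_bound (D : ℕ → ℕ) (C : ℕ)
    (hC : ∀ N, ∑ i ∈ range N, D (i + 1) ≤ 10 * ∑ i ∈ range N, min (D (i + 1)) 2 + C)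
    (l N₀ : ℕ) (hl : 0 < l) (hp : ∀ i, N₀ ≤ i → D (i + l) = D i) :
    ∑ i ∈ range l, D (N₀ + i) ≤ 10 * ∑ i ∈ range l, min (D (N₀ + i)) 2 := by
  by_contra hcon
  push Not at hcon
  set S := ∑ i ∈ range l, D (N₀ + i) with hS
  set T := ∑ i ∈ range l, min (D (N₀ + i)) 2 with hT
  have h1 : ∀ r : ℕ, r * S ≤ 10 * (∑ i ∈ range N₀, min (D i) 2 + r * T) + C + D 0 + 20 + D 0 := by
    intro r
    have e1 := sum_period D l N₀ hp r
    have e2 := sum_period (fun i => min (D i) 2) l N₀ (fun i hi => by simp [hp i hi]) r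
    have e3 := hC (N₀ + r * l)
    have e4 : ∑ i ∈ range (N₀ + r * l + 1), D i =
        ∑ i ∈ range (N₀ + r * l), D (i + 1) + D 0 := sum_range_succ' D _
    have e5 : ∑ i ∈ range (N₀ + r * l + 1), min (D i) 2 =
        ∑ i ∈ range (N₀ + r * l), min (D (i + 1)) 2 + min (D 0) 2 :=
      sum_range_succ' (fun i => min (D i) 2) _
    rw [sum_range_succ, e1] at e4
    rw [sum_range_succ] at e5
    rw [e2] at e5
    have e6 : min (D (N₀ + r * l)) 2 ≤ 2 := min_le_right _ _
    rw [← hS] at e4
    rw [← hT] at e5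
    omega
  have h2 := h1 (10 * ∑ i ∈ range N₀, min (D i) 2 + C + D 0 + 20 + D 0 + 1)
  set K := 10 * ∑ i ∈ range N₀, min (D i) 2 + C + D 0 + 20 + D 0 + 1 with hK
  have h3 : K * (10 * T + 1) ≤ K * S := Nat.mul_le_mul_left K hcon
  have h4 : K * (10 * T + 1) = 10 * (K * T) + K := by ring
  omega

theorem excess_le (A : ℕ → (ZMod 2)[X]) (C : ℕ)
    (hC : ∀ N, ∑ i ∈ range N, (A (i + 1)).natDegree ≤
      10 * ∑ i ∈ range N, min ((A (i + 1)).natDegree) 2 + C)
    (n : ℕ) (hn : 2 ≤ n) : excess A n ≤ 9 / 10 := by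
  unfold excess
  by_cases hex : ∃ l N, IsPeriodFrom A l N
  · have h1 : ∃ N, IsPeriodFrom A (periodLength A) N := by
      have : {l | ∃ N, IsPeriodFrom A l N}.Nonempty := hex
      exact Nat.sInf_mem this
    have h2 : IsPeriodFrom A (periodLength A) (periodStart A) := by
      have : {N | IsPeriodFrom A (periodLength A) N}.Nonempty := h1
      exact Nat.sInf_mem this
    set l := periodLength A
    set N₀ := periodStart A
    have h3 := period_bound (fun i => (A i).natDegree) C hC l N₀ h2.1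
      (fun i hi => by simp [h2.2 i hi])
    set S := ∑ i ∈ range l, (A (N₀ + i)).natDegree with hS
    have h4 : ∑ i ∈ range l, ((A (N₀ + i)).natDegree - n) +
        ∑ i ∈ range l, min ((A (N₀ + i)).natDegree) 2 ≤ S := by
      rw [hS, ← sum_add_distrib]
      apply sum_le_sum
      intro i _
      omega
    have h5 : (10 : ℝ) * ∑ i ∈ range l, (((A (N₀ + i)).natDegree - n : ℕ) : ℝ) ≤ 9 * (S : ℝ) := by
      have h6 : 10 * ∑ i ∈ range l, ((A (N₀ + i)).natDegree - n) ≤ 9 * S := by
        omega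
      exact_mod_cast h6
    have h7 : ∑ i ∈ range l, ((A (N₀ + i)).natDegree : ℝ) = (S : ℝ) := by
      rw [hS]; push_cast; rfl
    rw [h7]
    rcases Nat.eq_zero_or_pos S with h0 | h0
    · rw [h0]; simp; norm_num
    · have : (0 : ℝ) < S := by exact_mod_cast h0
      rw [div_le_iff₀ this]
      linarith
  · have h1 : periodLength A = 0 := by
      unfold periodLength
      have : {l | ∃ N, IsPeriodFrom A l N} = ∅ := by
        rw [Set.eq_empty_iff_forall_notMem]
        intro l hl
        exact hex ⟨l, hl⟩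
      rw [this, Nat.sInf_empty]
    rw [h1]
    simp; norm_num

theorem excess_nonneg (A : ℕ → (ZMod 2)[X]) (n : ℕ) : 0 ≤ excess A n := by
  unfold excess
  positivity

end Pool.Agent.R334.EM
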