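import Pool.Agent.R334.EM6

namespace Pool.Agent.R334.EM

open Polynomial Filter Topology Finset

theorem excess_Phi (k : ℕ) (hk : 1 ≤ k) (n : ℕ) (hn : 2 ≤ n) :
    excess (pquot (Phi k)) n ≤ 9 / 10 := by
  obtain ⟨l, hk1, hk2⟩ : ∃ l, 2 ^ l ≤ k ∧ k ≤ 2 * 2 ^ l := by
    refine ⟨Nat.log 2 k, Nat.pow_log_le_self 2 (by omega), ?_⟩
    have := Nat.lt_pow_succ_log_self (b := 2) (by norm_num) k
    rw [pow_succ] at this
    omega
  obtain ⟨R, hR⟩ : ∃ R : ℕ, R = 2 ^ l := ⟨_, rfl⟩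
  have hRpos : 0 < R := by rw [hR]; positivity
  have hRz : (2 : ℤ) ^ l = (R : ℤ) := by rw [hR]; push_cast; rfl
  have hkR1 : R ≤ k := by rw [hR]; exact hk1
  have hkR2 : k ≤ 2 * R := by rw [hR]; exact hk2
  obtain ⟨Y, hY1, hY2⟩ : ∃ Y : ℕ, 2 * Y ≤ 2 * R + k ∧ 2 * R + k ≤ 2 * Y + 1 :=
    ⟨(2 * R + k) / 2, by omega, by omega⟩
  obtain ⟨c₀, hc₀⟩ : ∃ c₀ : ℕ, (c₀ : ℤ) = Y + 5 * R - k - 2 := ⟨Y + 5 * R - k - 2, by omega⟩
  apply excess_le _ (c₀ + 5 * R) _ n hn
  intro N
  apply density (fun i => (pquot (Phi k) (i + 1)).natDegree) R c₀ ((R + 1) / 2) hRpos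
    (by omega) (by omega)
  intro M i hi m hm
  have hm1 : pos (Phi k) m ≤ 5 * R * M + c₀ + i := hm.1
  have hm2 : 5 * R * M + c₀ + i + 3 ≤ pos (Phi k) (m + 1) := hm.2
  have hmz1 : (pos (Phi k) m : ℤ) ≤ 5 * R * M + c₀ + i := by exact_mod_cast hm1
  have hmz2 : 5 * R * M + (c₀ : ℤ) + i + 3 ≤ (pos (Phi k) (m + 1) : ℤ) := by exact_mod_cast hm2
  rw [hc₀] at hmz1 hmz2
  have hM : ((M + 1 : ℕ) : ℤ) = M + 1 := by push_cast; rfl
  apply good_pos l k hk1 hk2 (M + 1) m ((Y : ℤ) + i)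
  · rw [hRz]; omega
  · rw [hRz]; omega
  · rw [hRz, hM]; linarith
  · rw [hRz, hM]; linarith

theorem det_eq (A : ℕ → (ZMod 2)[X]) (n : ℕ) :
    pp A n * qq A (n + 1) + pp A (n + 1) * qq A n = 1 := by
  induction n with
  | zero => simp [pp, qq]
  | succ n ih =>
    show pp A (n + 1) * qq A (n + 2) + pp A (n + 2) * qq A (n + 1) = 1
    simp only [pp, qq]
    linear_combination ih + (A (n + 1) * pp A (n + 1) * qq A (n + 1)) * two_eq_zero_poly

/-- the complete quotients have bounded numerator and denominator -/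
theorem cquot_form (k n : ℕ) : ∃ c b : (ZMod 2)[X], b ≠ 0 ∧ c.natDegree < k + 3 ∧
    b.natDegree < k + 3 ∧ cquot (Phi k) (n + 1) * emb (ZMod 2) b = emb (ZMod 2) c + Phi k := by
  set A := pquot (Phi k) with hA
  have hirr := irr_Phi k
  set p := pp A n
  set q := qq A n
  set p' := pp A (n + 1) with hp'
  set q' := qq A (n + 1) with hq'
  have hdet : p * q' + p' * q = 1 := det_eq A n
  set Φ' := tt (ZMod 2) ^ k * theta' with hΦ'
  -- the norm
  set b := (p' ^ 2 + p' * (X ^ k * q') * (1 + X ^ 2) + (X ^ k * q') ^ 2 * X) with hb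
  have hnorm : rv A Φ' (n + 1) * rv A (Phi k) (n + 1) = emb (ZMod 2) b := by
    have h1 : rv A Φ' (n + 1) = lin p' (X ^ k * q') theta' := by
      unfold rv lin; rw [map_mul, map_pow, emb_X]
      linear_combination (-(emb (ZMod 2) p')) * two_eq_zero
    have h2 : rv A (Phi k) (n + 1) = lin p' (X ^ k * q') theta := by
      unfold rv lin Phi; rw [map_mul, map_pow, emb_X]
      linear_combination (-(emb (ZMod 2) p')) * two_eq_zero
    rw [h1, h2, lin_norm]
  have hrne := rv_ne_zero hirr (n + 1)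
  have hr'ne : rv A Φ' (n + 1) ≠ 0 := by
    intro h0
    obtain ⟨c, d, h1, h2⟩ := inLam_rv k (n + 1) A
    rw [← hΦ', h0] at h1
    have := lin_zero' h1.symm
    apply hrne
    rw [h2, this.1, this.2]; simp [lin]
  have hbne : b ≠ 0 := by
    intro h0
    rw [h0, map_zero] at hnorm
    rcases mul_eq_zero.mp hnorm with h | h
    · exact hr'ne h
    · exact hrne h
  set c := q * q' * X ^ (2 * k + 1) + p * q' * X ^ k * (1 + X ^ 2) + p * p' with hc
  have hnum : rv A (Phi k) n * rv A Φ' (n + 1) = emb (ZMod 2) c + Phi k := by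
    have h1 : Phi k * Φ' = tt (ZMod 2) ^ (2 * k + 1) := by
      rw [hΦ']; unfold Phi
      have := theta_mul
      calc tt (ZMod 2) ^ k * theta * (tt (ZMod 2) ^ k * theta') =
          tt (ZMod 2) ^ (2 * k) * (theta * theta') := by ring
        _ = _ := by rw [this]; ring
    have h2 : Φ' = Phi k + tt (ZMod 2) ^ k * (1 + tt (ZMod 2) ^ 2) := by
      rw [hΦ']; unfold Phi theta'; ring
    have h3 : emb (ZMod 2) p * emb (ZMod 2) q' + emb (ZMod 2) p' * emb (ZMod 2) q = 1 := by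
      rw [← map_mul, ← map_mul, ← map_add, hdet, map_one]
    have h4 : rv A (Phi k) n * rv A Φ' (n + 1) =
        (emb (ZMod 2) q * Phi k - emb (ZMod 2) p) * (emb (ZMod 2) q' * Φ' - emb (ZMod 2) p') := rfl
    rw [h4, hc]
    simp only [map_add, map_mul, map_pow, emb_X, map_one]
    linear_combination (emb (ZMod 2) q * emb (ZMod 2) q') * h1 -
      (emb (ZMod 2) p * emb (ZMod 2) q') * h2 + (Phi k) * h3 -
      (emb (ZMod 2) p * emb (ZMod 2) q' * Phi k + emb (ZMod 2) p' * emb (ZMod 2) q * Phi k +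
        emb (ZMod 2) p * emb (ZMod 2) q' * tt (ZMod 2) ^ k * (1 + tt (ZMod 2) ^ 2)) * two_eq_zero
  have hx : cquot (Phi k) (n + 1) * emb (ZMod 2) b = emb (ZMod 2) c + Phi k := by
    rw [← hnum, rv_cquot hirr n, ← hnorm]
    linear_combination (cquot (Phi k) (n + 1) * rv A Φ' (n + 1) * rv A (Phi k) (n + 1)) *
      two_eq_zero
  -- degrees
  have hd1 : dg (rv A (Phi k) (n + 1)) = -(pos (Phi k) (n + 1) : ℤ) := dg_rv hirr _
  have hd2 : dg (rv A Φ' (n + 1)) ≤ pos (Phi k) n + (k + 2) :=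
    (DLE_rv hirr (m := k + 2) (by positivity) (DLE_diff k) n).dg_le hr'ne
  have hd3 : (pos (Phi k) (n + 1) : ℤ) = pos (Phi k) n + (pquot (Phi k) (n + 1)).natDegree := by
    unfold pos; rw [sum_range_succ]; push_cast; rfl
  have hd4 : (1 : ℤ) ≤ (pquot (Phi k) (n + 1)).natDegree := by
    exact_mod_cast one_le_natDegree hirr n
  have hdb : (b.natDegree : ℤ) = dg (rv A Φ' (n + 1)) + dg (rv A (Phi k) (n + 1)) := by
    rw [← dg_mul hr'ne hrne, hnorm, dg_emb hbne]
  have hbdeg : b.natDegree < k + 3 := by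
    have : (b.natDegree : ℤ) < k + 3 := by rw [hdb]; linarith
    exact_mod_cast this
  refine ⟨c, b, hbne, ?_, hbdeg, hx⟩
  have hcD : DLE (emb (ZMod 2) c) (k + 2) := by
    have e : emb (ZMod 2) c = cquot (Phi k) (n + 1) * emb (ZMod 2) b - Phi k := by
      rw [hx]; ring
    rw [e]
    apply DLE.sub
    · have h1 : DLE (cquot (Phi k) (n + 1)) (pquot (Phi k) (n + 1)).natDegree := by
        right; rw [dg_cquot hirr]
      exact (h1.mul (DLE_emb b)).mono (by rw [hdb]; linarith)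
    · right
      unfold Phi
      rw [dg_mul (pow_ne_zero _ tt_ne) theta_ne, dg_pow tt_ne, dg_tt, dg_theta]
      linarith
  by_cases hc0 : c = 0
  · rw [hc0]; simp
  · have := hcD.dg_le (fun h => hc0 (emb_eq_zero.mp h))
    rw [dg_emb hc0] at this
    have h2 : (c.natDegree : ℤ) < k + 3 := by linarith
    exact_mod_cast h2

theorem exists_period (k : ℕ) : ∃ l N, IsPeriodFrom (pquot (Phi k)) l N := by
  choose c b hb hcd hbd hx using cquot_form k
  let g : ℕ → (Fin (k + 3) → ZMod 2) × (Fin (k + 3) → ZMod 2) :=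
    fun n => (fun i => (c n).coeff i, fun i => (b n).coeff i)
  obtain ⟨i, j, hij, hg⟩ := Finite.exists_ne_map_eq_of_infinite g
  wlog hlt : i < j generalizing i j with H
  · exact H j i hij.symm hg.symm (by omega)
  have hpoly : ∀ p p' : (ZMod 2)[X], p.natDegree < k + 3 → p'.natDegree < k + 3 →
      (∀ z : Fin (k + 3), p.coeff z = p'.coeff z) → p = p' := by
    intro p p' h1 h2 h3
    ext z
    by_cases hz : z < k + 3
    · exact h3 ⟨z, hz⟩
    · rw [coeff_eq_zero_of_natDegree_lt (by omega), coeff_eq_zero_of_natDegree_lt (by omega)]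
  have hc : c i = c j := by
    apply hpoly _ _ (hcd i) (hcd j)
    intro z
    exact congrFun (congrArg Prod.fst hg) z
  have hb' : b i = b j := by
    apply hpoly _ _ (hbd i) (hbd j)
    intro z
    exact congrFun (congrArg Prod.snd hg) z
  have hcq : cquot (Phi k) (i + 1) = cquot (Phi k) (j + 1) := by
    have h1 := hx i
    have h2 := hx j
    rw [hc, hb', ← h2] at h1
    exact mul_right_cancel₀ (fun h => hb j (emb_eq_zero.mp h)) h1
  have hall : ∀ m, cquot (Phi k) (i + 1 + m) = cquot (Phi k) (j + 1 + m) := by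
    intro m
    induction m with
    | zero => exact hcq
    | succ m ih =>
      show (cquot (Phi k) (i + 1 + m) - emb (ZMod 2) (polyPart (cquot (Phi k) (i + 1 + m))))⁻¹ =
        (cquot (Phi k) (j + 1 + m) - emb (ZMod 2) (polyPart (cquot (Phi k) (j + 1 + m))))⁻¹
      rw [ih]
  refine ⟨j - i, i + 1, by omega, ?_⟩
  intro z hz
  obtain ⟨m, rfl⟩ : ∃ m, z = i + 1 + m := ⟨z - (i + 1), by omega⟩
  unfold pquot
  rw [hall m]
  congr 2
  omega

end Pool.Agent.R334.EM
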