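import Mathlib

/-!
Definitions for the escape of mass problem for quadratic irrationals over function fields.

The field of formal Laurent series in the inverse of t is realised as the field of Laurent
series over F in a variable X, where X stands for the inverse of t.
-/

namespace Pool.Agent.R334.EM

open Polynomial Filter Topology

/-- The field of Laurent series in the inverse of `t` over `F`, written as Laurent series in the
variable `X`, which stands for the inverse of `t`. -/
abbrev Kinf (F : Type) [Field F] : Type := LaurentSeries F

/-- The element `t`, that is the inverse of `X`. -/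
noncomputable def tt (F : Type) [Field F] : Kinf F := HahnSeries.single (-1 : ℤ) (1 : F)

/-- The inclusion of the polynomial ring `F[t]` into the field of Laurent series in the inverse
of `t`. -/
noncomputable def emb (F : Type) [Field F] : F[X] →ₐ[F] Kinf F := aeval (tt F)

/-- The polynomial part (the terms with nonnegative powers of `t`) of a Laurent series in the
inverse of `t`. The coefficient of the `n`th power of `t` is the coefficient of `X` to the
power `-n`. -/
noncomputable def polyPart {F : Type} [Field F] (θ : Kinf F) : F[X] :=
  ∑ n ∈ Finset.range ((-θ.order).toNat + 1), monomial n (θ.coeff (-(n : ℤ)))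

/-- The complete quotients of the continued fraction expansion of `θ`: the zeroth is `θ`, and the
next one is the inverse of the fractional part of the current one. -/
noncomputable def cquot {F : Type} [Field F] (θ : Kinf F) : ℕ → Kinf F
  | 0 => θ
  | n + 1 => (cquot θ n - emb F (polyPart (cquot θ n)))⁻¹

/-- The continued fraction expansion `[A 0; A 1, A 2, ...]` of `θ`. -/
noncomputable def pquot {F : Type} [Field F] (θ : Kinf F) (n : ℕ) : F[X] :=
  polyPart (cquot θ n)

/-- The sequence `A` satisfies `A (i + l) = A i` for all `i ≥ N`, with `l ≥ 1`. -/
def IsPeriodFrom {F : Type} [Field F] (A : ℕ → F[X]) (l N : ℕ) : Prop :=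
  0 < l ∧ ∀ i, N ≤ i → A (i + l) = A i

/-- The length of the period of an eventually periodic sequence. -/
noncomputable def periodLength {F : Type} [Field F] (A : ℕ → F[X]) : ℕ :=
  sInf {l | ∃ N, IsPeriodFrom A l N}

/-- The index at which the period of an eventually periodic sequence starts. -/
noncomputable def periodStart {F : Type} [Field F] (A : ℕ → F[X]) : ℕ :=
  sInf {N | IsPeriodFrom A (periodLength A) N}

/-- For an eventually periodic sequence `A` of polynomials: the sum over one period of
`max (deg (A i) - n, 0)`, divided by the sum over one period of `deg (A i)`. (The subtraction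
is the truncated one of the natural numbers.) -/
noncomputable def excess {F : Type} [Field F] (A : ℕ → F[X]) (n : ℕ) : ℝ :=
  (∑ i ∈ Finset.range (periodLength A), (((A (periodStart A + i)).natDegree - n : ℕ) : ℝ)) /
    (∑ i ∈ Finset.range (periodLength A), ((A (periodStart A + i)).natDegree : ℝ))

/-- The number `e k n` of the problem, for `P` over the prime field and `θ` over `F`: the
`excess` of the continued fraction expansion of `P ^ k * θ`. -/
noncomputable def escape (p : ℕ) [Fact p.Prime] {F : Type} [Field F] [Algebra (ZMod p) F]
    (P : (ZMod p)[X]) (θ : Kinf F) (k n : ℕ) : ℝ :=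
  excess (pquot (emb F (P.map (algebraMap (ZMod p) F)) ^ k * θ)) n

/-- `θ` is a quadratic irrational: it is not in `F(t)` and it is a root of a quadratic equation
over `F[t]`. -/
def IsQuadraticIrrational {F : Type} [Field F] (θ : Kinf F) : Prop :=
  (∀ a b : F[X], b ≠ 0 → emb F b * θ ≠ emb F a) ∧
    ∃ a b c : F[X], a ≠ 0 ∧ emb F a * θ ^ 2 + emb F b * θ + emb F c = 0

/-- `θ` exhibits full maximal escape of mass with respect to the powers of `P`: the limit over
`n` of the upper limit over `k` of `e k n` is `1`. -/
def FullMaximalEscape (p : ℕ) [Fact p.Prime] {F : Type} [Field F] [Algebra (ZMod p) F]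
    (P : (ZMod p)[X]) (θ : Kinf F) : Prop :=
  Tendsto (fun n : ℕ => limsup (fun k : ℕ => escape p P θ k n) atTop) atTop (𝓝 1)

end Pool.Agent.R334.EM
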