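import Pool.Agent.R334.SADefs

/-!
# The lattice of the arrangement with slopes `1000 + φ` and `1000 + ψ`
-/

set_option autoImplicit false

namespace Pool.Agent.R334.SA

open Real goldenRatio

/-- The first slope. -/
noncomputable def sa : ℝ := 1000 + φ

/-- The second slope. -/
noncomputable def sb : ℝ := 1000 + ψ

/-- The linear form which vanishes on the second line. -/
noncomputable def be (x : ℝ × ℝ) : ℝ := x.2 - sb * x.1

/-- The linear form which vanishes on the first line. -/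
noncomputable def bc (x : ℝ × ℝ) : ℝ := x.2 - sa * x.1

/-- The norm form. -/
def nrm (v : ℤ × ℤ) : ℤ := v.2 ^ 2 - 2001 * v.1 * v.2 + 1000999 * v.1 ^ 2

lemma sa_sub_sb : sa - sb = √5 := by
  unfold sa sb
  rw [← goldenRatio_sub_goldenConj]
  ring

lemma sa_add_sb : sa + sb = 2001 := by
  unfold sa sb
  have := goldenRatio_add_goldenConj
  linarith

lemma sa_mul_sb : sa * sb = 1000999 := by
  unfold sa sb
  have h1 := goldenRatio_add_goldenConj
  have h2 := goldenRatio_mul_goldenConj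
  nlinarith

lemma sqrt5_pos : (0 : ℝ) < √5 := by positivity

lemma sqrt5_sq : √5 * √5 = (5 : ℝ) := Real.mul_self_sqrt (by norm_num)

lemma be_mul_bc (v : ℤ × ℤ) : be (pt v) * bc (pt v) = nrm v := by
  unfold be bc pt nrm
  push_cast
  have h1 := sa_add_sb
  have h2 := sa_mul_sb
  calc ((v.2 : ℝ) - sb * v.1) * (v.2 - sa * v.1)
      = (v.2 : ℝ) ^ 2 - (sa + sb) * v.1 * v.2 + (sa * sb) * v.1 ^ 2 := by ring
    _ = _ := by rw [h1, h2]

lemma be_sub_bc (x : ℝ × ℝ) : be x - bc x = √5 * x.1 := by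
  rw [← sa_sub_sb]
  unfold be bc
  ring

lemma comb (x : ℝ × ℝ) : sa * be x - sb * bc x = √5 * x.2 := by
  rw [← sa_sub_sb]
  unfold be bc
  ring

lemma exists_step (v : ℤ × ℤ) : ∃ g : ℤ × ℤ, be (pt g) = φ * be (pt v) ∧ bc (pt g) = ψ * bc (pt v) := by
  refine ⟨(v.2 - 1000 * v.1, 1001 * (v.2 - 1000 * v.1) + v.1), ?_, ?_⟩
  · unfold be pt sb
    push_cast
    have h1 := goldenRatio_add_goldenConj
    have h2 := goldenRatio_mul_goldenConj
    have h3 : ψ = 1 - φ := by linarith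
    rw [h3] at h2 ⊢
    linear_combination (v.1 : ℝ) * h2
  · unfold bc pt sa
    push_cast
    have h1 := goldenRatio_add_goldenConj
    have h2 := goldenRatio_mul_goldenConj
    have h3 : φ = 1 - ψ := by linarith
    rw [h3] at h2 ⊢
    linear_combination (v.1 : ℝ) * h2

lemma exists_step_inv (v : ℤ × ℤ) :
    ∃ g : ℤ × ℤ, φ * be (pt g) = be (pt v) ∧ ψ * bc (pt g) = bc (pt v) := by
  refine ⟨(v.2 - 1000 * v.1 - v.1, 1000 * (v.2 - 1000 * v.1 - v.1) + v.1), ?_, ?_⟩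
  · unfold be pt sb
    push_cast
    have h1 := goldenRatio_add_goldenConj
    have h2 := goldenRatio_mul_goldenConj
    have h3 : ψ = 1 - φ := by linarith
    rw [h3] at h2 ⊢
    linear_combination (-(v.2 : ℝ) + 1001 * v.1) * h2
  · unfold bc pt sa
    push_cast
    have h1 := goldenRatio_add_goldenConj
    have h2 := goldenRatio_mul_goldenConj
    have h3 : φ = 1 - ψ := by linarith
    rw [h3] at h2 ⊢
    linear_combination (-(v.2 : ℝ) + 1001 * v.1) * h2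

lemma exists_mul (v : ℤ × ℤ) (k : ℤ) :
    ∃ g : ℤ × ℤ, be (pt g) = φ ^ k * be (pt v) ∧ bc (pt g) = ψ ^ k * bc (pt v) := by
  induction k with
  | zero => exact ⟨v, by simp, by simp⟩
  | succ k ih =>
    obtain ⟨g, h1, h2⟩ := ih
    obtain ⟨g', h3, h4⟩ := exists_step g
    refine ⟨g', ?_, ?_⟩
    · rw [h3, h1, zpow_add_one₀ goldenRatio_ne_zero]
      ring
    · rw [h4, h2, zpow_add_one₀ goldenConj_ne_zero]
      ring
  | pred k ih =>
    obtain ⟨g, h1, h2⟩ := ih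
    obtain ⟨g', h3, h4⟩ := exists_step_inv g
    refine ⟨g', ?_, ?_⟩
    · rw [h1] at h3
      apply mul_left_cancel₀ goldenRatio_ne_zero
      rw [h3, zpow_sub_one₀ goldenRatio_ne_zero]
      field_simp
    · rw [h2] at h4
      apply mul_left_cancel₀ goldenConj_ne_zero
      rw [h4, zpow_sub_one₀ goldenConj_ne_zero]
      have h5 := mul_inv_cancel₀ goldenConj_ne_zero
      linear_combination (-(ψ ^ (-(k : ℤ)) * bc (pt v))) * h5

lemma be_ne_zero {v : ℤ × ℤ} (hv : v ≠ 0) : be (pt v) ≠ 0 := by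
  intro h
  unfold be pt sb at h
  simp only at h
  by_cases h1 : v.1 = 0
  · rw [h1] at h
    have h2 : v.2 = 0 := by
      have : (v.2 : ℝ) = 0 := by simpa using h
      exact_mod_cast this
    exact hv (Prod.ext h1 h2)
  · have h3 : (v.1 : ℝ) ≠ 0 := by exact_mod_cast h1
    have h4 : ψ = ((v.2 - 1000 * v.1 : ℤ) : ℝ) / ((v.1 : ℤ) : ℝ) := by
      rw [eq_div_iff h3]
      push_cast
      linarith
    apply goldenConj_irrational
    refine ⟨((v.2 - 1000 * v.1 : ℤ) : ℚ) / ((v.1 : ℤ) : ℚ), ?_⟩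
    rw [h4]
    push_cast
    rfl

lemma bc_ne_zero {v : ℤ × ℤ} (hv : v ≠ 0) : bc (pt v) ≠ 0 := by
  intro h
  unfold bc pt sa at h
  simp only at h
  by_cases h1 : v.1 = 0
  · rw [h1] at h
    have h2 : v.2 = 0 := by
      have : (v.2 : ℝ) = 0 := by simpa using h
      exact_mod_cast this
    exact hv (Prod.ext h1 h2)
  · have h3 : (v.1 : ℝ) ≠ 0 := by exact_mod_cast h1
    have h4 : φ = ((v.2 - 1000 * v.1 : ℤ) : ℝ) / ((v.1 : ℤ) : ℝ) := by
      rw [eq_div_iff h3]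
      push_cast
      linarith
    apply goldenRatio_irrational
    refine ⟨((v.2 - 1000 * v.1 : ℤ) : ℚ) / ((v.1 : ℤ) : ℚ), ?_⟩
    rw [h4]
    push_cast
    rfl

lemma nrm_ne_zero {v : ℤ × ℤ} (hv : v ≠ 0) : nrm v ≠ 0 := by
  intro h
  have h1 := be_mul_bc v
  rw [h] at h1
  have h3 : be (pt v) = 0 ∨ bc (pt v) = 0 := by simpa using h1
  rcases h3 with h2 | h2
  · exact be_ne_zero hv h2
  · exact bc_ne_zero hv h2

lemma four_le {v : ℤ × ℤ} (h2 : 2 ≤ |nrm v|) : 4 ≤ |nrm v| := by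
  by_contra h
  push Not at h
  have h4 : 4 * nrm v = (2 * v.2 - 2001 * v.1) ^ 2 - 5 * v.1 ^ 2 := by
    unfold nrm
    ring
  obtain ⟨t, ht⟩ : ∃ t, t = 2 * v.2 - 2001 * v.1 := ⟨_, rfl⟩
  rw [← ht] at h4
  have h5 : t ^ 2 % 5 = 0 ∨ t ^ 2 % 5 = 1 ∨ t ^ 2 % 5 = 4 := by
    have h6 : t % 5 = 0 ∨ t % 5 = 1 ∨ t % 5 = 2 ∨ t % 5 = 3 ∨ t % 5 = 4 := by omega
    rcases h6 with h | h | h | h | h <;> simp [pow_two, Int.mul_emod, h]
  rcases abs_cases (nrm v) with ⟨h6, _⟩ | ⟨h6, _⟩ <;> rw [h6] at h h2 <;> omega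

/-- The integer vector `g` is the unit `φ ^ k`. -/
def IsU (k : ℤ) (e : ℝ) (g : ℤ × ℤ) : Prop := be (pt g) = e * φ ^ k ∧ bc (pt g) = e * ψ ^ k

lemma exists_unit (k : ℤ) : ∃ g, IsU k 1 g := by
  obtain ⟨g, h1, h2⟩ := exists_mul (0, 1) k
  refine ⟨g, ?_, ?_⟩
  · rw [h1]
    simp [be, pt]
  · rw [h2]
    simp [bc, pt]

lemma abs_goldenConj_zpow (k : ℤ) : |ψ ^ k| = (φ ^ k)⁻¹ := by
  have h1 : φ * |ψ| = 1 := by
    rw [abs_of_neg goldenConj_neg]
    have := goldenRatio_mul_goldenConj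
    linarith
  have h2 : |ψ| = φ⁻¹ := eq_inv_of_mul_eq_one_right h1
  rw [abs_zpow, h2, inv_zpow]

end Pool.Agent.R334.SA
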