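import Pool.Agent.R334.SASail

/-!
# Discrepancies
-/

set_option autoImplicit false

namespace Pool.Agent.R334.SA

open Real goldenRatio

lemma sqrt5_bounds : (2.236 : ℝ) < √5 ∧ √5 < 2.2361 := by
  constructor
  · rw [Real.lt_sqrt (by norm_num)]
    norm_num
  · rw [Real.sqrt_lt' (by norm_num)]
    norm_num

lemma phi_bounds : (1.618 : ℝ) < φ ∧ φ < 1.61805 := by
  have h1 := goldenRatio_add_goldenConj
  have h2 := goldenRatio_sub_goldenConj
  obtain ⟨h3, h4⟩ := sqrt5_bounds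
  constructor <;> linarith

lemma psi_eq : ψ = 1 - φ := by
  have := goldenRatio_add_goldenConj
  linarith

/-- The square of `ψ`. -/
noncomputable def r : ℝ := ψ ^ 2

lemma r_bounds : (0.38195 : ℝ) < r ∧ r < 0.382 := by
  unfold r
  rw [goldenConj_sq, psi_eq]
  obtain ⟨h3, h4⟩ := phi_bounds
  constructor <;> linarith

lemma sa_bounds : (1001.618 : ℝ) < sa ∧ sa < 1001.61805 := by
  unfold sa
  obtain ⟨h3, h4⟩ := phi_bounds
  constructor <;> linarith

lemma sb_bounds : (999.38195 : ℝ) < sb ∧ sb < 999.382 := by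
  unfold sb
  rw [psi_eq]
  obtain ⟨h3, h4⟩ := phi_bounds
  constructor <;> linarith

lemma r_mul_phi_sq : r * φ ^ 2 = 1 := by
  unfold r
  have := goldenRatio_mul_goldenConj
  calc ψ ^ 2 * φ ^ 2 = (φ * ψ) ^ 2 := by ring
    _ = 1 := by rw [this]; norm_num

lemma unit_class {v : ℤ × ℤ} (h : |nrm v| = 1) : ∃ (k : ℤ) (e : ℝ), |e| = 1 ∧
    be (pt v) = e * φ ^ k ∧ bc (pt v) = e * ψ ^ k := by
  have hv : v ≠ 0 := by
    rintro rfl
    simp [nrm] at h
  have hb := abs_pos.2 (be_ne_zero hv)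
  have hφ := goldenRatio_pos
  have hprod : |be (pt v)| * |bc (pt v)| = 1 := by
    rw [← abs_mul, be_mul_bc]
    exact_mod_cast h
  obtain ⟨k, hk1, hk2⟩ := exists_mem_Ico_zpow hb one_lt_goldenRatio
  have hpk : 0 < φ ^ k := zpow_pos hφ k
  obtain ⟨g, hg1, hg2⟩ := exists_mul v (-k)
  set t := |be (pt g)| with ht
  have ht1 : t = |be (pt v)| / φ ^ k := by
    rw [ht, hg1, abs_mul, abs_of_pos (zpow_pos hφ _), zpow_neg]
    field_simp
  have ht2 : |bc (pt g)| = 1 / t := by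
    rw [hg2, abs_mul, abs_goldenConj_zpow, zpow_neg, inv_inv, ht1, one_div_div]
    rw [eq_div_iff hb.ne']
    calc φ ^ k * |bc (pt v)| * |be (pt v)| = φ ^ k * (|be (pt v)| * |bc (pt v)|) := by ring
      _ = φ ^ k := by rw [hprod, mul_one]
  have ht3 : 1 ≤ t := by
    rw [ht1, le_div_iff₀ hpk, one_mul]
    exact hk1
  have ht4 : t < φ := by
    rw [ht1, div_lt_iff₀ hpk]
    rw [zpow_add_one₀ hφ.ne'] at hk2
    linarith
  have ht5 : t + 1 / t < √5 := by
    have h1 : 0 < (φ - t) * (t + ψ) := by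
      apply mul_pos (by linarith)
      have := neg_one_lt_goldenConj
      linarith
    have h2 := goldenRatio_sub_goldenConj
    have h3 := goldenRatio_mul_goldenConj
    have h4 : 0 < t := by linarith
    have h5 : t * t + 1 < √5 * t := by
      rw [← h2]
      nlinarith
    rw [← sub_pos]
    have h6 : √5 - (t + 1 / t) = (√5 * t - (t * t + 1)) / t := by
      field_simp
    rw [h6]
    exact div_pos (by linarith) h4
  have hx : g.1 = 0 := by
    have h1 := be_sub_bc (pt g)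
    have h2 : |√5 * (pt g).1| < √5 := by
      rw [← h1]
      calc |be (pt g) - bc (pt g)| ≤ |be (pt g)| + |bc (pt g)| := abs_sub _ _
        _ = t + 1 / t := by rw [ht2]
        _ < √5 := ht5
    rw [abs_mul, abs_of_pos sqrt5_pos] at h2
    have h3 : |(pt g).1| < 1 := by
      by_contra h4
      push Not at h4
      have := mul_le_mul_of_nonneg_left h4 sqrt5_pos.le
      linarith
    have h4 : |g.1| < 1 := by
      have : |((g.1 : ℤ) : ℝ)| < 1 := h3
      exact_mod_cast this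
    exact Int.abs_lt_one_iff.1 h4
  have hbg : be (pt g) = g.2 := by
    unfold be pt
    rw [hx]
    simp
  have hbcg : bc (pt g) = g.2 := by
    unfold bc pt
    rw [hx]
    simp
  refine ⟨k, be (pt g), ?_, ?_, ?_⟩
  · rw [← ht]
    rw [hbcg, ← hbg, ← ht] at ht2
    have h4 : 0 < t := by linarith
    rw [eq_div_iff h4.ne'] at ht2
    nlinarith
  · rw [hg1, zpow_neg]
    field_simp
  · have h5 : be (pt g) = bc (pt g) := by rw [hbg, hbcg]
    rw [h5, hg2, zpow_neg]
    have h6 : ψ ^ k ≠ 0 := zpow_ne_zero _ goldenConj_ne_zero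
    calc bc (pt v) = ((ψ ^ k)⁻¹ * ψ ^ k) * bc (pt v) := by rw [inv_mul_cancel₀ h6, one_mul]
      _ = _ := by ring

lemma det_eq (x y : ℝ × ℝ) :
    √5 * (x.1 * y.2 - x.2 * y.1) = be x * bc y - bc x * be y := by
  rw [← sa_sub_sb]
  unfold be bc
  ring

lemma cyy_eq (x y : ℝ × ℝ) :
    cyy x y = (be x - bc x) * (be y - bc y) / (√5 * (be x * bc y - bc x * be y)) := by
  unfold cyy
  rw [be_sub_bc, be_sub_bc, ← det_eq]
  have h5 := sqrt5_pos.ne'
  rcases eq_or_ne (x.1 * y.2 - x.2 * y.1) 0 with h | h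
  · rw [h]
    simp
  · field_simp

lemma cxx_eq (x y : ℝ × ℝ) : cxx x y =
    (sa * be x - sb * bc x) * (sa * be y - sb * bc y) / (√5 * (be x * bc y - bc x * be y)) := by
  unfold cxx
  rw [comb, comb, ← det_eq]
  have h5 := sqrt5_pos.ne'
  rcases eq_or_ne (x.1 * y.2 - x.2 * y.1) 0 with h | h
  · rw [h]
    simp
  · field_simp

lemma cxy_eq (x y : ℝ × ℝ) : cxy x y =
    -((be x - bc x) * (sa * be y - sb * bc y) + (be y - bc y) * (sa * be x - sb * bc x)) /
      (√5 * (be x * bc y - bc x * be y)) := by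
  unfold cxy
  rw [comb, comb, be_sub_bc, be_sub_bc, ← det_eq]
  have h5 := sqrt5_pos.ne'
  rcases eq_or_ne (x.1 * y.2 - x.2 * y.1) 0 with h | h
  · rw [h]
    simp
  · field_simp

lemma be_dp : be dp = √5 := by
  rw [← sa_sub_sb]
  simp [be, dp]

lemma bc_dp : bc dp = 0 := by
  simp [bc, dp]

lemma be_dq : be dq = 0 := by
  simp [be, dq]

lemma bc_dq : bc dq = -√5 := by
  rw [← sa_sub_sb]
  simp [bc, dq]

lemma cyy_dp_dq : cyy dp dq = -1 / √5 := by
  rw [cyy_eq, be_dp, bc_dp, be_dq, bc_dq]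
  have h5 := sqrt5_pos.ne'
  field_simp
  ring

lemma cxx_dp_dq : cxx dp dq = -(sa * sb) / √5 := by
  rw [cxx_eq, be_dp, bc_dp, be_dq, bc_dq]
  have h5 := sqrt5_pos.ne'
  field_simp
  ring

lemma cxy_dp_dq : cxy dp dq = (sa + sb) / √5 := by
  rw [cxy_eq, be_dp, bc_dp, be_dq, bc_dq]
  have h5 := sqrt5_pos.ne'
  field_simp
  ring

lemma abs_fib (n : ℤ) : |Int.fib n| = Nat.fib n.natAbs := by
  obtain ⟨m, rfl | rfl⟩ := n.eq_nat_or_neg
  · simp
  · rw [Int.fib_neg_natCast, abs_mul, abs_pow, abs_neg, abs_one, one_pow, one_mul, Int.natAbs_neg,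
      Int.natAbs_natCast, Nat.abs_cast]

lemma rho_ge_of_cyy {x y : ℝ × ℝ} {c : ℝ} (h : c ≤ |(|cyy x y| - 1 / √5)|) : c ≤ rho dp dq x y := by
  have h0 : |cyy dp dq| = 1 / √5 := by
    rw [cyy_dp_dq, abs_div, abs_of_pos sqrt5_pos, abs_neg, abs_one]
  unfold rho
  apply le_min
  · refine le_max_of_le_right (le_max_of_le_right ?_)
    refine h.trans ?_
    rw [← h0]
    have := abs_abs_sub_abs_le_abs_sub (cyy x y) (-cyy dp dq)
    rw [abs_neg] at this
    refine this.trans (le_of_eq ?_)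
    congr 1
    ring
  · refine le_max_of_le_right (le_max_of_le_right ?_)
    refine h.trans ?_
    rw [← h0]
    have := abs_abs_sub_abs_le_abs_sub (cyy x y) (cyy dp dq)
    refine this.trans (le_of_eq ?_)
    rw [abs_sub_comm]

lemma same_side {i j : ℤ} (hij : 0 ≤ i * j) {e₁ e₂ : ℝ} (he₁ : |e₁| = 1) (he₂ : |e₂| = 1)
    {x y : ℝ × ℝ} (hx1 : be x = e₁ * φ ^ i) (hx2 : bc x = e₁ * ψ ^ i)
    (hy1 : be y = e₂ * φ ^ j) (hy2 : bc y = e₂ * ψ ^ j) (hD : x.1 * y.2 - x.2 * y.1 ≠ 0) :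
    (2 : ℝ) / 5 ≤ rho dp dq x y := by
  have h5 := sqrt5_pos
  apply rho_ge_of_cyy
  have hf : ∀ n : ℤ, φ ^ n - ψ ^ n = √5 * Int.fib n := by
    intro n
    rw [coe_intFib_eq]
    field_simp
  have hX : be x - bc x = e₁ * (√5 * Int.fib i) := by rw [hx1, hx2, ← hf]; ring
  have hY : be y - bc y = e₂ * (√5 * Int.fib j) := by rw [hy1, hy2, ← hf]; ring
  have hDD : be x * bc y - bc x * be y = e₁ * e₂ * (-1) ^ j * (√5 * Int.fib (i - j)) := by
    rw [hx1, hx2, hy1, hy2, ← hf, ← goldenRatio_mul_goldenConj, mul_zpow,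
      zpow_sub₀ goldenRatio_ne_zero, zpow_sub₀ goldenConj_ne_zero]
    have h1 : φ ^ j ≠ 0 := zpow_ne_zero _ goldenRatio_ne_zero
    have h2 : ψ ^ j ≠ 0 := zpow_ne_zero _ goldenConj_ne_zero
    rw [mul_sub]
    rw [show e₁ * e₂ * (φ ^ j * ψ ^ j) * (φ ^ i / φ ^ j) = e₁ * e₂ * ψ ^ j * φ ^ i * (φ ^ j / φ ^ j) by ring,
      show e₁ * e₂ * (φ ^ j * ψ ^ j) * (ψ ^ i / ψ ^ j) = e₁ * e₂ * φ ^ j * ψ ^ i * (ψ ^ j / ψ ^ j) by ring,
      div_self h1, div_self h2]
    ring
  have hne : Int.fib (i - j) ≠ 0 := by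
    intro h
    rw [h] at hDD
    have h1 := det_eq x y
    rw [hDD] at h1
    apply hD
    have h2 : √5 * (x.1 * y.2 - x.2 * y.1) = 0 := by rw [h1]; simp
    exact (mul_eq_zero.1 h2).resolve_left h5.ne'
  have hneR : (0 : ℝ) < |(Int.fib (i - j) : ℝ)| := abs_pos.2 (by exact_mod_cast hne)
  have hT : |cyy x y| = |(Int.fib i : ℝ)| * |(Int.fib j : ℝ)| / |(Int.fib (i - j) : ℝ)| := by
    rw [cyy_eq, hX, hY, hDD]
    simp only [abs_mul, abs_div, he₁, he₂, abs_zpow, abs_neg, abs_one, one_zpow, one_mul,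
      abs_of_pos h5]
    field_simp
  have hfa : ∀ n : ℤ, |(Int.fib n : ℝ)| = (Nat.fib n.natAbs : ℝ) := by
    intro n
    have := abs_fib n
    have h1 : ((|Int.fib n| : ℤ) : ℝ) = ((Nat.fib n.natAbs : ℤ) : ℝ) := by rw [this]
    push_cast at h1
    exact h1
  have hs : (2.236 : ℝ) < √5 ∧ √5 < 2.2361 := sqrt5_bounds
  have hinv : 1 / √5 < 0.45 ∧ 0.44 < 1 / √5 := by
    constructor
    · rw [div_lt_iff₀ h5]
      linarith
    · rw [lt_div_iff₀ h5]
      linarith
  by_cases h0 : i = 0 ∨ j = 0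
  · have hT0 : |cyy x y| = 0 := by
      rw [hT]
      rcases h0 with rfl | rfl <;> simp
    rw [hT0, zero_sub, abs_neg, abs_of_pos (by positivity)]
    linarith
  · push Not at h0
    have hT1 : 1 ≤ |cyy x y| := by
      rw [hT, le_div_iff₀ hneR, one_mul, hfa, hfa, hfa]
      have h1 : (i - j).natAbs ≤ max i.natAbs j.natAbs := by
        rcases lt_or_gt_of_ne h0.1 with hi | hi
        · have hj : j < 0 := by
            rcases lt_or_gt_of_ne h0.2 with h | h
            · exact h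
            · have := mul_neg_of_neg_of_pos hi h
              omega
          omega
        · have hj : 0 < j := by
            rcases lt_or_gt_of_ne h0.2 with h | h
            · have := mul_neg_of_pos_of_neg hi h
              omega
            · exact h
          omega
      have h2 : 1 ≤ Nat.fib i.natAbs := Nat.fib_pos.2 (Int.natAbs_pos.2 h0.1)
      have h3 : 1 ≤ Nat.fib j.natAbs := Nat.fib_pos.2 (Int.natAbs_pos.2 h0.2)
      have h4 : Nat.fib (i - j).natAbs ≤ Nat.fib i.natAbs * Nat.fib j.natAbs := by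
        rcases le_max_iff.1 h1 with h | h
        · calc Nat.fib (i - j).natAbs ≤ Nat.fib i.natAbs := Nat.fib_mono h
            _ ≤ _ := Nat.le_mul_of_pos_right _ h3
        · calc Nat.fib (i - j).natAbs ≤ Nat.fib j.natAbs := Nat.fib_mono h
            _ ≤ _ := Nat.le_mul_of_pos_left _ h2
      exact_mod_cast h4
    rw [abs_of_nonneg (by linarith)]
    linarith

end Pool.Agent.R334.SA
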