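import Mathlib

/-!
# Best approximations of arrangements of two lines: definitions

A line through the origin of the plane is given by a nonzero vector on it, an arrangement of two
lines by two linearly independent vectors.
-/

set_option autoImplicit false

namespace Pool.Agent.R334.SA

/-- The coefficient of `x^2` of the Markov-Davenport form of the lines through `p` and `q`. The line
through `p` is the zero set of `p.2 x - p.1 y`, so the form is
`(p.2 x - p.1 y) (q.2 x - q.1 y) / (p.1 q.2 - p.2 q.1)`. -/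
noncomputable def cxx (p q : ℝ × ℝ) : ℝ := p.2 * q.2 / (p.1 * q.2 - p.2 * q.1)

/-- The coefficient of `x y` of the Markov-Davenport form of the lines through `p` and `q`. -/
noncomputable def cxy (p q : ℝ × ℝ) : ℝ := -(p.1 * q.2 + p.2 * q.1) / (p.1 * q.2 - p.2 * q.1)

/-- The coefficient of `y^2` of the Markov-Davenport form of the lines through `p` and `q`. -/
noncomputable def cyy (p q : ℝ × ℝ) : ℝ := p.1 * q.1 / (p.1 * q.2 - p.2 * q.1)

/-- The discrepancy of the arrangement of the lines through `p`, `q` and that of the lines through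
`p'`, `q'`: the minimum of the largest absolute values of the coefficients of the sum and of the
difference of the Markov-Davenport forms. -/
noncomputable def rho (p q p' q' : ℝ × ℝ) : ℝ :=
  min (max |cxx p q + cxx p' q'| (max |cxy p q + cxy p' q'| |cyy p q + cyy p' q'|))
    (max |cxx p q - cxx p' q'| (max |cxy p q - cxy p' q'| |cyy p q - cyy p' q'|))

/-- The point of the plane given by an integer vector. -/
def pt (v : ℤ × ℤ) : ℝ × ℝ := ((v.1 : ℝ), (v.2 : ℝ))

/-- `v₁` and `v₂` are primitive integer vectors on two distinct lines, and the size of the integer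
arrangement of these lines is at most `N`. -/
def IntArr (N : ℤ) (v₁ v₂ : ℤ × ℤ) : Prop :=
  IsCoprime v₁.1 v₁.2 ∧ IsCoprime v₂.1 v₂.2 ∧ v₁.1 * v₂.2 - v₁.2 * v₂.1 ≠ 0 ∧
    max |v₁.1| |v₁.2| ≤ N ∧ max |v₂.1| |v₂.2| ≤ N

/-- The lines through `v₁` and `v₂` (primitive integer vectors) form a best approximation `R_N` of
the arrangement of the lines through `p` and `q`. -/
def IsBest (p q : ℝ × ℝ) (N : ℤ) (v₁ v₂ : ℤ × ℤ) : Prop :=
  IntArr N v₁ v₂ ∧
    ∀ w₁ w₂, IntArr N w₁ w₂ → rho p q (pt v₁) (pt v₂) ≤ rho p q (pt w₁) (pt w₂)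

/-- The closed angle spanned by the rays through `p` and `q`. -/
def closedAngle (p q : ℝ × ℝ) : Set (ℝ × ℝ) :=
  {x | ∃ s t : ℝ, 0 ≤ s ∧ 0 ≤ t ∧ x = s • p + t • q}

/-- The sail of a closed angle `C`: the boundary of the convex hull of the nonzero integer points
of `C`. -/
def sail (C : Set (ℝ × ℝ)) : Set (ℝ × ℝ) :=
  frontier (convexHull ℝ {x | x ∈ C ∧ x ≠ 0 ∧ ∃ v : ℤ × ℤ, x = pt v})

/-- The geometric continued fraction of the arrangement of the lines through `p` and `q`: the union
of the sails of the four closed angles into which the lines cut the plane. -/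
def gcf (p q : ℝ × ℝ) : Set (ℝ × ℝ) :=
  sail (closedAngle p q) ∪ sail (closedAngle p (-q)) ∪ sail (closedAngle (-p) q) ∪
    sail (closedAngle (-p) (-q))

/-- The arrangement of the lines through `p` and `q` is algebraic: the two lines are distinct and are
eigenlines of a matrix in `GL(2, ℤ)` whose characteristic polynomial is irreducible over `ℚ`. -/
def Algebraic (p q : ℝ × ℝ) : Prop :=
  p.1 * q.2 - p.2 * q.1 ≠ 0 ∧ ∃ A : Matrix (Fin 2) (Fin 2) ℤ, IsUnit A.det ∧
    Irreducible (A.charpoly.map (Int.castRingHom ℚ)) ∧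
    (∃ l : ℝ, A 0 0 * p.1 + A 0 1 * p.2 = l * p.1 ∧ A 1 0 * p.1 + A 1 1 * p.2 = l * p.2) ∧
    (∃ l : ℝ, A 0 0 * q.1 + A 0 1 * q.2 = l * q.1 ∧ A 1 0 * q.1 + A 1 1 * q.2 = l * q.2)

end Pool.Agent.R334.SA
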