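import Pool.Agent.R334.SAFin

/-!
# Best approximations off the sails
-/

set_option autoImplicit false

namespace Pool.Agent.R334.SA

open Real goldenRatio

lemma rho_comm (p q x y : ℝ × ℝ) : rho p q x y = rho p q y x := by
  have h : x.1 * y.2 - x.2 * y.1 = -(y.1 * x.2 - y.2 * x.1) := by ring
  have h1 : cxx x y = -cxx y x := by
    unfold cxx
    rw [h, div_neg, mul_comm]
  have h2 : cxy x y = -cxy y x := by
    unfold cxy
    rw [h, div_neg, add_comm, mul_comm x.2 y.1, mul_comm x.1 y.2]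
  have h3 : cyy x y = -cyy y x := by
    unfold cyy
    rw [h, div_neg, mul_comm]
  unfold rho
  rw [h1, h2, h3, sub_neg_eq_add, sub_neg_eq_add, sub_neg_eq_add, ← sub_eq_add_neg,
    ← sub_eq_add_neg, ← sub_eq_add_neg, min_comm]

lemma phi_zpow_neg (m : ℕ) : φ ^ (-(m : ℤ)) = (-1) ^ m * ψ ^ m := by
  rw [zpow_neg, zpow_natCast, ← mul_pow, ← inv_pow]
  congr 1
  have := goldenRatio_mul_goldenConj
  apply inv_eq_of_mul_eq_one_right
  linarith

lemma psi_zpow_neg (m : ℕ) : ψ ^ (-(m : ℤ)) = (-1) ^ m * φ ^ m := by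
  rw [zpow_neg, zpow_natCast, ← mul_pow, ← inv_pow]
  congr 1
  have := goldenRatio_mul_goldenConj
  apply inv_eq_of_mul_eq_one_right
  linarith

lemma abs_psi_pow_le (n : ℕ) : |ψ ^ n| ≤ 1 := by
  rw [abs_pow]
  apply pow_le_one₀ (abs_nonneg _)
  rw [abs_le]
  exact ⟨neg_one_lt_goldenConj.le, (goldenConj_neg.le).trans zero_le_one⟩

/-- The exponent of a small unit on the first side is small. -/
lemma exp_le_left {x : ℝ × ℝ} {e M : ℝ} (he : |e| = 1) {i k : ℕ} (hx1 : be x = e * φ ^ i)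
    (hx2 : bc x = e * ψ ^ i) (hM : |x.2| ≤ M) (hk : 10 ≤ φ ^ (k + 1))
    (hMk : M < sb * φ ^ (k + 1) + sa) : i ≤ k + 2 := by
  by_contra h
  push Not at h
  obtain ⟨s1, s2⟩ := sqrt5_bounds
  obtain ⟨a1, a2⟩ := sa_bounds
  obtain ⟨b1, b2⟩ := sb_bounds
  obtain ⟨p1, p2⟩ := phi_bounds
  have h1 : φ ^ (k + 1) * 2.617 ≤ φ ^ i := by
    calc φ ^ (k + 1) * 2.617 ≤ φ ^ (k + 1) * φ ^ 2 := by
          apply mul_le_mul_of_nonneg_left _ (by linarith)
          nlinarith
      _ = φ ^ (k + 3) := by rw [← pow_add]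
      _ ≤ φ ^ i := pow_le_pow_right₀ one_lt_goldenRatio.le h
  have h2 : sa * φ ^ i - sb * 1 ≤ √5 * |x.2| := by
    calc sa * φ ^ i - sb * 1 ≤ sa * φ ^ i - sb * |ψ ^ i| := by
          have := mul_le_mul_of_nonneg_left (abs_psi_pow_le i) (show 0 ≤ sb by linarith)
          linarith
      _ = |sa * be x| - |sb * bc x| := by
          rw [hx1, hx2, abs_mul, abs_mul, abs_mul, abs_mul, he, abs_of_pos (show 0 < sa by linarith),
            abs_of_pos (show 0 < sb by linarith), abs_of_pos (pow_pos goldenRatio_pos i), one_mul,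
            one_mul]
      _ ≤ |sa * be x - sb * bc x| := abs_sub_abs_le_abs_sub _ _
      _ = √5 * |x.2| := by rw [comb, abs_mul, abs_of_pos sqrt5_pos]
  have h3 : √5 * |x.2| ≤ 2.2361 * (sb * φ ^ (k + 1) + sa) :=
    mul_le_mul s2.le (hM.trans hMk.le) (abs_nonneg _) (by norm_num)
  have h4 : 1001.618 * (φ ^ (k + 1) * 2.617) ≤ sa * φ ^ i :=
    mul_le_mul a1.le h1 (by positivity) (by linarith)
  have h5 : sb * φ ^ (k + 1) ≤ 999.382 * φ ^ (k + 1) :=
    mul_le_mul_of_nonneg_right b2.le (by linarith)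
  linarith

/-- The exponent of a small unit on the second side is small. -/
lemma exp_le_right {x : ℝ × ℝ} {e M : ℝ} (he : |e| = 1) {i k : ℕ} (hx1 : be x = e * ψ ^ i)
    (hx2 : bc x = e * φ ^ i) (hM : |x.2| ≤ M) (hk : 10 ≤ φ ^ (k + 1))
    (hMk : M < sb * φ ^ (k + 1) + sa) : i ≤ k + 2 := by
  by_contra h
  push Not at h
  obtain ⟨s1, s2⟩ := sqrt5_bounds
  obtain ⟨a1, a2⟩ := sa_bounds
  obtain ⟨b1, b2⟩ := sb_bounds
  obtain ⟨p1, p2⟩ := phi_bounds
  have h1 : φ ^ (k + 1) * 2.617 ≤ φ ^ i := by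
    calc φ ^ (k + 1) * 2.617 ≤ φ ^ (k + 1) * φ ^ 2 := by
          apply mul_le_mul_of_nonneg_left _ (by linarith)
          nlinarith
      _ = φ ^ (k + 3) := by rw [← pow_add]
      _ ≤ φ ^ i := pow_le_pow_right₀ one_lt_goldenRatio.le h
  have h2 : sb * φ ^ i - sa * 1 ≤ √5 * |x.2| := by
    calc sb * φ ^ i - sa * 1 ≤ sb * φ ^ i - sa * |ψ ^ i| := by
          have := mul_le_mul_of_nonneg_left (abs_psi_pow_le i) (show 0 ≤ sa by linarith)
          linarith
      _ = |sb * bc x| - |sa * be x| := by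
          rw [hx1, hx2, abs_mul, abs_mul, abs_mul, abs_mul, he, abs_of_pos (show 0 < sa by linarith),
            abs_of_pos (show 0 < sb by linarith), abs_of_pos (pow_pos goldenRatio_pos i), one_mul,
            one_mul]
      _ ≤ |sb * bc x - sa * be x| := abs_sub_abs_le_abs_sub _ _
      _ = |sa * be x - sb * bc x| := abs_sub_comm _ _
      _ = √5 * |x.2| := by rw [comb, abs_mul, abs_of_pos sqrt5_pos]
  have h3 : √5 * |x.2| ≤ 2.2361 * (sb * φ ^ (k + 1) + sa) :=
    mul_le_mul s2.le (hM.trans hMk.le) (abs_nonneg _) (by norm_num)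
  have h4 : 999.38195 * (φ ^ (k + 1) * 2.617) ≤ sb * φ ^ i :=
    mul_le_mul b1.le h1 (by positivity) (by linarith)
  have h5 : sb * φ ^ (k + 1) ≤ 999.382 * φ ^ (k + 1) :=
    mul_le_mul_of_nonneg_right b2.le (by linarith)
  linarith

/-- Two vectors on the sails give a bad approximation. -/
lemma rho_of_gcf {N : ℤ} {v₁ v₂ : ℤ × ℤ} (hv : IntArr N v₁ v₂) (h₁ : pt v₁ ∈ gcf dp dq)
    (h₂ : pt v₂ ∈ gcf dp dq) {k : ℕ} (hk : 10 ≤ φ ^ (k + 1))
    (hMk : (N : ℝ) < sb * φ ^ (k + 1) + sa) :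
    min (2 / 5) (38000 * r ^ k) ≤ rho dp dq (pt v₁) (pt v₂) := by
  obtain ⟨c1, c2, hD, hs1, hs2⟩ := hv
  obtain ⟨i, e, he, hi1, hi2⟩ := unit_class (nrm_of_mem_gcf c1 h₁)
  obtain ⟨j, f, hf, hj1, hj2⟩ := unit_class (nrm_of_mem_gcf c2 h₂)
  have hDR : (pt v₁).1 * (pt v₂).2 - (pt v₁).2 * (pt v₂).1 ≠ 0 := by
    simp only [pt]
    exact_mod_cast hD
  have hn1 : |(pt v₁).2| ≤ (N : ℝ) := by
    simp only [pt]
    exact_mod_cast (le_max_right _ _).trans hs1
  have hn2 : |(pt v₂).2| ≤ (N : ℝ) := by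
    simp only [pt]
    exact_mod_cast (le_max_right _ _).trans hs2
  rcases le_or_gt 0 (i * j) with h | h
  · exact (min_le_left _ _).trans (same_side h he hf hi1 hi2 hj1 hj2 hDR)
  · have habs : ∀ (m : ℕ) (z : ℝ), |z| = 1 → |z * (-1) ^ m| = 1 := by
      intro m z hz
      rw [abs_mul, hz, abs_pow, abs_neg, abs_one, one_pow, one_mul]
    rcases lt_trichotomy i 0 with hi | hi | hi
    · have hj : 0 < j := by
        by_contra hj
        push Not at hj
        have := mul_nonneg_of_nonpos_of_nonpos hi.le hj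
        omega
      obtain ⟨m, rfl⟩ : ∃ m : ℕ, i = -(m : ℤ) := ⟨(-i).toNat, by omega⟩
      obtain ⟨n, rfl⟩ : ∃ n : ℕ, j = (n : ℤ) := ⟨j.toNat, by omega⟩
      rw [zpow_natCast] at hj1 hj2
      rw [phi_zpow_neg, ← mul_assoc] at hi1
      rw [psi_zpow_neg, ← mul_assoc] at hi2
      have hnk := exp_le_left hf hj1 hj2 hn2 hk hMk
      have hmk := exp_le_right (habs m e he) hi1 hi2 hn1 hk hMk
      rw [rho_comm]
      exact opp_side (by omega) (by omega) hnk hmk hf (habs m e he) hj1 hj2 hi1 hi2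
    · rw [hi] at h
      simp at h
    · have hj : j < 0 := by
        by_contra hj
        push Not at hj
        have := mul_nonneg hi.le hj
        omega
      obtain ⟨m, rfl⟩ : ∃ m : ℕ, j = -(m : ℤ) := ⟨(-j).toNat, by omega⟩
      obtain ⟨n, rfl⟩ : ∃ n : ℕ, i = (n : ℤ) := ⟨i.toNat, by omega⟩
      rw [zpow_natCast] at hi1 hi2
      rw [phi_zpow_neg, ← mul_assoc] at hj1
      rw [psi_zpow_neg, ← mul_assoc] at hj2
      have hnk := exp_le_left he hi1 hi2 hn1 hk hMk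
      have hmk := exp_le_right (habs m f hf) hj1 hj2 hn2 hk hMk
      exact opp_side (by omega) (by omega) hnk hmk he (habs m f hf) hi1 hi2 hj1 hj2

lemma size_le {N : ℤ} {v : ℤ × ℤ} {M : ℝ} (h1 : sa * |be (pt v)| + sb * |bc (pt v)| ≤ √5 * M)
    (h2 : |be (pt v)| + |bc (pt v)| ≤ √5 * M) (hM : M ≤ N) : max |v.1| |v.2| ≤ N := by
  have h5 := sqrt5_pos
  obtain ⟨a1, a2⟩ := sa_bounds
  obtain ⟨b1, b2⟩ := sb_bounds
  have g1 : |(v.1 : ℝ)| ≤ M := by
    have : √5 * |(v.1 : ℝ)| ≤ √5 * M := by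
      calc √5 * |(v.1 : ℝ)| = |√5 * (pt v).1| := by rw [abs_mul, abs_of_pos h5]; rfl
        _ = |be (pt v) - bc (pt v)| := by rw [be_sub_bc]
        _ ≤ |be (pt v)| + |bc (pt v)| := abs_sub _ _
        _ ≤ _ := h2
    exact le_of_mul_le_mul_left this h5
  have g2 : |(v.2 : ℝ)| ≤ M := by
    have : √5 * |(v.2 : ℝ)| ≤ √5 * M := by
      calc √5 * |(v.2 : ℝ)| = |√5 * (pt v).2| := by rw [abs_mul, abs_of_pos h5]; rfl
        _ = |sa * be (pt v) - sb * bc (pt v)| := by rw [comb]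
        _ ≤ |sa * be (pt v)| + |sb * bc (pt v)| := abs_sub _ _
        _ = sa * |be (pt v)| + sb * |bc (pt v)| := by
            rw [abs_mul, abs_mul, abs_of_pos (show 0 < sa by linarith),
              abs_of_pos (show 0 < sb by linarith)]
        _ ≤ _ := h1
    exact le_of_mul_le_mul_left this h5
  apply max_le
  · exact_mod_cast g1.trans hM
  · exact_mod_cast g2.trans hM

lemma coprime_of_nrm {v : ℤ × ℤ} (h : |nrm v| = 1 ∨ |nrm v| = 5) : IsCoprime v.1 v.2 := by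
  rw [Int.isCoprime_iff_gcd_eq_one]
  set d := Int.gcd v.1 v.2 with hd
  obtain ⟨a, ha⟩ : (d : ℤ) ∣ v.1 := Int.gcd_dvd_left ..
  obtain ⟨b, hb⟩ : (d : ℤ) ∣ v.2 := Int.gcd_dvd_right ..
  have h1 : (d : ℤ) * d ∣ nrm v := by
    refine ⟨b ^ 2 - 2001 * a * b + 1000999 * a ^ 2, ?_⟩
    unfold nrm
    rw [ha, hb]
    ring
  have h2 : (d : ℤ) * d ∣ 5 := by
    rcases h with h | h
    · have h3 : (d : ℤ) * d ∣ 1 := by rw [← h]; exact (dvd_abs _ _).2 h1
      exact h3.trans (one_dvd _)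
    · rw [← h]; exact (dvd_abs _ _).2 h1
  have h3 : (d : ℤ) * d ≤ 5 := Int.le_of_dvd (by norm_num) h2
  have h4 : d ≤ 2 := by
    by_contra h5
    push Not at h5
    have : (3 : ℤ) ≤ d := by exact_mod_cast h5
    nlinarith
  interval_cases d
  · norm_num at h2
  · rfl
  · norm_num at h2

/-- A good approximation. -/
lemma exists_better {N : ℤ} {k : ℕ} (hk : 2 * 1000999 * r ^ k ≤ 10)
    (hN : sb * φ ^ k + sa ≤ N) :
    ∃ v₁ v₂, IntArr N v₁ v₂ ∧ rho dp dq (pt v₁) (pt v₂) ≤ 2100 * r ^ k := by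
  have h5 := sqrt5_pos
  obtain ⟨s1, s2⟩ := sqrt5_bounds
  obtain ⟨a1, a2⟩ := sa_bounds
  obtain ⟨b1, b2⟩ := sb_bounds
  have hφ := goldenRatio_pos
  have hA : 1 ≤ φ ^ k := one_le_pow₀ one_lt_goldenRatio.le
  have hψ := abs_psi_pow_le k
  have hab : φ ^ k * ψ ^ k = (-1) ^ k := by rw [← mul_pow, goldenRatio_mul_goldenConj]
  obtain ⟨x, hx1, hx2⟩ := exists_unit k
  rw [zpow_natCast] at hx1 hx2
  obtain ⟨y, hy1, hy2⟩ := exists_mul (2, 2001) (-(k : ℤ))
  have hy3 : be (pt (2, 2001)) = √5 := by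
    simp only [be, pt, sb]
    have e1 := goldenRatio_add_goldenConj
    have e2 := goldenRatio_sub_goldenConj
    push_cast
    linarith
  have hy4 : bc (pt (2, 2001)) = -√5 := by
    simp only [bc, pt, sa]
    have e1 := goldenRatio_add_goldenConj
    have e2 := goldenRatio_sub_goldenConj
    push_cast
    linarith
  have hy5 : be (pt y) = ((-1) ^ k * √5) * ψ ^ k := by
    rw [hy1, hy3, phi_zpow_neg]
    ring
  have hy6 : bc (pt y) = -(((-1) ^ k * √5) * φ ^ k) := by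
    rw [hy2, hy4, psi_zpow_neg]
    ring
  have hone : |(-1 : ℝ) ^ k| = 1 := by rw [abs_pow, abs_neg, abs_one, one_pow]
  have hone2 : ((-1 : ℝ) ^ k) * (-1) ^ k = 1 := by
    rw [← mul_pow]
    norm_num
  have hnx : |nrm x| = 1 := by
    have h1 : |(nrm x : ℝ)| = 1 := by
      rw [← be_mul_bc, hx1, hx2, one_mul, one_mul, hab, hone]
    exact_mod_cast h1
  have hny : |nrm y| = 5 := by
    have h1 : |(nrm y : ℝ)| = 5 := by
      rw [← be_mul_bc, hy5, hy6]
      have : (-1) ^ k * √5 * ψ ^ k * -((-1) ^ k * √5 * φ ^ k) =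
          -(((-1 : ℝ) ^ k * (-1) ^ k) * (√5 * √5) * (φ ^ k * ψ ^ k)) := by ring
      rw [this, hone2, sqrt5_sq, hab, one_mul, abs_neg, abs_mul, hone]
      norm_num
    exact_mod_cast h1
  refine ⟨x, y, ⟨coprime_of_nrm (Or.inl hnx), coprime_of_nrm (Or.inr hny), ?_, ?_, ?_⟩, ?_⟩
  · intro h0
    have h1 := det_eq (pt x) (pt y)
    have h2 : (pt x).1 * (pt y).2 - (pt x).2 * (pt y).1 = 0 := by
      simp only [pt]
      exact_mod_cast h0
    rw [h2, mul_zero, hx1, hx2, hy5, hy6] at h1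
    have h3 : (-1) ^ k * √5 * (φ ^ k * φ ^ k + ψ ^ k * ψ ^ k) = 0 := by linear_combination h1
    have h4 : (-1 : ℝ) ^ k * √5 ≠ 0 := by positivity
    have h6 : φ ^ k * φ ^ k + ψ ^ k * ψ ^ k = 0 := (mul_eq_zero.1 h3).resolve_left h4
    nlinarith [mul_self_nonneg (ψ ^ k)]
  · have e1 : |be (pt x)| = φ ^ k := by rw [hx1, one_mul, abs_of_pos (by linarith)]
    have e2 : |bc (pt x)| ≤ 1 := by rw [hx2, one_mul]; exact hψ
    have e3 : sb * |bc (pt x)| ≤ sb * 1 := mul_le_mul_of_nonneg_left e2 (by linarith)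
    have e4 : 2.236 * (sb * φ ^ k + sa) ≤ √5 * (sb * φ ^ k + sa) :=
      mul_le_mul_of_nonneg_right s1.le (by positivity)
    have e5 : 999.38195 * φ ^ k ≤ sb * φ ^ k := mul_le_mul_of_nonneg_right b1.le (by linarith)
    have e6 : sa * φ ^ k ≤ 1001.61805 * φ ^ k := mul_le_mul_of_nonneg_right a2.le (by linarith)
    refine size_le (M := sb * φ ^ k + sa) ?_ ?_ hN
    · rw [e1]
      linarith
    · rw [e1]
      linarith
  · have e1 : |be (pt y)| ≤ √5 := by
      rw [hy5, abs_mul, abs_mul, hone, abs_of_pos h5, one_mul]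
      exact mul_le_of_le_one_right h5.le hψ
    have e2 : |bc (pt y)| = √5 * φ ^ k := by
      rw [hy6, abs_neg, abs_mul, abs_mul, hone, abs_of_pos h5, one_mul, abs_of_pos (by linarith)]
    have e3 : sa * |be (pt y)| ≤ sa * √5 := mul_le_mul_of_nonneg_left e1 (by linarith)
    have e5 : √5 * φ ^ k ≤ √5 * (sb * φ ^ k) := by
      apply mul_le_mul_of_nonneg_left _ h5.le
      nlinarith
    have e6 : √5 ≤ √5 * sa := by nlinarith
    refine size_le (M := sb * φ ^ k + sa) ?_ ?_ hN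
    · rw [e2]
      linarith
    · rw [e2]
      linarith
  · exact rho_better hk one_ne_zero (by positivity) hx1 hx2 hy5 hy6

theorem best_off_sails {N : ℤ} (hN : 1000000 ≤ N) {v₁ v₂ : ℤ × ℤ} (hb : IsBest dp dq N v₁ v₂) :
    ¬(pt v₁ ∈ gcf dp dq ∧ pt v₂ ∈ gcf dp dq) := by
  rintro ⟨h₁, h₂⟩
  obtain ⟨a1, a2⟩ := sa_bounds
  obtain ⟨b1, b2⟩ := sb_bounds
  obtain ⟨p1, p2⟩ := phi_bounds
  have hNR : (1000000 : ℝ) ≤ N := by exact_mod_cast hN
  have hsb : 0 < sb := by linarith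
  have hX : 990 ≤ ((N : ℝ) - sa) / sb := by
    rw [le_div_iff₀ hsb]
    linarith
  obtain ⟨k, hk1, hk2⟩ := exists_nat_pow_near (show 1 ≤ ((N : ℝ) - sa) / sb by linarith)
    one_lt_goldenRatio
  rw [le_div_iff₀ hsb] at hk1
  have hk3 : 990 < φ ^ (k + 1) := lt_of_le_of_lt hX hk2
  rw [div_lt_iff₀ hsb] at hk2
  have hk4 : 600 < φ ^ k := by
    rw [pow_succ] at hk3
    by_contra h
    push Not at h
    have : φ ^ k * φ ≤ 600 * 1.61805 := mul_le_mul h p2.le (by linarith) (by norm_num)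
    linarith
  have hr : r ^ k * (φ ^ k * φ ^ k) = 1 := by
    rw [← mul_pow, ← mul_pow, ← pow_two, r_mul_phi_sq, one_pow]
  have hrk : 0 < r ^ k := pow_pos r_pos k
  have hr2 : r ^ k * 360000 ≤ 1 := by
    rw [← hr]
    apply mul_le_mul_of_nonneg_left _ hrk.le
    nlinarith
  obtain ⟨w₁, w₂, hw, hρ⟩ := exists_better (N := N) (k := k) (by linarith) (by linarith)
  have h3 := hb.2 w₁ w₂ hw
  have h4 := rho_of_gcf hb.1 h₁ h₂ (k := k) (by linarith) (by linarith)
  have h5 : 2100 * r ^ k < min (2 / 5) (38000 * r ^ k) := by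
    rw [lt_min_iff]
    constructor <;> linarith
  linarith

theorem exists_best (p q : ℝ × ℝ) {N : ℤ} (hN : 1 ≤ N) : ∃ v₁ v₂, IsBest p q N v₁ v₂ := by
  have hfin : {w : (ℤ × ℤ) × (ℤ × ℤ) | IntArr N w.1 w.2}.Finite := by
    apply Set.Finite.subset (((Set.finite_Icc (-N) N).prod (Set.finite_Icc (-N) N)).prod
      ((Set.finite_Icc (-N) N).prod (Set.finite_Icc (-N) N)))
    rintro ⟨⟨a, b⟩, ⟨c, d⟩⟩ ⟨_, _, _, h1, h2⟩
    simp only [max_le_iff, abs_le] at h1 h2
    simp only [Set.mem_prod, Set.mem_Icc]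
    tauto
  have hne : {w : (ℤ × ℤ) × (ℤ × ℤ) | IntArr N w.1 w.2}.Nonempty := by
    refine ⟨((1, 0), (0, 1)), ?_, ?_, ?_, ?_, ?_⟩
    · exact isCoprime_one_left
    · exact isCoprime_one_right
    · norm_num
    · simpa using hN
    · simpa using hN
  obtain ⟨w, hw, hmin⟩ := Set.exists_min_image _ (fun w => rho p q (pt w.1) (pt w.2)) hfin hne
  exact ⟨w.1, w.2, hw, fun u₁ u₂ hu => hmin (u₁, u₂) hu⟩

theorem algebraic_dp_dq : Algebraic dp dq := by
  have e1 := goldenRatio_add_goldenConj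
  have e2 := goldenRatio_mul_goldenConj
  have e3 := goldenRatio_sq
  have e4 := goldenConj_sq
  refine ⟨?_, !![-1000, 1; -1000999, 1001], ?_, ?_, ⟨φ, ?_, ?_⟩, ⟨ψ, ?_, ?_⟩⟩
  · have h5 := sqrt5_pos
    have := sa_sub_sb
    simp only [dp, dq]
    intro h
    linarith
  · rw [Matrix.det_fin_two]
    norm_num
  · rw [Matrix.charpoly_fin_two, Matrix.trace_fin_two, Matrix.det_fin_two]
    simp only [Matrix.of_apply, Matrix.cons_val', Matrix.cons_val_zero, Matrix.cons_val_one,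
      Matrix.cons_val_fin_one, Polynomial.map_add, Polynomial.map_sub, Polynomial.map_pow,
      Polynomial.map_X, Polynomial.map_mul, Polynomial.map_C]
    norm_num
    have hp : (Polynomial.X ^ 2 - Polynomial.X + -1 : Polynomial ℚ) =
        Polynomial.C 1 * Polynomial.X ^ 2 + Polynomial.C (-1) * Polynomial.X + Polynomial.C (-1) := by
      simp only [map_neg, map_one]
      ring
    have hdeg : (Polynomial.X ^ 2 - Polynomial.X + -1 : Polynomial ℚ).natDegree = 2 := by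
      rw [hp]
      exact Polynomial.natDegree_quadratic one_ne_zero
    have hmon : (Polynomial.X ^ 2 - Polynomial.X + -1 : Polynomial ℚ).Monic := by
      rw [hp]
      exact Polynomial.leadingCoeff_quadratic one_ne_zero
    rw [hmon.irreducible_iff_roots_eq_zero_of_degree_le_three (by omega) (by omega)]
    rw [Multiset.eq_zero_iff_forall_notMem]
    intro t ht
    rw [Polynomial.mem_roots hmon.ne_zero, Polynomial.IsRoot.def] at ht
    simp only [Polynomial.eval_add, Polynomial.eval_sub, Polynomial.eval_pow, Polynomial.eval_X,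
      Polynomial.eval_neg, Polynomial.eval_one] at ht
    have h1 : ((t : ℝ) - φ) * (t - ψ) = 0 := by
      have h2 : ((t : ℝ)) ^ 2 - t + -1 = 0 := by exact_mod_cast ht
      linear_combination h2 - t * e1 + e2
    rcases mul_eq_zero.1 h1 with h | h
    · exact goldenRatio_irrational ⟨t, by linarith⟩
    · exact goldenConj_irrational ⟨t, by linarith⟩
  · simp only [dp, sa, Matrix.of_apply, Matrix.cons_val', Matrix.cons_val_zero, Matrix.cons_val_one,
      Matrix.cons_val_fin_one]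
    push_cast
    ring
  · simp only [dp, sa, Matrix.of_apply, Matrix.cons_val', Matrix.cons_val_zero, Matrix.cons_val_one,
      Matrix.cons_val_fin_one]
    push_cast
    linear_combination -e3
  · simp only [dq, sb, Matrix.of_apply, Matrix.cons_val', Matrix.cons_val_zero, Matrix.cons_val_one,
      Matrix.cons_val_fin_one]
    push_cast
    ring
  · simp only [dq, sb, Matrix.of_apply, Matrix.cons_val', Matrix.cons_val_zero, Matrix.cons_val_one,
      Matrix.cons_val_fin_one]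
    push_cast
    linear_combination -e4

end Pool.Agent.R334.SA
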