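import Pool.Agent.R334.SABound

/-!
# Comparison of the discrepancies
-/

set_option autoImplicit false

namespace Pool.Agent.R334.SA

open Real goldenRatio

lemma r_pos : 0 < r := by linarith [r_bounds.1]

lemma r_le_one : r ≤ 1 := by linarith [r_bounds.2]

/-- The quotient of the conjugates of `φ`. -/
noncomputable def sg : ℝ := -r

lemma abs_sg_pow (n : ℕ) : |sg ^ n| = r ^ n := by
  rw [abs_pow, sg, abs_neg, abs_of_pos r_pos]

lemma psi_eq_sg : ψ = sg * φ := by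
  unfold sg r
  have := goldenRatio_mul_goldenConj
  calc ψ = -ψ * (φ * ψ) := by rw [this]; ring
    _ = -ψ ^ 2 * φ := by ring

lemma ab_facts : (1003238 : ℝ) < sa ^ 2 ∧ sa ^ 2 < 1003239 ∧ 998764 < sb ^ 2 ∧ sb ^ 2 < 998765 := by
  obtain ⟨h1, h2⟩ := sa_bounds
  obtain ⟨h3, h4⟩ := sb_bounds
  refine ⟨?_, ?_, ?_, ?_⟩ <;> nlinarith

lemma numer_ge {i m k : ℕ} (hi : 1 ≤ i) (hm : 1 ≤ m) (hik : i ≤ k + 2) (hmk : m ≤ k + 2) :
    100000 * r ^ k ≤ |sa ^ 2 * sg ^ m + sb ^ 2 * sg ^ i - 2 * (sa * sb) * sg ^ (i + m)| := by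
  obtain ⟨a1, a2, b1, b2⟩ := ab_facts
  obtain ⟨r1, r2⟩ := r_bounds
  have hr0 := r_pos
  have hr1 := r_le_one
  have hk := pow_pos hr0 k
  rw [sa_mul_sb]
  have habs : ∀ x y z : ℝ, |x| - |y| - |z| ≤ |x + y - z| := by
    intro x y z
    have h1 := abs_sub_abs_le_abs_sub (x + y) z
    have h2 := abs_sub_abs_le_abs_sub x (-y)
    rw [abs_neg, sub_neg_eq_add] at h2
    linarith
  have habs' : ∀ x y z : ℝ, |y| - |x| - |z| ≤ |x + y - z| := by
    intro x y z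
    rw [add_comm x y]
    exact habs y x z
  have hX : |sa ^ 2 * sg ^ m| = sa ^ 2 * r ^ m := by
    rw [abs_mul, abs_sg_pow, abs_of_pos (by linarith)]
  have hY : |sb ^ 2 * sg ^ i| = sb ^ 2 * r ^ i := by
    rw [abs_mul, abs_sg_pow, abs_of_pos (by linarith)]
  have hZ : |2 * 1000999 * sg ^ (i + m)| = 2 * 1000999 * r ^ (i + m) := by
    rw [abs_mul, abs_sg_pow, abs_of_pos (by norm_num)]
  rcases lt_trichotomy m i with h | h | h
  · refine le_trans ?_ (habs _ _ _)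
    rw [hX, hY, hZ]
    have h1 : r ^ i ≤ r ^ m * r := by
      rw [← pow_succ]
      exact pow_le_pow_of_le_one hr0.le hr1 h
    have h2 : r ^ (i + m) ≤ r ^ m * r ^ 2 := by
      rw [← pow_add]
      exact pow_le_pow_of_le_one hr0.le hr1 (by omega)
    have h3 : r ^ k * r ≤ r ^ m := by
      rw [← pow_succ]
      exact pow_le_pow_of_le_one hr0.le hr1 (by omega)
    have h4 : 0 < r ^ m := pow_pos hr0 m
    have h5 : sb ^ 2 * r ^ i ≤ 998765 * (r ^ m * r) := by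
      apply mul_le_mul b2.le h1 (by positivity) (by norm_num)
    have h6 : 1003238 * r ^ m ≤ sa ^ 2 * r ^ m := mul_le_mul_of_nonneg_right a1.le h4.le
    have h7 : r ^ m * r ≤ r ^ m * 0.382 := mul_le_mul_of_nonneg_left r2.le h4.le
    have h8 : r ^ m * r ^ 2 ≤ r ^ m * 0.146 := by
      apply mul_le_mul_of_nonneg_left _ h4.le
      nlinarith
    have h9 : r ^ k * 0.38195 ≤ r ^ k * r := mul_le_mul_of_nonneg_left r1.le hk.le
    linarith
  · subst h
    have h1 : sa ^ 2 * sg ^ m + sb ^ 2 * sg ^ m - 2 * 1000999 * sg ^ (m + m) =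
        sg ^ m * (sa ^ 2 + sb ^ 2 - 2 * 1000999 * sg ^ m) := by ring
    rw [h1, abs_mul, abs_sg_pow]
    have h2 : r ^ k * r ^ 2 ≤ r ^ m := by
      rw [← pow_add]
      exact pow_le_pow_of_le_one hr0.le hr1 hik
    have h3 : r ^ m ≤ r := by
      calc r ^ m ≤ r ^ 1 := pow_le_pow_of_le_one hr0.le hr1 hi
        _ = r := pow_one r
    have h4 : sg ^ m ≤ r := (le_abs_self _).trans ((abs_sg_pow m).le.trans h3)
    have h5 : (1000000 : ℝ) ≤ |sa ^ 2 + sb ^ 2 - 2 * 1000999 * sg ^ m| := by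
      refine le_trans ?_ (le_abs_self _)
      linarith
    have h6 : r ^ k * 0.145 ≤ r ^ k * r ^ 2 := by
      apply mul_le_mul_of_nonneg_left _ hk.le
      nlinarith
    calc 100000 * r ^ k ≤ (r ^ k * 0.145) * 1000000 := by linarith
      _ ≤ r ^ m * |sa ^ 2 + sb ^ 2 - 2 * 1000999 * sg ^ m| :=
        mul_le_mul (h6.trans h2) h5 (by norm_num) (by positivity)
  · refine le_trans ?_ (habs' _ _ _)
    rw [hX, hY, hZ]
    have h1 : r ^ m ≤ r ^ i * r := by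
      rw [← pow_succ]
      exact pow_le_pow_of_le_one hr0.le hr1 h
    have h2 : r ^ (i + m) ≤ r ^ i * r ^ 2 := by
      rw [← pow_add]
      exact pow_le_pow_of_le_one hr0.le hr1 (by omega)
    have h3 : r ^ k * r ≤ r ^ i := by
      rw [← pow_succ]
      exact pow_le_pow_of_le_one hr0.le hr1 (by omega)
    have h4 : 0 < r ^ i := pow_pos hr0 i
    have h5 : sa ^ 2 * r ^ m ≤ 1003239 * (r ^ i * r) := by
      apply mul_le_mul a2.le h1 (by positivity) (by norm_num)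
    have h6 : 998764 * r ^ i ≤ sb ^ 2 * r ^ i := mul_le_mul_of_nonneg_right b1.le h4.le
    have h7 : r ^ i * r ≤ r ^ i * 0.382 := mul_le_mul_of_nonneg_left r2.le h4.le
    have h8 : r ^ i * r ^ 2 ≤ r ^ i * 0.146 := by
      apply mul_le_mul_of_nonneg_left _ h4.le
      nlinarith
    have h9 : r ^ k * 0.38195 ≤ r ^ k * r := mul_le_mul_of_nonneg_left r1.le hk.le
    linarith

/-- Vectors on different sides. -/
lemma opp_side {i m k : ℕ} (hi : 1 ≤ i) (hm : 1 ≤ m) (hik : i ≤ k + 2) (hmk : m ≤ k + 2)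
    {e₁ e₂ : ℝ} (he₁ : |e₁| = 1) (he₂ : |e₂| = 1)
    {x y : ℝ × ℝ} (hx1 : be x = e₁ * φ ^ i) (hx2 : bc x = e₁ * ψ ^ i)
    (hy1 : be y = e₂ * ψ ^ m) (hy2 : bc y = e₂ * φ ^ m) :
    min (2 / 5) (38000 * r ^ k) ≤ rho dp dq x y := by
  have h5 := sqrt5_pos
  obtain ⟨s1, s2⟩ := sqrt5_bounds
  have hφ := goldenRatio_pos
  have hr0 := r_pos
  obtain ⟨r1, r2⟩ := r_bounds
  have he1 : e₁ ≠ 0 := by intro h; rw [h] at he₁; simp at he₁
  have he2 : e₂ ≠ 0 := by intro h; rw [h] at he₂; simp at he₂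
  have hA : 0 < φ ^ i := pow_pos hφ i
  have hC : 0 < φ ^ m := pow_pos hφ m
  have hB : ψ ^ i = sg ^ i * φ ^ i := by rw [psi_eq_sg, mul_pow]
  have hE : ψ ^ m = sg ^ m * φ ^ m := by rw [psi_eq_sg, mul_pow]
  have hsi : |sg ^ i| ≤ 0.382 := by
    rw [abs_sg_pow]
    calc r ^ i ≤ r ^ 1 := pow_le_pow_of_le_one hr0.le r_le_one hi
      _ = r := pow_one r
      _ ≤ 0.382 := r2.le
  have hsm : |sg ^ m| ≤ 0.382 := by
    rw [abs_sg_pow]
    calc r ^ m ≤ r ^ 1 := pow_le_pow_of_le_one hr0.le r_le_one hm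
      _ = r := pow_one r
      _ ≤ 0.382 := r2.le
  have hsim : |sg ^ i * sg ^ m| ≤ 0.15 := by
    rw [abs_mul]
    calc |sg ^ i| * |sg ^ m| ≤ 0.382 * 0.382 := mul_le_mul hsi hsm (abs_nonneg _) (by norm_num)
      _ ≤ 0.15 := by norm_num
  rw [abs_le] at hsi hsm hsim
  have hden : 0 < 1 - sg ^ i * sg ^ m := by linarith
  have hT : cyy x y = -((1 - sg ^ i) * (1 - sg ^ m)) / (√5 * (1 - sg ^ i * sg ^ m)) := by
    rw [cyy_eq, hx1, hx2, hy1, hy2, hB, hE]
    have h1 : (√5 * (e₁ * φ ^ i * (e₂ * φ ^ m) - e₁ * (sg ^ i * φ ^ i) * (e₂ * (sg ^ m * φ ^ m)))) =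
        (e₁ * e₂ * φ ^ i * φ ^ m) * (√5 * (1 - sg ^ i * sg ^ m)) := by ring
    have h2 : (e₁ * φ ^ i - e₁ * (sg ^ i * φ ^ i)) * (e₂ * (sg ^ m * φ ^ m) - e₂ * φ ^ m) =
        (e₁ * e₂ * φ ^ i * φ ^ m) * (-((1 - sg ^ i) * (1 - sg ^ m))) := by ring
    rw [h1, h2, mul_div_mul_left _ _ (by positivity)]
  have hP : cxx x y = -((sa - sb * sg ^ i) * (sb - sa * sg ^ m)) / (√5 * (1 - sg ^ i * sg ^ m)) := by
    rw [cxx_eq, hx1, hx2, hy1, hy2, hB, hE]
    have h1 : (√5 * (e₁ * φ ^ i * (e₂ * φ ^ m) - e₁ * (sg ^ i * φ ^ i) * (e₂ * (sg ^ m * φ ^ m)))) =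
        (e₁ * e₂ * φ ^ i * φ ^ m) * (√5 * (1 - sg ^ i * sg ^ m)) := by ring
    have h2 : (sa * (e₁ * φ ^ i) - sb * (e₁ * (sg ^ i * φ ^ i))) *
        (sa * (e₂ * (sg ^ m * φ ^ m)) - sb * (e₂ * φ ^ m)) =
        (e₁ * e₂ * φ ^ i * φ ^ m) * (-((sa - sb * sg ^ i) * (sb - sa * sg ^ m))) := by ring
    rw [h1, h2, mul_div_mul_left _ _ (by positivity)]
  unfold rho
  apply le_min
  · refine (min_le_left _ _).trans (le_max_of_le_right (le_max_of_le_right ?_))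
    have h1 : cyy x y < 0 := by
      rw [hT]
      apply div_neg_of_neg_of_pos
      · have : 0 < (1 - sg ^ i) * (1 - sg ^ m) := mul_pos (by linarith) (by linarith)
        linarith
      · positivity
    have h2 : cyy dp dq ≤ -(2 / 5) := by
      rw [cyy_dp_dq, neg_div, neg_le_neg_iff, le_div_iff₀ h5]
      linarith
    rw [abs_of_neg (by linarith)]
    linarith
  · refine (min_le_right _ _).trans (le_max_of_le_left ?_)
    have h1 : cxx dp dq - cxx x y = -(sa ^ 2 * sg ^ m + sb ^ 2 * sg ^ i - 2 * (sa * sb) * sg ^ (i + m)) /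
        (√5 * (1 - sg ^ i * sg ^ m)) * (-1) * (-1) := by
      rw [cxx_dp_dq, hP, pow_add]
      field_simp
      ring
    have h2 := numer_ge hi hm hik hmk
    rw [h1, abs_mul, abs_mul, abs_neg, abs_one, mul_one, mul_one, abs_div, abs_neg,
      abs_of_pos (show 0 < √5 * (1 - sg ^ i * sg ^ m) by positivity), le_div_iff₀ (by positivity)]
    refine le_trans ?_ h2
    have h3 : √5 * (1 - sg ^ i * sg ^ m) ≤ 2.2361 * 1.15 := by
      apply mul_le_mul s2.le _ hden.le (by norm_num)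
      linarith
    have h4 : 0 < r ^ k := pow_pos hr0 k
    calc 38000 * r ^ k * (√5 * (1 - sg ^ i * sg ^ m)) ≤ 38000 * r ^ k * (2.2361 * 1.15) :=
          mul_le_mul_of_nonneg_left h3 (by positivity)
      _ ≤ 100000 * r ^ k := by nlinarith

/-- The discrepancy of the better arrangement. -/
lemma rho_better {k : ℕ} (hk : 2 * 1000999 * r ^ k ≤ 10) {e₁ e₂ : ℝ} (he₁ : e₁ ≠ 0) (he₂ : e₂ ≠ 0)
    {x y : ℝ × ℝ} (hx1 : be x = e₁ * φ ^ k) (hx2 : bc x = e₁ * ψ ^ k)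
    (hy1 : be y = e₂ * ψ ^ k) (hy2 : bc y = -(e₂ * φ ^ k)) :
    rho dp dq x y ≤ 2100 * r ^ k := by
  have h5 := sqrt5_pos
  obtain ⟨s1, s2⟩ := sqrt5_bounds
  have hφ := goldenRatio_pos
  have hr0 := r_pos
  obtain ⟨r1, r2⟩ := r_bounds
  obtain ⟨a1, a2, b1, b2⟩ := ab_facts
  have hA : 0 < φ ^ k := pow_pos hφ k
  have hrk : 0 < r ^ k := pow_pos hr0 k
  have hB : ψ ^ k = sg ^ k * φ ^ k := by rw [psi_eq_sg, mul_pow]
  set q := sg ^ k with hq
  have hqa : |q| = r ^ k := abs_sg_pow k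
  have hq2 : q * q = r ^ k * r ^ k := by rw [← hqa, abs_mul_abs_self]
  have hden : (1 : ℝ) ≤ 1 + q * q := by nlinarith [mul_self_nonneg q]
  have hD : √5 * (be x * bc y - bc x * be y) = -(e₁ * e₂ * φ ^ k * φ ^ k) * (√5 * (1 + q * q)) := by
    rw [hx1, hx2, hy1, hy2, hB]
    ring
  have hne : -(e₁ * e₂ * φ ^ k * φ ^ k) ≠ 0 := neg_ne_zero.2 (by positivity)
  have hT : cyy dp dq - cyy x y = -(2 * (q * q)) / (√5 * (1 + q * q)) := by
    rw [cyy_dp_dq, cyy_eq, hD, hx1, hx2, hy1, hy2, hB]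
    have h2 : (e₁ * φ ^ k - e₁ * (q * φ ^ k)) * (e₂ * (q * φ ^ k) - -(e₂ * φ ^ k)) =
        -(e₁ * e₂ * φ ^ k * φ ^ k) * (-((1 - q) * (1 + q))) := by ring
    rw [h2, mul_div_mul_left _ _ hne]
    field_simp
    ring
  have hP : cxx dp dq - cxx x y = -(2 * (sa * sb) * (q * q) - (sa ^ 2 - sb ^ 2) * q) /
      (√5 * (1 + q * q)) := by
    rw [cxx_dp_dq, cxx_eq, hD, hx1, hx2, hy1, hy2, hB]
    have h2 : (sa * (e₁ * φ ^ k) - sb * (e₁ * (q * φ ^ k))) *
        (sa * (e₂ * (q * φ ^ k)) - sb * -(e₂ * φ ^ k)) =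
        -(e₁ * e₂ * φ ^ k * φ ^ k) * (-((sa - sb * q) * (sb + sa * q))) := by ring
    rw [h2, mul_div_mul_left _ _ hne]
    field_simp
    ring
  have hQ : cxy dp dq - cxy x y = (2 * (sa + sb) * (q * q) - 2 * (sa - sb) * q) /
      (√5 * (1 + q * q)) := by
    rw [cxy_dp_dq, cxy_eq, hD, hx1, hx2, hy1, hy2, hB]
    have h2 : -((e₁ * φ ^ k - e₁ * (q * φ ^ k)) * (sa * (e₂ * (q * φ ^ k)) - sb * -(e₂ * φ ^ k)) +
        (e₂ * (q * φ ^ k) - -(e₂ * φ ^ k)) * (sa * (e₁ * φ ^ k) - sb * (e₁ * (q * φ ^ k)))) =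
        -(e₁ * e₂ * φ ^ k * φ ^ k) * ((1 - q) * (sb + sa * q) + (1 + q) * (sa - sb * q)) := by ring
    rw [h2, mul_div_mul_left _ _ hne]
    field_simp
    ring
  have hbound : ∀ z : ℝ, |z| ≤ 4600 * r ^ k → |z / (√5 * (1 + q * q))| ≤ 2100 * r ^ k := by
    intro z hz
    rw [abs_div, abs_of_pos (show 0 < √5 * (1 + q * q) by positivity), div_le_iff₀ (by positivity)]
    refine hz.trans ?_
    have h1 : (2.236 : ℝ) ≤ √5 * (1 + q * q) := by nlinarith
    calc 4600 * r ^ k ≤ 2100 * r ^ k * 2.236 := by nlinarith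
      _ ≤ 2100 * r ^ k * (√5 * (1 + q * q)) := mul_le_mul_of_nonneg_left h1 (by positivity)
  have hqq : |q * q| ≤ r ^ k * r ^ k := by rw [abs_mul, hqa]
  have hab : sa * sb = 1000999 := sa_mul_sb
  have habp : sa + sb = 2001 := sa_add_sb
  have habm : sa - sb = √5 := sa_sub_sb
  have hsq : |sa ^ 2 - sb ^ 2| ≤ 4476 := by
    have : sa ^ 2 - sb ^ 2 = (sa + sb) * (sa - sb) := by ring
    rw [this, habp, habm, abs_of_pos (by positivity)]
    nlinarith
  unfold rho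
  refine (min_le_right _ _).trans (max_le ?_ (max_le ?_ ?_))
  · rw [hP]
    apply hbound
    rw [abs_neg]
    calc |2 * (sa * sb) * (q * q) - (sa ^ 2 - sb ^ 2) * q|
        ≤ |2 * (sa * sb) * (q * q)| + |(sa ^ 2 - sb ^ 2) * q| := abs_sub _ _
      _ = 2 * 1000999 * |q * q| + |sa ^ 2 - sb ^ 2| * |q| := by
          rw [hab, abs_mul, abs_mul (sa ^ 2 - sb ^ 2), abs_of_pos (by norm_num : (0 : ℝ) < 2 * 1000999)]
      _ ≤ 2 * 1000999 * (r ^ k * r ^ k) + 4476 * r ^ k := by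
          rw [hqa]
          apply add_le_add
          · exact mul_le_mul_of_nonneg_left hqq (by norm_num)
          · exact mul_le_mul_of_nonneg_right hsq hrk.le
      _ = (2 * 1000999 * r ^ k) * r ^ k + 4476 * r ^ k := by ring
      _ ≤ 10 * r ^ k + 4476 * r ^ k := by
          have := mul_le_mul_of_nonneg_right hk hrk.le
          linarith
      _ ≤ 4600 * r ^ k := by linarith
  · rw [hQ]
    apply hbound
    calc |2 * (sa + sb) * (q * q) - 2 * (sa - sb) * q|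
        ≤ |2 * (sa + sb) * (q * q)| + |2 * (sa - sb) * q| := abs_sub _ _
      _ = 2 * 2001 * |q * q| + 2 * √5 * |q| := by
          rw [habp, habm, abs_mul, abs_mul (2 * √5), abs_of_pos (by norm_num : (0 : ℝ) < 2 * 2001),
            abs_of_pos (by positivity : (0 : ℝ) < 2 * √5)]
      _ ≤ 2 * 1000999 * (r ^ k * r ^ k) + 5 * r ^ k := by
          rw [hqa]
          apply add_le_add
          · exact mul_le_mul (by norm_num) hqq (abs_nonneg _) (by norm_num)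
          · exact mul_le_mul_of_nonneg_right (by linarith) hrk.le
      _ = (2 * 1000999 * r ^ k) * r ^ k + 5 * r ^ k := by ring
      _ ≤ 10 * r ^ k + 5 * r ^ k := by
          have := mul_le_mul_of_nonneg_right hk hrk.le
          linarith
      _ ≤ 4600 * r ^ k := by linarith
  · rw [hT]
    apply hbound
    rw [abs_neg, abs_mul, abs_of_pos (by norm_num : (0 : ℝ) < 2)]
    calc 2 * |q * q| ≤ 2 * 1000999 * (r ^ k * r ^ k) :=
          mul_le_mul (by norm_num) hqq (abs_nonneg _) (by norm_num)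
      _ = (2 * 1000999 * r ^ k) * r ^ k := by ring
      _ ≤ 10 * r ^ k := mul_le_mul_of_nonneg_right hk hrk.le
      _ ≤ 4600 * r ^ k := by linarith

end Pool.Agent.R334.SA
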