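import Pool.Agent.R334.SABase

/-!
# Primitive integer points on the sails
-/

set_option autoImplicit false

namespace Pool.Agent.R334.SA

open Real goldenRatio

lemma interior_of_sum {S : Set (ℝ × ℝ)} {p q : ℝ × ℝ} (hD : p.1 * q.2 - p.2 * q.1 ≠ 0)
    (hp : ∀ n : ℕ, 1 ≤ n → (n : ℝ) • p ∈ S) (hq : ∀ n : ℕ, 1 ≤ n → (n : ℝ) • q ∈ S) :
    p + q ∈ interior (convexHull ℝ S) := by
  set D := p.1 * q.2 - p.2 * q.1 with hDdef
  -- ray points
  have hray : ∀ v : ℝ × ℝ, (∀ n : ℕ, 1 ≤ n → (n : ℝ) • v ∈ S) → ∀ r : ℝ, 1 ≤ r →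
      r • v ∈ convexHull ℝ S := by
    intro v hv r hr
    obtain ⟨n, hn⟩ := exists_nat_ge r
    have hn1 : 1 ≤ n := by
      have : (1 : ℝ) ≤ n := hr.trans hn
      exact_mod_cast this
    have h1 : (1 : ℝ) • v ∈ convexHull ℝ S := by
      have := subset_convexHull ℝ S (hv 1 le_rfl)
      simpa using this
    have h2 : (n : ℝ) • v ∈ convexHull ℝ S := subset_convexHull ℝ S (hv n hn1)
    rcases eq_or_lt_of_le hn1 with h3 | h3
    · have : r = 1 := by
        rw [← h3] at hn
        push_cast at hn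
        linarith
      rw [this]
      exact h1
    · have h4 : (1 : ℝ) < n := by exact_mod_cast h3
      have h5 : 0 < (n : ℝ) - 1 := by linarith
      have h6 := (convex_convexHull ℝ S) h1 h2 (a := (n - r) / (n - 1)) (b := (r - 1) / (n - 1))
        (div_nonneg (by linarith) h5.le) (div_nonneg (by linarith) h5.le)
        (by field_simp; ring)
      rw [smul_smul, smul_smul, ← add_smul] at h6
      have h7 : (n - r) / ((n : ℝ) - 1) * 1 + (r - 1) / (n - 1) * n = r := by
        field_simp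
        ring
      rwa [h7] at h6
  have hcone : ∀ s t : ℝ, 0 < s → 0 < t → 1 < s + t → s • p + t • q ∈ convexHull ℝ S := by
    intro s t hs ht hst
    have h1 := hray p hp (s + t) hst.le
    have h2 := hray q hq (s + t) hst.le
    have h3 : 0 < s + t := by linarith
    have h4 := (convex_convexHull ℝ S) h1 h2 (a := s / (s + t)) (b := t / (s + t))
      (by positivity) (by positivity) (by field_simp)
    rw [smul_smul, smul_smul, div_mul_cancel₀ _ h3.ne', div_mul_cancel₀ _ h3.ne'] at h4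
    exact h4
  rw [mem_interior]
  refine ⟨{x | 0 < (x.1 * q.2 - x.2 * q.1) / D ∧ 0 < (p.1 * x.2 - p.2 * x.1) / D ∧
    1 < (x.1 * q.2 - x.2 * q.1) / D + (p.1 * x.2 - p.2 * x.1) / D}, ?_, ?_, ?_⟩
  · rintro x ⟨h1, h2, h3⟩
    have h4 := hcone _ _ h1 h2 h3
    have h5 : ((x.1 * q.2 - x.2 * q.1) / D) • p + ((p.1 * x.2 - p.2 * x.1) / D) • q = x := by
      ext
      · simp only [Prod.fst_add, Prod.smul_fst, smul_eq_mul]
        field_simp
        rw [hDdef]
        ring
      · simp only [Prod.snd_add, Prod.smul_snd, smul_eq_mul]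
        field_simp
        rw [hDdef]
        ring
    rwa [h5] at h4
  · have hc1 : Continuous fun x : ℝ × ℝ => (x.1 * q.2 - x.2 * q.1) / D := by fun_prop
    have hc2 : Continuous fun x : ℝ × ℝ => (p.1 * x.2 - p.2 * x.1) / D := by fun_prop
    exact (isOpen_lt continuous_const hc1).inter ((isOpen_lt continuous_const hc2).inter
      (isOpen_lt continuous_const (hc1.add hc2)))
  · have h1 : ((p + q).1 * q.2 - (p + q).2 * q.1) / D = 1 := by
      rw [div_eq_one_iff_eq hD, hDdef]
      simp only [Prod.fst_add, Prod.snd_add]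
      ring
    have h2 : (p.1 * (p + q).2 - p.2 * (p + q).1) / D = 1 := by
      rw [div_eq_one_iff_eq hD, hDdef]
      simp only [Prod.fst_add, Prod.snd_add]
      ring
    simp only [Set.mem_setOf_eq]
    rw [h1, h2]
    norm_num

/-- The directions of the two lines. -/
noncomputable def dp : ℝ × ℝ := (1, sa)

/-- The directions of the two lines. -/
noncomputable def dq : ℝ × ℝ := (1, sb)

lemma mem_angle {s t : ℝ} (hs : s = 1 ∨ s = -1) (ht : t = 1 ∨ t = -1) (x : ℝ × ℝ) :
    x ∈ closedAngle (s • dp) (t • dq) ↔ 0 ≤ s * be x ∧ 0 ≤ -(t * bc x) := by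
  have h5 := sqrt5_pos
  have hss : s * s = 1 := by rcases hs with rfl | rfl <;> norm_num
  have htt : t * t = 1 := by rcases ht with rfl | rfl <;> norm_num
  constructor
  · rintro ⟨α, γ, hα, hγ, rfl⟩
    have h1 : be (α • s • dp + γ • t • dq) = α * s * √5 := by
      rw [← sa_sub_sb]
      simp only [be, dp, dq, Prod.fst_add, Prod.snd_add, Prod.smul_fst, Prod.smul_snd, smul_eq_mul]
      ring
    have h2 : bc (α • s • dp + γ • t • dq) = -(γ * t * √5) := by
      rw [← sa_sub_sb]
      simp only [bc, dp, dq, Prod.fst_add, Prod.snd_add, Prod.smul_fst, Prod.smul_snd, smul_eq_mul]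
      ring
    rw [h1, h2]
    constructor
    · have : s * (α * s * √5) = (s * s) * (α * √5) := by ring
      rw [this, hss]
      positivity
    · have : -(t * -(γ * t * √5)) = (t * t) * (γ * √5) := by ring
      rw [this, htt]
      positivity
  · rintro ⟨h1, h2⟩
    refine ⟨s * be x / √5, -(t * bc x) / √5, by positivity, by positivity, ?_⟩
    have h3 := be_sub_bc x
    have h4 := comb x
    ext
    · simp only [dp, dq, Prod.fst_add, Prod.smul_fst, smul_eq_mul]
      have : s * be x / √5 * (s * 1) + -(t * bc x) / √5 * (t * 1) =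
        ((s * s) * be x - (t * t) * bc x) / √5 := by ring
      rw [this, hss, htt, one_mul, one_mul, h3]
      field_simp
    · simp only [dp, dq, Prod.snd_add, Prod.smul_snd, smul_eq_mul]
      have : s * be x / √5 * (s * sa) + -(t * bc x) / √5 * (t * sb) =
        ((s * s) * (sa * be x) - (t * t) * (sb * bc x)) / √5 := by ring
      rw [this, hss, htt, one_mul, one_mul, h4]
      field_simp

lemma exists_smaller {v : ℤ × ℤ} (hv : v ≠ 0) (h4 : 4 ≤ |nrm v|) :
    ∃ g : ℤ × ℤ, |nrm g| = 1 ∧ 0 < be (pt g) * be (pt v) ∧ 0 < bc (pt g) * bc (pt v) ∧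
      |be (pt g)| ≤ |be (pt v)| ∧ |bc (pt g)| ≤ |bc (pt v)| := by
  have hb := be_ne_zero hv
  have hc := bc_ne_zero hv
  have hφ := goldenRatio_pos
  have hφ1 := one_lt_goldenRatio
  have hφ2 : φ ^ 2 < 4 := by
    have := goldenRatio_lt_two
    nlinarith
  have hprod : |be (pt v)| * |bc (pt v)| = ((|nrm v| : ℤ) : ℝ) := by
    rw [← abs_mul, be_mul_bc]
    push_cast
    rfl
  have h4' : (4 : ℝ) ≤ ((|nrm v| : ℤ) : ℝ) := by exact_mod_cast h4
  -- choice of the parity
  obtain ⟨e₀, he₀⟩ : ∃ e₀ : ℤ, 0 < be (pt v) * (bc (pt v) * ψ ^ e₀) := by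
    rcases lt_or_gt_of_ne (mul_ne_zero hb hc) with h | h
    · refine ⟨1, ?_⟩
      rw [zpow_one, ← mul_assoc]
      exact mul_pos_of_neg_of_neg h goldenConj_neg
    · exact ⟨0, by simpa using h⟩
  have hx : 0 < |be (pt v)| / φ ^ e₀ := div_pos (abs_pos.2 hb) (zpow_pos hφ _)
  obtain ⟨k, hk1, hk2⟩ := exists_mem_Ico_zpow hx (show (1 : ℝ) < φ ^ 2 by nlinarith)
  set j : ℤ := 2 * k + e₀ with hj
  have hφj : φ ^ j = (φ ^ 2) ^ k * φ ^ e₀ := by
    rw [hj, zpow_add₀ hφ.ne', zpow_mul]
    norm_cast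
  have h1 : φ ^ j ≤ |be (pt v)| := by
    rw [hφj]
    rwa [le_div_iff₀ (zpow_pos hφ _)] at hk1
  have h2 : |be (pt v)| < φ ^ j * φ ^ 2 := by
    rw [hφj]
    rw [div_lt_iff₀ (zpow_pos hφ _), zpow_add_one₀ (by positivity)] at hk2
    linarith
  have hψj : ψ ^ j = (ψ ^ 2) ^ k * ψ ^ e₀ := by
    rw [hj, zpow_add₀ goldenConj_ne_zero, zpow_mul]
    norm_cast
  -- sign
  set e : ℝ := if 0 < be (pt v) then 1 else -1 with he
  have hee : 0 < e * be (pt v) ∧ |e| = 1 := by
    rw [he]
    split_ifs with h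
    · simpa using h
    · have : be (pt v) < 0 := lt_of_le_of_ne (not_lt.1 h) hb
      constructor
      · linarith
      · simp
  obtain ⟨g₀, hg₀1, hg₀2⟩ := exists_unit j
  obtain ⟨g, hg1, hg2⟩ : ∃ g : ℤ × ℤ, be (pt g) = e * φ ^ j ∧ bc (pt g) = e * ψ ^ j := by
    rw [he]
    split_ifs with h
    · exact ⟨g₀, hg₀1, hg₀2⟩
    · refine ⟨-g₀, ?_, ?_⟩
      · have : be (pt (-g₀)) = - be (pt g₀) := by
          simp only [be, pt, Prod.fst_neg, Prod.snd_neg]
          push_cast
          ring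
        rw [this, hg₀1]
        ring
      · have : bc (pt (-g₀)) = - bc (pt g₀) := by
          simp only [bc, pt, Prod.fst_neg, Prod.snd_neg]
          push_cast
          ring
        rw [this, hg₀2]
        ring
  have hpj : 0 < φ ^ j := zpow_pos hφ _
  have habs1 : |be (pt g)| = φ ^ j := by rw [hg1, abs_mul, hee.2, one_mul, abs_of_pos hpj]
  have habs2 : |bc (pt g)| = (φ ^ j)⁻¹ := by rw [hg2, abs_mul, hee.2, one_mul, abs_goldenConj_zpow]
  refine ⟨g, ?_, ?_, ?_, ?_, ?_⟩
  · have h3 : ((|nrm g| : ℤ) : ℝ) = 1 := by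
      push_cast
      rw [← be_mul_bc, abs_mul, habs1, habs2]
      exact mul_inv_cancel₀ hpj.ne'
    exact_mod_cast h3
  · rw [hg1]
    have := hee.1
    have h3 : e * φ ^ j * be (pt v) = φ ^ j * (e * be (pt v)) := by ring
    rw [h3]
    positivity
  · rw [hg2, hψj]
    have h3 : 0 < (ψ ^ 2) ^ k := zpow_pos (by have := goldenConj_ne_zero; positivity) _
    have h5 : 0 < e * (bc (pt v) * ψ ^ e₀) := by
      have h6 := hee.1
      have h7 : 0 < (e * be (pt v)) * (be (pt v) * (bc (pt v) * ψ ^ e₀)) := mul_pos h6 he₀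
      have h8 : (e * be (pt v)) * (be (pt v) * (bc (pt v) * ψ ^ e₀)) =
        (be (pt v)) ^ 2 * (e * (bc (pt v) * ψ ^ e₀)) := by ring
      rw [h8] at h7
      exact (pos_iff_pos_of_mul_pos h7).1 (by positivity)
    have h6 : e * ((ψ ^ 2) ^ k * ψ ^ e₀) * bc (pt v) = (ψ ^ 2) ^ k * (e * (bc (pt v) * ψ ^ e₀)) := by
      ring
    rw [h6]
    positivity
  · rw [habs1]
    exact h1
  · rw [habs2, inv_eq_one_div, div_le_iff₀ hpj]
    have h3 : 0 < |be (pt v)| := abs_pos.2 hb
    have h5 : |be (pt v)| * 1 ≤ |be (pt v)| * (|bc (pt v)| * φ ^ j) := by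
      rw [mul_one, ← mul_assoc, hprod]
      nlinarith
    exact le_of_mul_le_mul_left h5 h3

lemma nrm_of_mem_sail {s t : ℝ} (hs : s = 1 ∨ s = -1) (ht : t = 1 ∨ t = -1) {v : ℤ × ℤ}
    (hv : IsCoprime v.1 v.2) (hm : pt v ∈ sail (closedAngle (s • dp) (t • dq))) : |nrm v| = 1 := by
  have hv0 : v ≠ 0 := by
    rintro rfl
    have h1 : IsCoprime (0 : ℤ) 0 := hv
    rw [isCoprime_zero_left] at h1
    exact not_isUnit_zero h1
  set K : Set (ℝ × ℝ) := {x | x ∈ closedAngle (s • dp) (t • dq) ∧ x ≠ 0 ∧ ∃ v : ℤ × ℤ, x = pt v}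
    with hK
  have hset : closedAngle (s • dp) (t • dq) = {x | 0 ≤ s * be x ∧ 0 ≤ -(t * bc x)} := by
    ext x
    exact mem_angle hs ht x
  have hcl : IsClosed (closedAngle (s • dp) (t • dq)) := by
    rw [hset]
    have hc1 : Continuous fun x : ℝ × ℝ => s * be x := by unfold be; fun_prop
    have hc2 : Continuous fun x : ℝ × ℝ => -(t * bc x) := by unfold bc; fun_prop
    exact (isClosed_le continuous_const hc1).inter (isClosed_le continuous_const hc2)
  have hcv : Convex ℝ (closedAngle (s • dp) (t • dq)) := by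
    rintro _ ⟨α, γ, hα, hγ, rfl⟩ _ ⟨α', γ', hα', hγ', rfl⟩ x y hx hy _
    refine ⟨x * α + y * α', x * γ + y * γ', by positivity, by positivity, ?_⟩
    module
  have hmem : pt v ∈ closedAngle (s • dp) (t • dq) := by
    have h1 : convexHull ℝ K ⊆ closedAngle (s • dp) (t • dq) :=
      convexHull_min (fun x hx => hx.1) hcv
    have h2 : pt v ∈ closure (convexHull ℝ K) := frontier_subset_closure hm
    exact (closure_minimal h1 hcl) h2
  by_contra hne
  have h2 : 2 ≤ |nrm v| := by
    have h3 := nrm_ne_zero hv0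
    have h4 : 0 < |nrm v| := abs_pos.2 h3
    omega
  obtain ⟨g, hg1, hg2, hg3, hg4, hg5⟩ := exists_smaller hv0 (four_le h2)
  have hb := be_ne_zero hv0
  have hc := bc_ne_zero hv0
  rw [mem_angle hs ht] at hmem
  have hss : s ≠ 0 := by rcases hs with rfl | rfl <;> norm_num
  have htt : t ≠ 0 := by rcases ht with rfl | rfl <;> norm_num
  have hbv : 0 < s * be (pt v) := lt_of_le_of_ne hmem.1 (mul_ne_zero hss hb).symm
  have hcv' : 0 < -(t * bc (pt v)) := lt_of_le_of_ne hmem.2 (neg_ne_zero.2 (mul_ne_zero htt hc)).symm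
  have hbg : 0 < s * be (pt g) := by
    have h3 : 0 < (s * be (pt g)) * (s * be (pt v)) := by
      have : (s * be (pt g)) * (s * be (pt v)) = (s * s) * (be (pt g) * be (pt v)) := by ring
      rw [this]
      exact mul_pos (mul_self_pos.2 hss) hg2
    exact (pos_iff_pos_of_mul_pos h3).2 hbv
  have hcg : 0 < -(t * bc (pt g)) := by
    have h3 : 0 < (-(t * bc (pt g))) * (-(t * bc (pt v))) := by
      have : (-(t * bc (pt g))) * (-(t * bc (pt v))) = (t * t) * (bc (pt g) * bc (pt v)) := by ring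
      rw [this]
      exact mul_pos (mul_self_pos.2 htt) hg3
    exact (pos_iff_pos_of_mul_pos h3).2 hcv'
  have hsabs : ∀ x y : ℝ, 0 < s * x → 0 < s * y → |x| ≤ |y| → s * x ≤ s * y := by
    intro x y h1 h2 h3
    rcases hs with hs | hs <;> rw [hs] at h1 h2 ⊢
    · rw [one_mul] at h1 h2
      rw [one_mul, one_mul]
      rwa [abs_of_pos h1, abs_of_pos h2] at h3
    · have h4 : x < 0 := by linarith
      have h5 : y < 0 := by linarith
      rw [abs_of_neg h4, abs_of_neg h5] at h3
      linarith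
  have htabs : ∀ x y : ℝ, 0 < -(t * x) → 0 < -(t * y) → |x| ≤ |y| → -(t * x) ≤ -(t * y) := by
    intro x y h1 h2 h3
    rcases ht with ht | ht <;> rw [ht] at h1 h2 ⊢
    · have h4 : x < 0 := by linarith
      have h5 : y < 0 := by linarith
      rw [abs_of_neg h4, abs_of_neg h5] at h3
      linarith
    · have h4 : 0 < x := by linarith
      have h5 : 0 < y := by linarith
      rw [abs_of_pos h4, abs_of_pos h5] at h3
      linarith
  have hle1 := hsabs _ _ hbg hbv hg4
  have hle2 := htabs _ _ hcg hcv' hg5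
  -- the vector `v - g`
  have hsub1 : be (pt (v - g)) = be (pt v) - be (pt g) := by
    simp only [be, pt, Prod.fst_sub, Prod.snd_sub]
    push_cast
    ring
  have hsub2 : bc (pt (v - g)) = bc (pt v) - bc (pt g) := by
    simp only [bc, pt, Prod.fst_sub, Prod.snd_sub]
    push_cast
    ring
  have hg0 : g ≠ 0 := by
    rintro rfl
    simp [nrm] at hg1
  have hvg0 : v - g ≠ 0 := by
    intro h
    have : v = g := sub_eq_zero.1 h
    rw [this] at hne
    exact hne hg1
  have hD : g.1 * (v - g).2 - g.2 * (v - g).1 ≠ 0 := by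
    intro h
    have h3 : g.1 * v.2 = g.2 * v.1 := by
      simp only [Prod.fst_sub, Prod.snd_sub] at h
      linarith
    -- `v` divides `g` componentwise up to an integer
    obtain ⟨x, y, hxy⟩ := hv
    have h4 : g.1 = (x * g.1 + y * g.2) * v.1 := by
      calc g.1 = g.1 * (x * v.1 + y * v.2) := by rw [hxy, mul_one]
        _ = x * g.1 * v.1 + y * (g.1 * v.2) := by ring
        _ = _ := by rw [h3]; ring
    have h5 : g.2 = (x * g.1 + y * g.2) * v.2 := by
      calc g.2 = g.2 * (x * v.1 + y * v.2) := by rw [hxy, mul_one]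
        _ = x * (g.2 * v.1) + y * g.2 * v.2 := by ring
        _ = _ := by rw [← h3]; ring
    set c := x * g.1 + y * g.2 with hcdef
    have h6 : nrm g = c ^ 2 * nrm v := by
      unfold nrm
      rw [h4, h5]
      ring
    rw [h6, abs_mul] at hg1
    have h7 : |nrm v| ∣ 1 := ⟨|c ^ 2|, by rw [mul_comm]; exact hg1.symm⟩
    have h8 := Int.le_of_dvd one_pos h7
    omega
  have hnotin : pt v ∉ interior (convexHull ℝ K) := by
    intro h
    exact (Set.disjoint_left.1 disjoint_interior_frontier h) hm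
  apply hnotin
  have hsum : pt v = pt g + pt (v - g) := by
    simp only [pt, Prod.fst_sub, Prod.snd_sub]
    ext <;> simp
  rw [hsum]
  have hK' : ∀ w : ℤ × ℤ, w ≠ 0 → 0 ≤ s * be (pt w) → 0 ≤ -(t * bc (pt w)) → ∀ n : ℕ, 1 ≤ n →
      (n : ℝ) • pt w ∈ K := by
    intro w hw h1 h2 n hn
    have hn0 : (0 : ℝ) < n := by exact_mod_cast hn
    refine ⟨?_, ?_, ((n : ℤ) * w.1, (n : ℤ) * w.2), ?_⟩
    · rw [mem_angle hs ht]
      have h3 : be ((n : ℝ) • pt w) = n * be (pt w) := by
        simp only [be, Prod.smul_fst, Prod.smul_snd, smul_eq_mul]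
        ring
      have h4 : bc ((n : ℝ) • pt w) = n * bc (pt w) := by
        simp only [bc, Prod.smul_fst, Prod.smul_snd, smul_eq_mul]
        ring
      rw [h3, h4]
      constructor
      · have : s * (n * be (pt w)) = n * (s * be (pt w)) := by ring
        rw [this]
        positivity
      · have : -(t * (n * bc (pt w))) = n * (-(t * bc (pt w))) := by ring
        rw [this]
        positivity
    · intro h3
      have h4 : pt w = 0 := by
        rcases smul_eq_zero.1 h3 with h5 | h5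
        · exact absurd h5 hn0.ne'
        · exact h5
      apply be_ne_zero hw
      rw [h4]
      simp [be]
    · simp [pt]
  apply interior_of_sum
  · intro h
    apply hD
    have : ((g.1 * (v - g).2 - g.2 * (v - g).1 : ℤ) : ℝ) = 0 := by
      push_cast
      exact h
    exact_mod_cast this
  · exact hK' g hg0 hbg.le hcg.le
  · apply hK' (v - g) hvg0
    · rw [hsub1]
      linarith
    · rw [hsub2]
      linarith

theorem nrm_of_mem_gcf {v : ℤ × ℤ} (hv : IsCoprime v.1 v.2) (hm : pt v ∈ gcf dp dq) :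
    |nrm v| = 1 := by
  rcases hm with ((h | h) | h) | h
  · exact nrm_of_mem_sail (s := 1) (t := 1) (Or.inl rfl) (Or.inl rfl) hv (by simpa using h)
  · exact nrm_of_mem_sail (s := 1) (t := -1) (Or.inl rfl) (Or.inr rfl) hv (by simpa using h)
  · exact nrm_of_mem_sail (s := -1) (t := 1) (Or.inr rfl) (Or.inl rfl) hv (by simpa using h)
  · exact nrm_of_mem_sail (s := -1) (t := -1) (Or.inr rfl) (Or.inr rfl) hv (by simpa using h)

end Pool.Agent.R334.SA
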