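import Mathlib

set_option autoImplicit false

/-!
# Words, convergents and the Gauss map
-/

namespace Pool.Agent.R334.SG

/-- the Gauss map -/
noncomputable def T (y : ℝ) : ℝ := Int.fract (1 / y)

/-- the value of a reversed word of digits with tail `t` -/
noncomputable def val : List ℕ → ℝ → ℝ
  | [], t => t
  | a :: w, t => val w (1 / ((a : ℝ) + t))

/-- numerators of the last two convergents of a reversed word -/
noncomputable def p : List ℕ → ℝ × ℝ
  | [] => (0, 1)
  | a :: w => ((a : ℝ) * (p w).1 + (p w).2, (p w).1)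

/-- denominators of the last two convergents of a reversed word -/
noncomputable def q : List ℕ → ℝ × ℝ
  | [] => (1, 0)
  | a :: w => ((a : ℝ) * (q w).1 + (q w).2, (q w).1)

/-- all digits are positive -/
def Pos (w : List ℕ) : Prop := ∀ a ∈ w, 1 ≤ a

lemma Pos.tail {a : ℕ} {w : List ℕ} (h : Pos (a :: w)) : Pos w :=
  fun b hb => h b (List.mem_cons_of_mem _ hb)

lemma Pos.head {a : ℕ} {w : List ℕ} (h : Pos (a :: w)) : (1 : ℝ) ≤ a := by
  exact_mod_cast h a List.mem_cons_self

lemma Pos.cons {a : ℕ} {w : List ℕ} (ha : 1 ≤ a) (h : Pos w) : Pos (a :: w) := by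
  intro b hb
  rcases List.mem_cons.1 hb with h1 | h1
  · rw [h1]; exact ha
  · exact h b h1

lemma q_basic {w : List ℕ} (h : Pos w) : 1 ≤ (q w).1 ∧ 0 ≤ (q w).2 ∧ (q w).2 ≤ (q w).1 := by
  induction w with
  | nil => simp [q]
  | cons a w ih =>
    obtain ⟨h1, h2, h3⟩ := ih h.tail
    have ha := h.head
    simp only [q]
    refine ⟨by nlinarith, by linarith, by nlinarith⟩

lemma q_len {w : List ℕ} (h : Pos w) : (w.length : ℝ) ≤ (q w).1 := by
  induction w with
  | nil => simp [q]
  | cons a w ih =>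
    have h1 := ih h.tail
    have h0 := q_basic h.tail
    have ha := h.head
    cases w with
    | nil =>
      simp [q]
      exact_mod_cast ha
    | cons b w =>
      have h2 := q_basic h.tail.tail
      have e1 : (q (a :: b :: w)).1 = (a : ℝ) * (q (b :: w)).1 + (q w).1 := rfl
      rw [e1]
      push_cast [List.length_cons] at h1 ⊢
      nlinarith [h2.1]

lemma val_eq {w : List ℕ} (h : Pos w) {t : ℝ} (ht : 0 ≤ t) :
    val w t = ((p w).1 + t * (p w).2) / ((q w).1 + t * (q w).2) := by
  induction w generalizing t with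
  | nil => simp [val, p, q]
  | cons a w ih =>
    have ha := h.head
    have hat : 0 < (a : ℝ) + t := by linarith
    have hb := q_basic h.tail
    rw [val, ih h.tail (by positivity)]
    simp only [p, q]
    have h1 : (q w).1 + 1 / ((a : ℝ) + t) * (q w).2 ≠ 0 := by
      have : 0 ≤ 1 / ((a : ℝ) + t) * (q w).2 := mul_nonneg (by positivity) hb.2.1
      linarith [hb.1]
    have h2 : (a : ℝ) * (q w).1 + (q w).2 + t * (q w).1 ≠ 0 := by
      have : 0 < ((a : ℝ) + t) * (q w).1 := mul_pos hat (by linarith [hb.1])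
      nlinarith [hb.2.1]
    rw [div_eq_div_iff h1 h2]
    field_simp
    ring

lemma det (w : List ℕ) : (p w).2 * (q w).1 - (p w).1 * (q w).2 = (-1) ^ w.length := by
  induction w with
  | nil => simp [p, q]
  | cons a w ih =>
    simp only [p, q, List.length_cons, pow_succ]
    linear_combination (-1) * ih

lemma val_append (w w' : List ℕ) (t : ℝ) : val (w ++ w') t = val w' (val w t) := by
  induction w generalizing t with
  | nil => rfl
  | cons a w ih => simp only [List.cons_append, val]; exact ih _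

lemma inv_mem {a : ℕ} (ha : 1 ≤ a) {t : ℝ} (ht : t ∈ Set.Ioo (0 : ℝ) 1) :
    1 / ((a : ℝ) + t) ∈ Set.Ioo (0 : ℝ) 1 := by
  have h1 : (1 : ℝ) ≤ a := by exact_mod_cast ha
  have h2 : 1 < (a : ℝ) + t := by linarith [ht.1]
  refine ⟨by positivity, ?_⟩
  rw [div_lt_one (by linarith)]
  exact h2

lemma val_mem {w : List ℕ} (h : Pos w) {t : ℝ} (ht : t ∈ Set.Ioo (0 : ℝ) 1) :
    val w t ∈ Set.Ioo (0 : ℝ) 1 := by
  induction w generalizing t with
  | nil => exact ht
  | cons a w ih => exact ih h.tail (inv_mem (h a List.mem_cons_self) ht)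

lemma T_inv (a : ℕ) {t : ℝ} (ht : t ∈ Set.Ioo (0 : ℝ) 1) : T (1 / ((a : ℝ) + t)) = t := by
  unfold T
  rw [one_div_one_div]
  rw [Int.fract_natCast_add]
  exact Int.fract_eq_self.2 ⟨ht.1.le, ht.2⟩

lemma T_iter {w : List ℕ} (h : Pos w) {t : ℝ} (ht : t ∈ Set.Ioo (0 : ℝ) 1) :
    T^[w.length] (val w t) = t := by
  induction w generalizing t with
  | nil => rfl
  | cons a w ih =>
    rw [List.length_cons, Function.iterate_succ', Function.comp, val,
      ih h.tail (inv_mem (h a List.mem_cons_self) ht), T_inv a ht]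

lemma digit_inv (a : ℕ) {t : ℝ} (ht : t ∈ Set.Ioo (0 : ℝ) 1) :
    ⌊1 / (1 / ((a : ℝ) + t))⌋ = (a : ℤ) := by
  rw [one_div_one_div, Int.floor_eq_iff]
  push_cast
  exact ⟨by linarith [ht.1], by linarith [ht.2]⟩

/-- the digits of `val (w ++ w') t` with index at least the length of `w'` are those of `w` -/
lemma digits_ge {L : ℤ} {w w' : List ℕ} (h : Pos w') (h' : Pos w) (hL : ∀ a ∈ w, L ≤ (a : ℤ))
    {t : ℝ} (ht : t ∈ Set.Ioo (0 : ℝ) 1) (n : ℕ) (h1 : w'.length ≤ n)
    (h2 : n < (w ++ w').length) : L ≤ ⌊1 / (T^[n] (val (w ++ w') t))⌋ := by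
  induction w generalizing t with
  | nil => simp at h2; omega
  | cons a w ih =>
    have hm := inv_mem (h' a List.mem_cons_self) ht
    have hpos : Pos (w ++ w') := by
      intro b hb
      rcases List.mem_append.1 hb with hb | hb
      · exact h'.tail b hb
      · exact h b hb
    rw [List.cons_append, val]
    by_cases hn : n < (w ++ w').length
    · exact ih h'.tail (fun b hb => hL b (List.mem_cons_of_mem _ hb)) hm hn
    · have hn2 : n = (w ++ w').length := by
        rw [List.cons_append, List.length_cons] at h2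
        omega
      rw [hn2, T_iter hpos hm, digit_inv a ht]
      exact hL a List.mem_cons_self

/-- the partial quotients tend to infinity -/
def Tends (g : ℝ) : Prop :=
  Filter.Tendsto (fun n : ℕ => ⌊1 / (T^[n] g)⌋) Filter.atTop Filter.atTop

lemma tends_val {w : List ℕ} (h : Pos w) {t : ℝ} (ht : t ∈ Set.Ioo (0 : ℝ) 1) (H : Tends t) :
    Tends (val w t) := by
  unfold Tends
  rw [← Filter.tendsto_add_atTop_iff_nat w.length]
  refine H.congr ?_
  intro n
  rw [Function.iterate_add_apply, T_iter h ht]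

/-- A chain of words with digits tending to infinity determines a number -/
lemma chain_point (U : ℕ → List ℕ) (V : ℕ → List ℕ) (hU0 : Pos (U 0))
    (hU : ∀ k, U (k + 1) = V k ++ U k) (hV : ∀ k, V k ≠ [])
    (hd : ∀ k, ∀ a ∈ V k, k + 2 ≤ a) :
    (∀ k, Pos (U k)) ∧ (∀ k, k ≤ (U k).length) ∧
    ∃ g : ℝ, g ∈ Set.Ioo (0 : ℝ) 1 ∧ Tends g ∧ ∀ k, ∃ t ∈ Set.Ioo (0 : ℝ) 1, g = val (U k) t := by
  have hVpos : ∀ k, Pos (V k) := fun k a ha => by have := hd k a ha; omega
  have hpos : ∀ k, Pos (U k) := by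
    intro k
    induction k with
    | zero => exact hU0
    | succ k ih =>
      rw [hU k]
      intro a ha
      rcases List.mem_append.1 ha with ha | ha
      · exact hVpos k a ha
      · exact ih a ha
  have hlen : ∀ k, k ≤ (U k).length := by
    intro k
    induction k with
    | zero => omega
    | succ k ih =>
      rw [hU k, List.length_append]
      have := List.length_pos_of_ne_nil (hV k)
      omega
  refine ⟨hpos, hlen, ?_⟩
  -- images of the closed unit interval
  have hcont : ∀ w, Pos w → ContinuousOn (val w) (Set.Icc 0 1) := by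
    intro w hw
    have : Set.EqOn (val w) (fun t => ((p w).1 + t * (p w).2) / ((q w).1 + t * (q w).2))
        (Set.Icc 0 1) := fun t ht => val_eq hw ht.1
    refine ContinuousOn.congr ?_ this
    apply ContinuousOn.div (by fun_prop) (by fun_prop)
    intro t ht
    have hb := q_basic hw
    have : 0 ≤ t * (q w).2 := mul_nonneg ht.1 hb.2.1
    linarith [hb.1]
  have hstrict : ∀ w, Pos w → w ≠ [] → (∀ a ∈ w, 2 ≤ a) → ∀ t ∈ Set.Icc (0 : ℝ) 1,
      val w t ∈ Set.Ioo (0 : ℝ) 1 := by
    intro w hw hne h2 t ht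
    cases w with
    | nil => exact absurd rfl hne
    | cons a w =>
      rw [val]
      apply val_mem hw.tail
      have h1 : (2 : ℝ) ≤ a := by exact_mod_cast h2 a List.mem_cons_self
      have h3 : 1 < (a : ℝ) + t := by linarith [ht.1]
      refine ⟨by positivity, ?_⟩
      rw [div_lt_one (by linarith)]
      exact h3
  have hVs : ∀ k, ∀ t ∈ Set.Icc (0 : ℝ) 1, val (V k) t ∈ Set.Ioo (0 : ℝ) 1 := fun k =>
    hstrict (V k) (hVpos k) (hV k) (fun a ha => by have := hd k a ha; omega)
  obtain ⟨g, hg⟩ : (⋂ k, val (U k) '' Set.Icc 0 1).Nonempty := by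
    apply IsCompact.nonempty_iInter_of_sequence_nonempty_isCompact_isClosed
    · intro k
      rw [hU k]
      rintro _ ⟨t, ht, rfl⟩
      rw [val_append]
      exact ⟨_, ⟨(hVs k t ht).1.le, (hVs k t ht).2.le⟩, rfl⟩
    · intro k
      exact ⟨_, 0, by simp, rfl⟩
    · exact isCompact_Icc.image_of_continuousOn (hcont _ (hpos 0))
    · intro k
      exact (isCompact_Icc.image_of_continuousOn (hcont _ (hpos k))).isClosed
  rw [Set.mem_iInter] at hg
  have hg2 : ∀ k, ∃ t ∈ Set.Ioo (0 : ℝ) 1, g = val (U k) t := by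
    intro k
    obtain ⟨t, ht, h⟩ := hg (k + 1)
    rw [hU k, val_append] at h
    exact ⟨_, hVs k t ht, h.symm⟩
  refine ⟨g, ?_, ?_, hg2⟩
  · obtain ⟨t, ht, h⟩ := hg2 0
    rw [h]
    exact val_mem hU0 ht
  · unfold Tends
    rw [Filter.tendsto_atTop]
    intro L
    obtain ⟨k, hk⟩ : ∃ k : ℕ, L ≤ k := ⟨L.toNat, Int.self_le_toNat L⟩
    have hrest : ∀ j, ∃ R : List ℕ, U (k + j) = R ++ U k ∧ ∀ a ∈ R, k + 2 ≤ a := by
      intro j
      induction j with
      | zero => exact ⟨[], rfl, by simp⟩
      | succ j ih =>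
        obtain ⟨R, hR, hR2⟩ := ih
        refine ⟨V (k + j) ++ R, ?_, ?_⟩
        · rw [← add_assoc, hU, hR, List.append_assoc]
        · intro a ha
          rcases List.mem_append.1 ha with ha | ha
          · have := hd _ a ha
            omega
          · exact hR2 a ha
    filter_upwards [Filter.eventually_ge_atTop (U k).length] with n hn
    obtain ⟨R, hR, hR2⟩ := hrest (n + 1)
    obtain ⟨t, ht, h⟩ := hg2 (k + (n + 1))
    rw [h, hR]
    apply digits_ge (hpos k) _ _ ht n hn
    · rw [← hR]
      have := hlen (k + (n + 1))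
      omega
    · exact fun a ha => by have := hR2 a ha; omega
    · intro a ha
      have := hR2 a ha
      have h3 : (k : ℤ) ≤ a := by omega
      exact hk.trans h3

end Pool.Agent.R334.SG
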