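import Pool.Agent.R334.SG1

set_option autoImplicit false

/-!
# The two-number algorithm
-/

namespace Pool.Agent.R334.SG

/-- the error of a pair of words -/
noncomputable def e (x : ℝ) (u v : List ℕ) : ℝ := x - (p u).1 / (q u).1 - (p v).1 / (q v).1

/-- the normalised error -/
noncomputable def K (x : ℝ) (u v : List ℕ) : ℝ := |e x u v| * (q u).1 * (q v).1

lemma e_comm (x : ℝ) (u v : List ℕ) : e x u v = e x v u := by unfold e; ring

lemma K_comm (x : ℝ) (u v : List ℕ) : K x u v = K x v u := by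
  unfold K; rw [e_comm]; ring

lemma rat (w : List ℕ) : (∃ r : ℚ, (p w).1 = r) ∧ (∃ r : ℚ, (p w).2 = r) ∧
    (∃ r : ℚ, (q w).1 = r) ∧ (∃ r : ℚ, (q w).2 = r) := by
  induction w with
  | nil => exact ⟨⟨0, by simp [p]⟩, ⟨1, by simp [p]⟩, ⟨1, by simp [q]⟩, ⟨0, by simp [q]⟩⟩
  | cons a w ih =>
    obtain ⟨⟨r1, h1⟩, ⟨r2, h2⟩, ⟨r3, h3⟩, ⟨r4, h4⟩⟩ := ih
    refine ⟨⟨a * r1 + r2, ?_⟩, ⟨r1, h1⟩, ⟨a * r3 + r4, ?_⟩, ⟨r3, h3⟩⟩
    · simp only [p, h1, h2]; push_cast; ring
    · simp only [q, h3, h4]; push_cast; ring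

lemma e_ne {x : ℝ} (hx : Irrational x) (u v : List ℕ) : e x u v ≠ 0 := by
  intro h
  obtain ⟨⟨r1, h1⟩, -, ⟨r3, h3⟩, -⟩ := rat u
  obtain ⟨⟨s1, g1⟩, -, ⟨s3, g3⟩, -⟩ := rat v
  unfold e at h
  rw [h1, h3, g1, g3] at h
  apply hx
  refine ⟨r1 / r3 + s1 / s3, ?_⟩
  push_cast
  linarith

lemma conv_cons {v : List ℕ} (hv : Pos v) {a : ℕ} (ha : 1 ≤ a) :
    (p (a :: v)).1 / (q (a :: v)).1 =
      (p v).1 / (q v).1 + (-1) ^ v.length / ((q v).1 * (q (a :: v)).1) := by
  have h1 := (q_basic hv).1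
  have h2 := (q_basic (Pos.cons ha hv)).1
  have h3 := det v
  have e1 : (q v).1 ≠ 0 := by linarith
  have e2 : (q (a :: v)).1 ≠ 0 := by linarith
  rw [← h3]
  field_simp
  simp only [p, q]
  ring

lemma sgn (n : ℕ) : ((-1 : ℝ) ^ n) * (-1) ^ n = 1 := by
  rw [← mul_pow]; simp

lemma key {x : ℝ} (hx : Irrational x) {u v : List ℕ} (hu : Pos u) (hv : Pos v)
    (sg : 0 < (-1) ^ v.length * e x u v) {X : ℝ} (hX : X = (q u).1 / ((q v).1 * K x u v))
    (hX2 : 2 ≤ X) :
    ∃ (c : ℕ) (ψ : ℝ), 0 < ψ ∧ ψ < 1 ∧ X - 2 < c ∧ 1 ≤ c ∧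
      0 < (-1) ^ (v.length + 1) * e x u (c :: v) ∧ K x u (c :: v) = ψ * K x u v ∧
      (q (c :: v)).1 = (q v).1 * (X - ψ) ∧
      0 < (-1) ^ v.length * e x u ((c + 1) :: v) ∧ K x u ((c + 1) :: v) = (1 - ψ) * K x u v ∧
      (q ((c + 1) :: v)).1 = (q v).1 * (X + (1 - ψ)) := by
  obtain ⟨hq1, hq2, hq3⟩ := q_basic hv
  have hQ1 := (q_basic hu).1
  set s := (q v).1 with hs
  set s' := (q v).2 with hs'
  set Q := (q u).1 with hQ
  set σ : ℝ := (-1) ^ v.length with hσ
  have hσ2 : σ * σ = 1 := sgn _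
  set F := σ * e x u v with hF
  have habs : |e x u v| = F := by
    have : |F| = |e x u v| := by
      rw [hF, abs_mul, hσ, abs_pow, abs_neg, abs_one, one_pow, one_mul]
    rw [← this, abs_of_pos sg]
  have he : e x u v = σ * F := by rw [hF, ← mul_assoc, hσ2, one_mul]
  have hs0 : 0 < s := by linarith
  have hQ0 : 0 < Q := by linarith
  have hK : K x u v = F * Q * s := by unfold K; rw [habs]
  have hXF : X = 1 / (s ^ 2 * F) := by
    rw [hX, hK]
    field_simp
  have hX0 : 0 < X := by linarith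
  have hF2 : s ^ 2 * F * X = 1 := by
    rw [hXF]; field_simp
  set ε := s' / s with hε
  have hε0 : 0 ≤ ε := by positivity
  have hε1 : ε ≤ 1 := by rw [hε, div_le_one hs0]; exact hq3
  have hεs : s * ε = s' := by rw [hε]; field_simp
  obtain ⟨c, hc⟩ : ∃ c : ℕ, c = ⌊X - ε⌋₊ := ⟨_, rfl⟩
  have hc1 : (c : ℝ) ≤ X - ε := by rw [hc]; exact Nat.floor_le (by linarith)
  have hc2 : X - ε < c + 1 := by rw [hc]; exact Nat.lt_floor_add_one _
  have hc3 : 1 ≤ c := by
    rw [hc]; apply Nat.le_floor; push_cast; linarith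
  -- the general identity
  have gen : ∀ d : ℕ, 1 ≤ d →
      e x u (d :: v) = σ * (F * (1 - X / (d + ε))) ∧ (q (d :: v)).1 = s * (d + ε) := by
    intro d hd
    have hqd : (q (d :: v)).1 = s * (d + ε) := by
      simp only [q]
      rw [← hs, ← hs']
      rw [mul_add, hεs]
      ring
    refine ⟨?_, hqd⟩
    have h1 := conv_cons hv hd
    have h2 : e x u (d :: v) = e x u v - σ / (s * (q (d :: v)).1) := by
      unfold e
      rw [h1]
      ring
    have hd0 : (0 : ℝ) < d := by exact_mod_cast hd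
    have hde : (0 : ℝ) < d + ε := by linarith
    rw [h2, he, hqd]
    have h3 : σ / (s * (s * (d + ε))) = σ * (F * (X / (d + ε))) := by
      have : (1 : ℝ) / (s * s) = F * X := by
        field_simp
        linear_combination (-1) * hF2
      calc σ / (s * (s * (d + ε))) = σ * (1 / (s * s)) / (d + ε) := by field_simp
        _ = σ * (F * (X / (d + ε))) := by rw [this]; ring
    rw [h3]
    ring
  have absσ : |σ| = 1 := by rw [hσ, abs_pow, abs_neg, abs_one, one_pow]
  have hcR : (1 : ℝ) ≤ c := by exact_mod_cast hc3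
  have hce : (0 : ℝ) < c + ε := by linarith
  have hce1 : (0 : ℝ) < ((c + 1 : ℕ) : ℝ) + ε := by push_cast; linarith
  obtain ⟨g1, g2⟩ := gen c hc3
  obtain ⟨g3, g4⟩ := gen (c + 1) (by omega)
  have hne := e_ne hx u (c :: v)
  have hψ : X - ε - c ≠ 0 := by
    intro h0
    apply hne
    rw [g1]
    have : X = c + ε := by linarith
    rw [this, div_self hce.ne']
    ring
  have hψ0 : 0 < X - ε - c := lt_of_le_of_ne (by linarith) (Ne.symm hψ)
  refine ⟨c, X - ε - c, hψ0, by linarith, by linarith, hc3, ?_, ?_, ?_, ?_, ?_, ?_⟩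
  · rw [g1, pow_succ, ← hσ]
    have : σ * -1 * (σ * (F * (1 - X / (↑c + ε)))) = σ * σ * (F * (X / (c + ε) - 1)) := by ring
    rw [this, hσ2, one_mul]
    apply mul_pos sg
    rw [sub_pos, lt_div_iff₀ hce]
    linarith
  · unfold K
    rw [g1, g2, abs_mul, absσ, one_mul, habs, abs_mul, abs_of_pos sg]
    have h1 : 1 - X / (c + ε) < 0 := by
      rw [sub_neg, lt_div_iff₀ hce]
      linarith
    rw [abs_of_neg h1, ← hQ, ← hs]
    field_simp
    ring
  · rw [g2]; ring
  · rw [g3]
    have : σ * (σ * (F * (1 - X / (((c + 1 : ℕ) : ℝ) + ε)))) =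
        σ * σ * (F * (1 - X / (((c + 1 : ℕ) : ℝ) + ε))) := by ring
    rw [this, hσ2, one_mul]
    apply mul_pos sg
    rw [sub_pos, div_lt_one hce1]
    push_cast
    linarith
  · unfold K
    rw [g3, g4, abs_mul, absσ, one_mul, habs, abs_mul, abs_of_pos sg]
    have h1 : 0 < 1 - X / (((c + 1 : ℕ) : ℝ) + ε) := by
      rw [sub_pos, div_lt_one hce1]
      push_cast
      linarith
    rw [abs_of_pos h1, ← hQ, ← hs]
    field_simp
    push_cast
    ring
  · rw [g4]; push_cast; ring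

/-- the state of the algorithm: both signs agree with the sign of the error -/
def Al (x : ℝ) (u v : List ℕ) : Prop :=
  Pos u ∧ Pos v ∧ 0 < (-1) ^ v.length * e x u v ∧ 0 < (-1) ^ u.length * e x u v ∧
    K x u v ≤ 1 / 4

lemma Al.symm {x : ℝ} {u v : List ℕ} (h : Al x u v) : Al x v u := by
  obtain ⟨h1, h2, h3, h4, h5⟩ := h
  refine ⟨h2, h1, ?_, ?_, ?_⟩
  · rw [e_comm]; exact h4
  · rw [e_comm]; exact h3
  · rw [K_comm]; exact h5

lemma K_pos {x : ℝ} (hx : Irrational x) {u v : List ℕ} (hu : Pos u) (hv : Pos v) :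
    0 < K x u v := by
  unfold K
  have h1 := (q_basic hu).1
  have h2 := (q_basic hv).1
  have h3 := abs_pos.2 (e_ne hx u v)
  positivity

/-- one step, the second number is the coarse one -/
lemma step {x : ℝ} (hx : Irrational x) {u v : List ℕ} (h : Al x u v)
    (hle : (q v).1 ≤ (q u).1) :
    (∃ a b : ℕ, 1 / K x u v - 2 ≤ a ∧ 1 / K x u v - 2 ≤ b ∧ Al x (a :: u) (b :: v) ∧
      K x (a :: u) (b :: v) ≤ K x u v * (1 - K x u v)) ∨
    (∃ b c : ℕ, 1 / K x u v - 2 ≤ b ∧ 1 / K x u v - 2 ≤ c ∧ Al x u (c :: b :: v) ∧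
      K x u (c :: b :: v) ≤ K x u v * (1 - K x u v) ∧ (q u).1 ≤ (q (c :: b :: v)).1) := by
  obtain ⟨hu, hv, sv, su, hK⟩ := h
  have hκ := K_pos hx hu hv
  have hs1 := (q_basic hv).1
  have hq1 := (q_basic hu).1
  set κ := K x u v with hκdef
  obtain ⟨X, hX⟩ : ∃ X, X = (q u).1 / ((q v).1 * κ) := ⟨_, rfl⟩
  have hκi : 4 ≤ 1 / κ := by
    rw [le_div_iff₀ hκ]; linarith
  have hXκ : 1 / κ ≤ X := by
    rw [hX, div_le_div_iff₀ hκ (by positivity)]
    nlinarith
  have hsX : (q v).1 * X = (q u).1 / κ := by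
    rw [hX]; field_simp
  obtain ⟨c, ψ, hψ0, hψ1, hc1, hc2, k1, k2, k3, k4, k5, k6⟩ :=
    key hx hu hv sv hX (by linarith)
  rw [← hκdef] at k2 k5
  by_cases hcase : κ ≤ ψ
  · -- above, then append to the other number
    left
    have hv1 : Pos ((c + 1) :: v) := Pos.cons (by omega) hv
    have sg' : 0 < (-1) ^ u.length * e x ((c + 1) :: v) u := by
      rw [e_comm]
      have h1 : ((-1 : ℝ) ^ v.length * e x u ((c + 1) :: v)) *
          ((-1) ^ v.length * e x u v) * ((-1) ^ u.length * e x u v) > 0 := by positivity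
      have h2 : ((-1 : ℝ) ^ v.length * e x u ((c + 1) :: v)) *
          ((-1) ^ v.length * e x u v) * ((-1) ^ u.length * e x u v) =
          ((-1 : ℝ) ^ v.length * (-1) ^ v.length) * ((e x u v) ^ 2 *
          ((-1) ^ u.length * e x u ((c + 1) :: v))) := by ring
      rw [h2, sgn, one_mul] at h1
      exact (pos_iff_pos_of_mul_pos h1).1 (by have := e_ne hx u v; positivity)
    have hK1 := K_pos hx hu hv1
    obtain ⟨X1, hX1⟩ : ∃ X1, X1 = (q ((c + 1) :: v)).1 / ((q u).1 * K x ((c + 1) :: v) u) :=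
      ⟨_, rfl⟩
    have hK1' : K x ((c + 1) :: v) u = (1 - ψ) * κ := by rw [K_comm]; exact k5
    have hX1κ : 1 / κ ≤ X1 := by
      rw [hX1, hK1', k6]
      have h1 : (q u).1 / κ ≤ (q v).1 * (X + (1 - ψ)) := by
        rw [mul_add, hsX]
        have : 0 ≤ (q v).1 * (1 - ψ) := mul_nonneg (by linarith) (by linarith)
        linarith
      have h3 : 0 < 1 - ψ := by linarith
      rw [le_div_iff₀ (by positivity)]
      calc 1 / κ * ((q u).1 * ((1 - ψ) * κ)) = (q u).1 * (1 - ψ) := by field_simp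
        _ ≤ (q u).1 * 1 := by apply mul_le_mul_of_nonneg_left <;> linarith
        _ ≤ (q u).1 / κ := by rw [mul_one, le_div_iff₀ hκ]; nlinarith
        _ ≤ _ := h1
    obtain ⟨a, θ, hθ0, hθ1, ha1, ha2, l1, l2, l3, -, -, -⟩ :=
      key hx hv1 hu sg' hX1 (by linarith)
    refine ⟨a, c + 1, by linarith, by push_cast; linarith, ?_, ?_⟩
    · refine ⟨Pos.cons ha2 hu, hv1, ?_, ?_, ?_⟩
      · rw [e_comm, List.length_cons]
        -- parity of the lengths
        have h1 : 0 < ((-1 : ℝ) ^ (u.length + 1) * e x ((c + 1) :: v) (a :: u)) *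
            ((-1) ^ u.length * e x u v) * ((-1) ^ v.length * e x u v) := by positivity
        have h2 : ((-1 : ℝ) ^ (u.length + 1) * e x ((c + 1) :: v) (a :: u)) *
            ((-1) ^ u.length * e x u v) * ((-1) ^ v.length * e x u v) =
            ((-1 : ℝ) ^ u.length * (-1) ^ u.length) * ((e x u v) ^ 2 *
            ((-1) ^ (v.length + 1) * e x ((c + 1) :: v) (a :: u))) := by
          rw [pow_succ, pow_succ]; ring
        rw [h2, sgn, one_mul] at h1
        exact (pos_iff_pos_of_mul_pos h1).1 (by have := e_ne hx u v; positivity)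
      · rw [e_comm, List.length_cons]
        exact l1
      · rw [K_comm, l2, hK1']
        have : θ * ((1 - ψ) * κ) ≤ 1 * (1 * κ) := by
          apply mul_le_mul hθ1.le _ (by have : 0 < 1 - ψ := by linarith
                                        positivity) (by norm_num)
          apply mul_le_mul_of_nonneg_right (by linarith) hκ.le
        linarith
    · rw [K_comm, l2, hK1']
      have h3 : 0 < 1 - ψ := by linarith
      calc θ * ((1 - ψ) * κ) ≤ 1 * ((1 - ψ) * κ) :=
            mul_le_mul_of_nonneg_right hθ1.le (by positivity)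
        _ = κ * (1 - ψ) := by ring
        _ ≤ κ * (1 - κ) := mul_le_mul_of_nonneg_left (by linarith) hκ.le
  · -- below, twice
    right
    push Not at hcase
    have hv1 : Pos (c :: v) := Pos.cons (by omega) hv
    obtain ⟨X1, hX1⟩ : ∃ X1, X1 = (q u).1 / ((q (c :: v)).1 * K x u (c :: v)) := ⟨_, rfl⟩
    have hs1' := (q_basic hv1).1
    have hK1 := K_pos hx hu hv1
    have hX1κ : 1 / κ ≤ X1 := by
      rw [hX1, k2, div_le_div_iff₀ hκ (by positivity), k3]
      have h1 : (q v).1 * (X - ψ) ≤ (q u).1 / κ := by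
        rw [mul_sub, hsX]
        have : 0 ≤ (q v).1 * ψ := mul_nonneg (by linarith) hψ0.le
        linarith
      have h2 : (q v).1 * (X - ψ) * (ψ * κ) ≤ (q u).1 / κ * (ψ * κ) :=
        mul_le_mul_of_nonneg_right h1 (by positivity)
      have h3 : (q u).1 / κ * (ψ * κ) = (q u).1 * ψ := by field_simp
      have h4 : (q u).1 * ψ ≤ (q u).1 * κ :=
        mul_le_mul_of_nonneg_left hcase.le (by linarith)
      linarith
    obtain ⟨d, θ, hθ0, hθ1, hd1, hd2, l1, l2, l3, -, -, -⟩ :=
      key hx hu hv1 (by rw [List.length_cons]; exact k1) hX1 (by linarith)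
    refine ⟨c, d, by linarith, by linarith, ⟨hu, Pos.cons hd2 hv1, ?_, ?_, ?_⟩, ?_, ?_⟩
    · rw [List.length_cons]; exact l1
    · have h1 : 0 < ((-1 : ℝ) ^ ((c :: v).length + 1) * e x u (d :: c :: v)) *
          ((-1) ^ v.length * e x u v) * ((-1) ^ u.length * e x u v) := by positivity
      have h2 : ((-1 : ℝ) ^ ((c :: v).length + 1) * e x u (d :: c :: v)) *
          ((-1) ^ v.length * e x u v) * ((-1) ^ u.length * e x u v) =
          ((-1 : ℝ) ^ v.length * (-1) ^ v.length) * ((e x u v) ^ 2 *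
          ((-1) ^ u.length * e x u (d :: c :: v))) := by
        rw [List.length_cons, pow_succ, pow_succ]; ring
      rw [h2, sgn, one_mul] at h1
      exact (pos_iff_pos_of_mul_pos h1).1 (by have := e_ne hx u v; positivity)
    · rw [l2, k2]
      have : θ * (ψ * κ) ≤ 1 * (1 * κ) := by
        apply mul_le_mul hθ1.le _ (by positivity) (by norm_num)
        exact mul_le_mul_of_nonneg_right hψ1.le hκ.le
      linarith
    · rw [l2, k2]
      calc θ * (ψ * κ) ≤ 1 * (κ * κ) := by
            apply mul_le_mul hθ1.le _ (by positivity) (by norm_num)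
            exact mul_le_mul_of_nonneg_right hcase.le hκ.le
        _ ≤ κ * (1 - κ) := by nlinarith
    · rw [l3, k3]
      have h1 : (q u).1 ≤ (q v).1 * (X - ψ) := by
        rw [mul_sub, hsX]
        have h5 : (q u).1 * 4 ≤ (q u).1 / κ := by
          rw [div_eq_mul_one_div]
          exact mul_le_mul_of_nonneg_left hκi (by linarith)
        have h6 : (q v).1 * ψ ≤ (q u).1 * 1 := mul_le_mul hle hψ1.le hψ0.le (by linarith)
        linarith
      have h2 : 1 ≤ X1 - θ := by linarith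
      nlinarith

/-- two steps extend both words -/
lemma two_steps {x : ℝ} (hx : Irrational x) {u v : List ℕ} (h : Al x u v) :
    ∃ u' v' : List ℕ, u' ≠ [] ∧ v' ≠ [] ∧ (∀ a ∈ u', 1 / K x u v - 2 ≤ a) ∧
      (∀ a ∈ v', 1 / K x u v - 2 ≤ a) ∧ Al x (u' ++ u) (v' ++ v) ∧
      K x (u' ++ u) (v' ++ v) ≤ K x u v * (1 - K x u v) := by
  -- the case `q v ≤ q u`
  have main : ∀ u v : List ℕ, Al x u v → (q v).1 ≤ (q u).1 →
      ∃ u' v' : List ℕ, u' ≠ [] ∧ v' ≠ [] ∧ (∀ a ∈ u', 1 / K x u v - 2 ≤ a) ∧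
      (∀ a ∈ v', 1 / K x u v - 2 ≤ a) ∧ Al x (u' ++ u) (v' ++ v) ∧
      K x (u' ++ u) (v' ++ v) ≤ K x u v * (1 - K x u v) := by
    intro u v h hle
    have hκ := K_pos hx h.1 h.2.1
    rcases step hx h hle with ⟨a, b, ha, hb, h1, h2⟩ | ⟨b, c, hb, hc, h1, h2, h3⟩
    · exact ⟨[a], [b], by simp, by simp, by simpa using ha, by simpa using hb, h1, h2⟩
    · have hκ1 := K_pos hx h1.1 h1.2.1
      have hmono : K x u (c :: b :: v) ≤ K x u v := by nlinarith
      have hle2 : 1 / K x u v ≤ 1 / K x (c :: b :: v) u := by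
        rw [K_comm x (c :: b :: v) u]
        exact one_div_le_one_div_of_le hκ1 hmono
      have hfin : K x (c :: b :: v) u * (1 - K x (c :: b :: v) u) ≤ K x u v * (1 - K x u v) := by
        rw [K_comm x (c :: b :: v) u]
        have := h.2.2.2.2
        nlinarith
      rcases step hx h1.symm h3 with ⟨a, d, ha, hd, g1, g2⟩ | ⟨d, f, hd, hf, g1, g2, -⟩
      · refine ⟨[d], [a, c, b], by simp, by simp, ?_, ?_, ?_, ?_⟩
        · intro y hy
          rw [List.mem_singleton] at hy
          rw [hy]; linarith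
        · intro y hy
          simp only [List.mem_cons, List.not_mem_nil, or_false] at hy
          rcases hy with rfl | rfl | rfl <;> linarith
        · exact g1.symm
        · have : K x ([d] ++ u) ([a, c, b] ++ v) = K x (a :: c :: b :: v) (d :: u) := K_comm _ _ _
          rw [this]
          exact g2.trans hfin
      · refine ⟨[f, d], [c, b], by simp, by simp, ?_, ?_, ?_, ?_⟩
        · intro y hy
          simp only [List.mem_cons, List.not_mem_nil, or_false] at hy
          rcases hy with rfl | rfl <;> linarith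
        · intro y hy
          simp only [List.mem_cons, List.not_mem_nil, or_false] at hy
          rcases hy with rfl | rfl <;> linarith
        · exact g1.symm
        · have : K x ([f, d] ++ u) ([c, b] ++ v) = K x (c :: b :: v) (f :: d :: u) := K_comm _ _ _
          rw [this]
          exact g2.trans hfin
  rcases le_total (q v).1 (q u).1 with hle | hle
  · exact main u v h hle
  · obtain ⟨u', v', h1, h2, h3, h4, h5, h6⟩ := main v u h.symm hle
    rw [K_comm x v u] at h3 h4 h6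
    exact ⟨v', u', h2, h1, h4, h3, h5.symm, by rw [K_comm]; exact h6⟩

end Pool.Agent.R334.SG
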