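import Pool.Agent.R334.SG2

set_option autoImplicit false

/-!
# Every number in `(0, 1]` is a sum of two numbers with partial quotients tending to infinity
-/

namespace Pool.Agent.R334.SG

open Filter

lemma val_sub {w : List ℕ} (h : Pos w) {t : ℝ} (ht : 0 ≤ t) :
    val w t - (p w).1 / (q w).1 = (-1) ^ w.length * t / ((q w).1 * ((q w).1 + t * (q w).2)) := by
  obtain ⟨h1, h2, -⟩ := q_basic h
  have h3 : 0 ≤ t * (q w).2 := mul_nonneg ht h2
  have e1 : (q w).1 ≠ 0 := by linarith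
  have e2 : (q w).1 + t * (q w).2 ≠ 0 := by linarith
  rw [val_eq h ht, ← det w]
  field_simp
  ring

lemma val_near {w : List ℕ} (h : Pos w) {t : ℝ} (ht : t ∈ Set.Ioo (0 : ℝ) 1) :
    |val w t - (p w).1 / (q w).1| ≤ 1 / (q w).1 := by
  obtain ⟨h1, h2, -⟩ := q_basic h
  have h3 : 0 ≤ t * (q w).2 := mul_nonneg ht.1.le h2
  have h4 : 0 < (q w).1 * ((q w).1 + t * (q w).2) := mul_pos (by linarith) (by linarith)
  rw [val_sub h ht.1.le, abs_div, abs_mul, abs_pow, abs_neg, abs_one, one_pow, one_mul,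
    abs_of_pos ht.1, abs_of_pos h4, div_le_div_iff₀ h4 (by linarith)]
  have := ht.2
  nlinarith [mul_nonneg (by linarith : (0:ℝ) ≤ (q w).1) h3]

lemma exists_word {y : ℝ} (hy : Irrational y) (hy1 : y ∈ Set.Ioo (0 : ℝ) 1) (n : ℕ) :
    ∃ w : List ℕ, Pos w ∧ w.length = n ∧ ∃ t ∈ Set.Ioo (0 : ℝ) 1, Irrational t ∧ y = val w t := by
  induction n with
  | zero => exact ⟨[], by intro a ha; simp at ha, rfl, y, hy1, hy, rfl⟩
  | succ n ih =>
    obtain ⟨w, hw, hl, t, ht, hti, h⟩ := ih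
    have h1 : 1 < 1 / t := by rw [lt_div_iff₀ ht.1]; linarith [ht.2]
    obtain ⟨a, ha⟩ : ∃ a : ℕ, a = ⌊1 / t⌋₊ := ⟨_, rfl⟩
    have ha1 : 1 ≤ a := by rw [ha]; apply Nat.le_floor; push_cast; linarith
    have ha2 : (a : ℝ) ≤ 1 / t := by rw [ha]; exact Nat.floor_le (by linarith)
    have ha3 : 1 / t < a + 1 := by rw [ha]; exact Nat.lt_floor_add_one _
    have hirr : Irrational (1 / t - a) := by
      have : Irrational (1 / t) := by rw [one_div]; exact hti.inv
      exact this.sub_natCast a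
    have hne : 1 / t - (a : ℝ) ≠ 0 := hirr.ne_zero
    refine ⟨a :: w, Pos.cons ha1 hw, by simp [hl], 1 / t - a,
      ⟨lt_of_le_of_ne (by linarith) (Ne.symm hne), by linarith⟩, hirr, ?_⟩
    rw [h, val]
    congr 1
    rw [add_sub_cancel, one_div_one_div]

lemma init {x : ℝ} (hx : Irrational x) (hx1 : x ∈ Set.Ioo (0 : ℝ) 1) : ∃ u v, Al x u v := by
  obtain ⟨w, hw, hl, t, ht, -, h⟩ := exists_word hx hx1 4
  have h0 := q_len hw
  obtain ⟨h1, h2, -⟩ := q_basic hw
  have h3 : 0 ≤ t * (q w).2 := mul_nonneg ht.1.le h2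
  have hs := val_sub hw ht.1.le
  rw [← h, hl] at hs
  have he : e x w [] = t / ((q w).1 * ((q w).1 + t * (q w).2)) := by
    unfold e
    rw [hs]
    simp only [p, q]
    norm_num
  have hpos : 0 < e x w [] := by
    rw [he]
    have := ht.1
    positivity
  refine ⟨w, [], hw, by intro a ha; simp at ha, ?_, ?_, ?_⟩
  · simpa using hpos
  · rw [hl]
    have h4 : ((-1 : ℝ)) ^ 4 = 1 := by norm_num
    rw [h4, one_mul]
    exact hpos
  · unfold K
    rw [abs_of_pos hpos, he]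
    have e1 : (q ([] : List ℕ)).1 = 1 := rfl
    rw [e1, mul_one]
    have e2 : t / ((q w).1 * ((q w).1 + t * (q w).2)) * (q w).1 = t / ((q w).1 + t * (q w).2) := by
      field_simp
    rw [e2, div_le_div_iff₀ (by linarith) (by norm_num)]
    rw [hl] at h0
    push_cast at h0
    linarith [ht.2]

/-- the irrational case -/
theorem irr_case {x : ℝ} (hx : Irrational x) (hx1 : x ∈ Set.Ioo (0 : ℝ) 1) :
    ∃ g₁ g₂ : ℝ, g₁ ∈ Set.Ioo (0 : ℝ) 1 ∧ g₂ ∈ Set.Ioo (0 : ℝ) 1 ∧ Tends g₁ ∧ Tends g₂ ∧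
      x = g₁ + g₂ := by
  classical
  obtain ⟨u0, v0, h0⟩ := init hx hx1
  choose! fu fv hfu hfv hdu hdv hal hK using fun u v (h : Al x u v) => two_steps hx h
  let F : ℕ → {s : List ℕ × List ℕ // Al x s.1 s.2} := fun n =>
    Nat.rec ⟨(u0, v0), h0⟩ (fun _ s => ⟨(fu s.1.1 s.1.2 ++ s.1.1, fv s.1.1 s.1.2 ++ s.1.2),
      hal _ _ s.2⟩) n
  set U : ℕ → List ℕ := fun n => (F n).1.1 with hU
  set V : ℕ → List ℕ := fun n => (F n).1.2 with hV
  have hA : ∀ n, Al x (U n) (V n) := fun n => (F n).2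
  have hUs : ∀ n, U (n + 1) = fu (U n) (V n) ++ U n := fun n => rfl
  have hVs : ∀ n, V (n + 1) = fv (U n) (V n) ++ V n := fun n => rfl
  have hKs : ∀ n : ℕ, (n : ℝ) + 4 ≤ 1 / K x (U n) (V n) := by
    intro n
    induction n with
    | zero =>
      have h1 := K_pos hx (hA 0).1 (hA 0).2.1
      have h2 := (hA 0).2.2.2.2
      rw [le_div_iff₀ h1]
      push_cast
      linarith
    | succ n ih =>
      have h1 := K_pos hx (hA n).1 (hA n).2.1
      have h2 := (hA n).2.2.2.2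
      have h3 := K_pos hx (hA (n + 1)).1 (hA (n + 1)).2.1
      have h4 := hK _ _ (hA n)
      rw [← hUs, ← hVs] at h4
      have h5 : 0 < 1 - K x (U n) (V n) := by linarith
      have h6 : 1 / K x (U n) (V n) + 1 ≤ 1 / (K x (U n) (V n) * (1 - K x (U n) (V n))) := by
        rw [le_div_iff₀ (by positivity)]
        have : (1 / K x (U n) (V n) + 1) * (K x (U n) (V n) * (1 - K x (U n) (V n))) =
            (1 + K x (U n) (V n)) * (1 - K x (U n) (V n)) := by field_simp
        rw [this]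
        nlinarith
      have h7 := one_div_le_one_div_of_le h3 h4
      push_cast
      linarith
  have hdig : ∀ n : ℕ, ∀ a : ℕ, 1 / K x (U n) (V n) - 2 ≤ a → n + 2 ≤ a := by
    intro n a ha
    have := hKs n
    have h2 : ((n + 2 : ℕ) : ℝ) ≤ a := by push_cast; linarith
    exact_mod_cast h2
  obtain ⟨pU, lU, g₁, g1, t1, w1⟩ := chain_point U (fun n => fu (U n) (V n)) (hA 0).1 hUs
    (fun n => hfu _ _ (hA n)) (fun n a ha => hdig n a (hdu _ _ (hA n) a ha))
  obtain ⟨pV, lV, g₂, g2, t2, w2⟩ := chain_point V (fun n => fv (U n) (V n)) (hA 0).2.1 hVs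
    (fun n => hfv _ _ (hA n)) (fun n a ha => hdig n a (hdv _ _ (hA n) a ha))
  refine ⟨g₁, g₂, g1, g2, t1, t2, ?_⟩
  have hbound : ∀ n : ℕ, 1 ≤ n → |x - (g₁ + g₂)| ≤ 3 / n := by
    intro n hn
    obtain ⟨s1, hs1, e1⟩ := w1 n
    obtain ⟨s2, hs2, e2⟩ := w2 n
    have hn0 : (0 : ℝ) < n := by exact_mod_cast hn
    have a1 := val_near (pU n) hs1
    have a2 := val_near (pV n) hs2
    rw [← e1] at a1
    rw [← e2] at a2
    have b1 : (n : ℝ) ≤ (q (U n)).1 := le_trans (by exact_mod_cast lU n) (q_len (pU n))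
    have b2 : (n : ℝ) ≤ (q (V n)).1 := le_trans (by exact_mod_cast lV n) (q_len (pV n))
    have c1 : 1 / (q (U n)).1 ≤ 1 / n := one_div_le_one_div_of_le hn0 b1
    have c2 : 1 / (q (V n)).1 ≤ 1 / n := one_div_le_one_div_of_le hn0 b2
    have d1 : |e x (U n) (V n)| ≤ 1 / n := by
      have hk := K_pos hx (pU n) (pV n)
      have h4 : K x (U n) (V n) ≤ 1 / n := by
        rw [le_div_iff₀ hn0]
        have := hKs n
        rw [le_div_iff₀ hk] at this
        nlinarith
      refine le_trans ?_ h4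
      unfold K
      have q1 := (q_basic (pU n)).1
      have q2 := (q_basic (pV n)).1
      have h5 := abs_nonneg (e x (U n) (V n))
      have h6 : |e x (U n) (V n)| * 1 ≤ |e x (U n) (V n)| * (q (U n)).1 :=
        mul_le_mul_of_nonneg_left q1 h5
      have h7 : |e x (U n) (V n)| * (q (U n)).1 * 1 ≤
          |e x (U n) (V n)| * (q (U n)).1 * (q (V n)).1 :=
        mul_le_mul_of_nonneg_left q2 (by positivity)
      linarith
    have : x - (g₁ + g₂) = e x (U n) (V n) - (g₁ - (p (U n)).1 / (q (U n)).1) -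
        (g₂ - (p (V n)).1 / (q (V n)).1) := by unfold e; ring
    rw [this]
    have e3 : (3 : ℝ) / n = 1 / n + 1 / n + 1 / n := by ring
    rw [e3]
    refine (abs_sub _ _).trans ?_
    refine add_le_add ((abs_sub _ _).trans (add_le_add d1 (a1.trans c1))) (a2.trans c2)
  have hlim : Tendsto (fun n : ℕ => (3 : ℝ) / n) atTop (nhds 0) :=
    tendsto_const_div_atTop_nhds_zero_nat 3
  have h0 : |x - (g₁ + g₂)| ≤ 0 :=
    ge_of_tendsto hlim (by filter_upwards [eventually_ge_atTop 1] with n hn using hbound n hn)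
  have := abs_nonpos_iff.1 h0
  linarith

/-! ### rational numbers -/

lemma rat_words (n : ℕ) : ∀ u v : ℕ, u ≤ n → 0 < u → u ≤ v →
    (∃ C : List ℕ, Pos C ∧ Odd C.length ∧ val C 0 = (u : ℝ) / v) ∧
    (u < v → ∃ C : List ℕ, Pos C ∧ Even C.length ∧ val C 0 = (u : ℝ) / v) := by
  induction n with
  | zero => intro u v h1 h2; omega
  | succ n ih =>
    intro u v hun hu huv
    obtain ⟨a, ha⟩ : ∃ a, a = v / u := ⟨_, rfl⟩
    obtain ⟨r, hr⟩ : ∃ r, r = v % u := ⟨_, rfl⟩
    have hdiv : u * a + r = v := by rw [ha, hr]; exact Nat.div_add_mod v u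
    have hru : r < u := by rw [hr]; exact Nat.mod_lt _ hu
    have ha1 : 1 ≤ a := by
      rw [ha]; exact Nat.div_pos huv hu
    have huR : (0 : ℝ) < u := by exact_mod_cast hu
    have haR : (1 : ℝ) ≤ a := by exact_mod_cast ha1
    have hvR : (v : ℝ) = u * a + r := by rw [← hdiv]; push_cast; ring
    rcases Nat.eq_zero_or_pos r with h0 | h0
    · subst h0
      rw [Nat.cast_zero, add_zero] at hvR
      rw [add_zero] at hdiv
      refine ⟨⟨[a], ?_, by simp, ?_⟩, fun hlt => ⟨[1, a - 1], ?_, by simp, ?_⟩⟩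
      · intro b hb; rw [List.mem_singleton] at hb; rw [hb]; exact ha1
      · rw [hvR]; simp only [val]; field_simp; ring
      · have ha2 : 2 ≤ a := by
          by_contra hcon
          have : a = 1 := by omega
          rw [this, mul_one] at hdiv
          omega
        intro b hb
        simp only [List.mem_cons, List.not_mem_nil, or_false] at hb
        rcases hb with rfl | rfl <;> omega
      · rw [hvR]
        simp only [val]
        rw [Nat.cast_sub ha1]
        push_cast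
        have h9 : (1 : ℝ) / (1 + 0) = 1 := by norm_num
        rw [h9]
        have h10 : (a : ℝ) - 1 + 1 = a := by ring
        rw [h10]
        field_simp
    · have hrR : (0 : ℝ) < r := by exact_mod_cast h0
      obtain ⟨⟨C, hC, hCo, hCv⟩, h2⟩ := ih r u (by omega) h0 hru.le
      obtain ⟨C', hC', hCe, hCv'⟩ := h2 hru
      have happ : ∀ C : List ℕ, Pos C → val C 0 = (r : ℝ) / u →
          Pos (C ++ [a]) ∧ val (C ++ [a]) 0 = (u : ℝ) / v := by
        intro C hC hv
        refine ⟨?_, ?_⟩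
        · intro b hb
          rcases List.mem_append.1 hb with hb | hb
          · exact hC b hb
          · rw [List.mem_singleton] at hb; rw [hb]; exact ha1
        · rw [val_append, hv, hvR]
          simp only [val]
          field_simp
      refine ⟨⟨C' ++ [a], (happ C' hC' hCv').1, ?_, (happ C' hC' hCv').2⟩,
        fun _ => ⟨C ++ [a], (happ C hC hCv).1, ?_, (happ C hC hCv).2⟩⟩
      · rw [List.length_append]; exact hCe.add_odd (by simp)
      · rw [List.length_append]; exact hCo.add_odd (by simp)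

/-- a number is determined by its tails -/
lemma tends_of_tails (s : ℕ → ℝ) (d : ℕ → ℕ) (hs : ∀ i, s i ∈ Set.Ioo (0 : ℝ) 1)
    (h : ∀ i, s i = 1 / ((d i : ℝ) + s (i + 1))) (hd : ∀ i, i ≤ d i) : Tends (s 0) := by
  have h1 : ∀ i, T^[i] (s 0) = s i := by
    intro i
    induction i with
    | zero => rfl
    | succ i ih => rw [Function.iterate_succ', Function.comp, ih, h i, T_inv _ (hs (i + 1))]
  unfold Tends
  have h2 : (fun n : ℕ => ⌊1 / (T^[n] (s 0))⌋) = fun n => (d n : ℤ) := by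
    funext n
    rw [h1, h n, digit_inv _ (hs (n + 1))]
  rw [h2]
  apply tendsto_atTop_mono (f := fun n : ℕ => (n : ℤ))
  · intro n
    exact_mod_cast hd n
  · exact tendsto_natCast_atTop_atTop

lemma exists_both (D : ℕ) (hD : 1 ≤ D) : ∃ t : ℝ, t ∈ Set.Ioo (0 : ℝ) 1 ∧ Tends t ∧
    t / D ∈ Set.Ioo (0 : ℝ) 1 ∧ Tends (t / D) := by
  have hDR : (1 : ℝ) ≤ D := by exact_mod_cast hD
  set d : ℕ → ℕ := fun i => if Even i then i + 2 else D * (i + 2) with hd
  have hd2 : ∀ i, i + 2 ≤ d i := by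
    intro i
    simp only [hd]
    split_ifs
    · exact le_rfl
    · nlinarith
  let U : ℕ → List ℕ := fun n => Nat.rec [] (fun n w => d n :: w) n
  have hU : ∀ k, U (k + 1) = [d k] ++ U k := fun k => rfl
  have hlen : ∀ k, (U k).length = k := by
    intro k
    induction k with
    | zero => rfl
    | succ k ih => rw [hU, List.length_append, ih]; simp; omega
  obtain ⟨pU, -, t, ht, hT, hw⟩ := chain_point U (fun k => [d k]) (by intro a ha; simp [U] at ha) hU
    (by simp) (by intro k a ha; rw [List.mem_singleton] at ha; rw [ha]; exact hd2 k)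
  choose τ hτ hτv using hw
  have hrec : ∀ i, τ i = 1 / ((d i : ℝ) + τ (i + 1)) := by
    intro i
    have h1 : T^[(U i).length] t = τ i := by rw [hτv i]; exact T_iter (pU i) (hτ i)
    have h2 : T^[(U i).length] t = 1 / ((d i : ℝ) + τ (i + 1)) := by
      rw [hτv (i + 1), hU, List.singleton_append, val]
      exact T_iter (pU i) (inv_mem (by have := hd2 i; omega) (hτ (i + 1)))
    rw [← h1, h2]
  have h0 : τ 0 = t := by
    have := hτv 0
    rw [this]; rfl
  set s : ℕ → ℝ := fun i => if Even i then τ i / D else D * τ i with hs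
  set d' : ℕ → ℕ := fun i => if Even i then D * (i + 2) else i + 2 with hd'
  have hs0 : s 0 = t / D := by simp only [hs]; rw [if_pos (by simp), h0]
  have hsrec : ∀ i, s i = 1 / ((d' i : ℝ) + s (i + 1)) := by
    intro i
    have hti := hτ (i + 1)
    by_cases hi : Even i
    · have hi' : ¬ Even (i + 1) := by rw [Nat.even_add_one]; simpa using hi
      simp only [hs, hd']
      rw [if_pos hi, if_pos hi, if_neg hi', hrec i]
      simp only [hd]
      rw [if_pos hi]
      push_cast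
      have : (0 : ℝ) < (i : ℝ) + 2 + τ (i + 1) := by have := hti.1; positivity
      field_simp
    · have hi' : Even (i + 1) := by rw [Nat.even_add_one]; exact hi
      simp only [hs, hd']
      rw [if_neg hi, if_neg hi, if_pos hi', hrec i]
      simp only [hd]
      rw [if_neg hi]
      push_cast
      have h3 : (0 : ℝ) < (D : ℝ) * ((i : ℝ) + 2) + τ (i + 1) := by have := hti.1; positivity
      have h4 : (0 : ℝ) < (i : ℝ) + 2 + τ (i + 1) / D := by have := hti.1; positivity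
      field_simp
  have hspos : ∀ i, 0 < s i := by
    intro i
    have := (hτ i).1
    simp only [hs]
    split_ifs <;> positivity
  have hsm : ∀ i, s i ∈ Set.Ioo (0 : ℝ) 1 := by
    intro i
    refine ⟨hspos i, ?_⟩
    rw [hsrec i]
    have h5 : (2 : ℝ) ≤ d' i := by
      have : 2 ≤ d' i := by
        simp only [hd']
        split_ifs
        · nlinarith
        · omega
      exact_mod_cast this
    have := hspos (i + 1)
    rw [div_lt_one (by linarith)]
    linarith
  refine ⟨t, ht, hT, ?_, ?_⟩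
  · rw [← hs0]; exact hsm 0
  · rw [← hs0]
    apply tends_of_tails s d' hsm hsrec
    intro i
    simp only [hd']
    split_ifs
    · nlinarith
    · omega

lemma q_nat {w : List ℕ} : ∃ a b : ℕ, (q w).1 = a ∧ (q w).2 = b := by
  induction w with
  | nil => exact ⟨1, 0, by simp [q], by simp [q]⟩
  | cons c w ih =>
    obtain ⟨a, b, h1, h2⟩ := ih
    refine ⟨c * a + b, a, ?_, h1⟩
    simp only [q, h1, h2]
    push_cast
    ring

/-- the rational case -/
theorem rat_case (u v : ℕ) (hu : 0 < u) (huv : u ≤ v) :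
    ∃ g₁ g₂ : ℝ, g₁ ∈ Set.Ioo (0 : ℝ) 1 ∧ g₂ ∈ Set.Ioo (0 : ℝ) 1 ∧ Tends g₁ ∧ Tends g₂ ∧
      (u : ℝ) / v = g₁ + g₂ := by
  obtain ⟨⟨C, hC, hCo, hCv⟩, -⟩ := rat_words u u v le_rfl hu huv
  obtain ⟨Q, R, hQ, hR⟩ := q_nat (w := C)
  have hb := q_basic hC
  rw [hQ, hR] at hb
  have hQ1 : 1 ≤ Q := by exact_mod_cast hb.1
  have hQR : (1 : ℝ) ≤ Q := hb.1
  obtain ⟨t, ht, hT, htD, hTD⟩ := exists_both (Q ^ 2) (Nat.one_le_pow _ _ hQ1)
  push_cast at htD hTD
  have p1 : Pos [Q ^ 2 * 2 + Q * R] := by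
    intro b hb
    rw [List.mem_singleton] at hb
    rw [hb]
    have : 1 ≤ Q ^ 2 := Nat.one_le_pow _ _ hQ1
    omega
  have p2 : Pos (2 :: C) := Pos.cons (by norm_num) hC
  refine ⟨val [Q ^ 2 * 2 + Q * R] t, val (2 :: C) (t / (Q : ℝ) ^ 2), val_mem p1 ht,
    val_mem p2 htD, tends_val p1 ht hT, tends_val p2 htD hTD, ?_⟩
  rw [← hCv]
  have e0 := val_sub hC (le_refl (0 : ℝ))
  have e1 : 0 ≤ 1 / (((2 : ℕ) : ℝ) + t / (Q : ℝ) ^ 2) := by
    have := ht.1
    positivity
  have e2 := val_sub hC e1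
  have e3 : val (2 :: C) (t / (Q : ℝ) ^ 2) = val C (1 / (((2 : ℕ) : ℝ) + t / (Q : ℝ) ^ 2)) := rfl
  rw [e3]
  rw [hCo.neg_one_pow, hQ, hR] at e2
  rw [mul_zero, zero_div] at e0
  rw [hQ] at e0
  have e4 : val [Q ^ 2 * 2 + Q * R] t = 1 / (((Q ^ 2 * 2 + Q * R : ℕ) : ℝ) + t) := rfl
  rw [e4]
  have e5 : val C 0 = (p C).1 / Q := by linarith
  rw [e5]
  have e6 : val C (1 / (((2 : ℕ) : ℝ) + t / (Q : ℝ) ^ 2)) = (p C).1 / Q +
      -1 * (1 / (((2 : ℕ) : ℝ) + t / (Q : ℝ) ^ 2)) /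
        (Q * (Q + 1 / (((2 : ℕ) : ℝ) + t / (Q : ℝ) ^ 2) * R)) := by linarith
  rw [e6]
  have ht0 := ht.1
  have hQ0 : (0 : ℝ) < Q := by linarith
  have hR0 : (0 : ℝ) ≤ R := hb.2.1
  have e7 : 1 / (((Q ^ 2 * 2 + Q * R : ℕ) : ℝ) + t) =
      1 / (((2 : ℕ) : ℝ) + t / (Q : ℝ) ^ 2) /
        (Q * (Q + 1 / (((2 : ℕ) : ℝ) + t / (Q : ℝ) ^ 2) * R)) := by
    push_cast
    have h1 : (0 : ℝ) < 2 + t / (Q : ℝ) ^ 2 := by positivity
    have h2 : (0 : ℝ) < (Q : ℝ) ^ 2 * 2 + Q * R + t := by positivity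
    field_simp
    ring
  rw [e7]
  ring

theorem main (x : ℝ) (h0 : 0 < x) (h1 : x ≤ 1) :
    ∃ g₁ g₂ : ℝ, g₁ ∈ Set.Ioo (0 : ℝ) 1 ∧ g₂ ∈ Set.Ioo (0 : ℝ) 1 ∧ Tends g₁ ∧ Tends g₂ ∧
      x = g₁ + g₂ := by
  by_cases hx : Irrational x
  · have hne : x ≠ 1 := by
      rintro rfl
      exact hx ⟨1, by simp⟩
    exact irr_case hx ⟨h0, lt_of_le_of_ne h1 hne⟩
  · unfold Irrational at hx
    push Not at hx
    obtain ⟨r, rfl⟩ := hx
    have hr0 : 0 < r := by exact_mod_cast h0
    have hr1 : r ≤ 1 := by exact_mod_cast h1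
    have hnum : 0 < r.num := Rat.num_pos.2 hr0
    obtain ⟨u, hu⟩ : ∃ u : ℕ, (u : ℤ) = r.num := ⟨r.num.toNat, Int.toNat_of_nonneg hnum.le⟩
    have hr : (r : ℝ) = (u : ℝ) / (r.den : ℝ) := by
      have h2 : (r : ℝ) = ((r.num : ℤ) : ℝ) / ((r.den : ℕ) : ℝ) := by
        exact_mod_cast (Rat.num_div_den r).symm
      rw [h2, ← hu]
      simp
    have hle : u ≤ r.den := by
      have h3 : (u : ℝ) / (r.den : ℝ) ≤ 1 := by rw [← hr]; exact_mod_cast hr1
      rw [div_le_one (by exact_mod_cast r.den_pos)] at h3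
      exact_mod_cast h3
    rw [hr]
    exact rat_case u r.den (by omega) hle

end Pool.Agent.R334.SG
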